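import Pool.Agent.Helper93.DR.Defs2
import Pool.Agent.Helper93.WS.FrobC

/-!
# Frobenius elements over `F'`
-/

open scoped NumberField Pointwise

namespace Pool.Agent.Helper93.DR

section Aux

/-- The action on the ring of integers, read in the field. -/
private theorem coe_gal_smul {K L : Type*} [Field K] [Field L] [Algebra K L] (s : L ≃ₐ[K] L)
    (x : 𝓞 L) : ((s • x : 𝓞 L) : L) = s (x : L) := rfl

private theorem coe_alg {K L : Type*} [Field K] [Field L] [Algebra K L] (x : 𝓞 K) :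
    ((algebraMap (𝓞 K) (𝓞 L) x : 𝓞 L) : L) = algebraMap K L (x : K) := rfl

private theorem isMaximal_smul {M R : Type*} [Group M] [CommRing R] [MulSemiringAction M R]
    (a : M) {S : Ideal R} (hS : S.IsMaximal) : (a • S).IsMaximal := by
  rw [Ideal.pointwise_smul_eq_comap]
  exact Ideal.comap_isMaximal_of_surjective
    (MulSemiringAction.toRingAut M R a).symm
    (MulSemiringAction.toRingAut M R a).symm.surjective

private theorem card_quot_smul {M R : Type*} [Group M] [CommRing R] [MulSemiringAction M R]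
    (a : M) (S : Ideal R) : Nat.card (R ⧸ a • S) = Nat.card (R ⧸ S) := by
  have h : a • S = S.map (MulSemiringAction.toRingAut M R a : R →+* R) := rfl
  exact (Nat.card_congr (Ideal.quotientEquiv S (a • S) (MulSemiringAction.toRingAut M R a)
    h).toEquiv).symm

/-- Powers of a Frobenius element. -/
private theorem frob_pow_aux {F L : Type*} [Field F] [Field L] [Algebra F L] {φ : L ≃ₐ[F] L}
    {Q : Ideal (𝓞 L)} {N : ℕ} (h : ∀ x : 𝓞 L, φ • x - x ^ N ∈ Q) (i : ℕ) (x : 𝓞 L) :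
    (φ ^ i) • x - x ^ (N ^ i) ∈ Q := by
  induction i generalizing x with
  | zero => simp
  | succ i ih =>
    have h1 := ih (φ • x)
    have h2 : (φ • x) ^ (N ^ i) - (x ^ N) ^ (N ^ i) ∈ Q := by
      obtain ⟨c, hc⟩ := sub_dvd_pow_sub_pow (φ • x) (x ^ N) (N ^ i)
      rw [hc]
      exact Q.mul_mem_right _ (h x)
    have h3 := Q.add_mem h1 h2
    rw [sub_add_sub_cancel, smul_smul, ← pow_succ, ← pow_mul, ← pow_succ'] at h3
    exact h3

private theorem overSet_eq' {F F' : Type*} [Field F] [NumberField F] [Field F'] [NumberField F']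
    [Algebra F F'] {v : Ideal (𝓞 F)} (hv : v.IsMaximal) :
    WS.overSet F' v = v.primesOver (𝓞 F') := by
  ext w
  constructor
  · rintro ⟨h1, h2⟩
    exact ⟨h1.isPrime, ⟨h2.symm⟩⟩
  · rintro ⟨h1, h2⟩
    have h3 : w.comap (algebraMap (𝓞 F) (𝓞 F')) = v := h2.over.symm
    refine ⟨?_, h3⟩
    apply Ideal.isMaximal_of_isIntegral_of_isMaximal_comap (R := 𝓞 F) w
    rw [h3]
    exact hv

end Aux

variable {k : Type*} [Field k] {F F' L : Type*}
  [Field F] [NumberField F] [Field F'] [NumberField F'] [Field L] [NumberField L]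
  [Algebra F F'] [Algebra F L] [Algebra F' L] [IsScalarTower F F' L]
  [IsGalois F F'] [IsGalois F L]

/-- `L / F` is unramified outside some integer. -/
theorem exists_unramified (F L : Type*) [Field F] [NumberField F] [Field L] [NumberField L]
    [Algebra F L] [IsGalois F L] : ∃ M₀ : ℕ, M₀ ≠ 0 ∧ ∀ Q : Ideal (𝓞 L), Q.IsMaximal →
      (M₀ : 𝓞 L) ∉ Q → ∀ τ : L ≃ₐ[F] L, (∀ x : 𝓞 L, τ • x - x ∈ Q) → τ = 1 := by
  classical
  have hx' : ∀ τ : L ≃ₐ[F] L, ∃ x : 𝓞 L, τ ≠ 1 → τ • x ≠ x := by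
    intro τ
    by_contra hcon
    push Not at hcon
    apply (hcon 0).1
    have : FaithfulSMul (L ≃ₐ[F] L) (𝓞 L) := IsGaloisGroup.faithful (𝓞 F)
    exact eq_of_smul_eq_smul (α := 𝓞 L) (fun x => by rw [one_smul]; exact (hcon x).2)
  choose x hx using hx'
  refine ⟨∏ τ ∈ Finset.univ.erase (1 : L ≃ₐ[F] L),
    Ideal.absNorm (Ideal.span {τ • x τ - x τ} : Ideal (𝓞 L)), ?_, ?_⟩
  · rw [Finset.prod_ne_zero_iff]
    intro τ hτ
    rw [Finset.mem_erase] at hτ
    rw [Ne, Ideal.absNorm_eq_zero_iff, Ideal.span_singleton_eq_bot, sub_eq_zero]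
    exact hx τ hτ.1
  · intro Q hQ hM τ hτ
    by_contra hne
    apply hM
    have h1 : ((Ideal.absNorm (Ideal.span {τ • x τ - x τ} : Ideal (𝓞 L)) : ℕ) : 𝓞 L) ∈ Q := by
      have h2 : (Ideal.span {τ • x τ - x τ} : Ideal (𝓞 L)) ≤ Q := by
        rw [Ideal.span_singleton_le_iff_mem]
        exact hτ _
      exact h2 (Ideal.absNorm_mem _)
    obtain ⟨c, hc⟩ := Finset.dvd_prod_of_mem
      (fun τ : L ≃ₐ[F] L => Ideal.absNorm (Ideal.span {τ • x τ - x τ} : Ideal (𝓞 L)))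
      (Finset.mem_erase.2 ⟨hne, Finset.mem_univ τ⟩)
    rw [hc, Nat.cast_mul]
    exact Q.mul_mem_right _ h1

/-- Galois conjugates of Frobenius elements of `F'`, with the same trace and determinant. -/
theorem frob_conj (ρ : (L ≃ₐ[F] L) →* Matrix.GeneralLinearGroup (Fin 2) k)
    (σ : F' ≃ₐ[F] F') {s : L ≃ₐ[F'] L} {Q : Ideal (𝓞 L)} {w : Ideal (𝓞 F')}
    (h : WS.IsFrob F' s Q w) :
    ∃ (s' : L ≃ₐ[F'] L) (Q' : Ideal (𝓞 L)), WS.IsFrob F' s' Q' (σ • w) ∧
      Matrix.trace (res (F' := F') ρ s' : Matrix (Fin 2) (Fin 2) k) =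
        Matrix.trace (res (F' := F') ρ s : Matrix (Fin 2) (Fin 2) k) ∧
      Matrix.det (res (F' := F') ρ s' : Matrix (Fin 2) (Fin 2) k) =
        Matrix.det (res (F' := F') ρ s : Matrix (Fin 2) (Fin 2) k) := by
  obtain ⟨hQ, hc, hf⟩ := h
  set t : L ≃ₐ[F] L := σ.liftNormal L with ht
  have hs1 : ∀ a : F', t (algebraMap F' L a) = algebraMap F' L (σ a) := fun a =>
    AlgEquiv.liftNormal_commutes σ L a
  have hs2 : ∀ a : F', t⁻¹ (algebraMap F' L a) = algebraMap F' L (σ⁻¹ a) := by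
    intro a
    have h1 : t (algebraMap F' L (σ⁻¹ a)) = algebraMap F' L a := by
      rw [hs1]
      congr 1
      exact σ.apply_symm_apply a
    rw [← h1]
    exact t.symm_apply_apply _
  let s' : L ≃ₐ[F'] L := AlgEquiv.ofRingEquiv
    (f := ((t * s.restrictScalars F * t⁻¹ : L ≃ₐ[F] L) : L ≃+* L)) (by
      intro a
      change t (s (t⁻¹ (algebraMap F' L a))) = algebraMap F' L a
      rw [hs2, AlgEquiv.commutes, ← hs2]
      exact t.apply_symm_apply _)
  have hs' : s'.restrictScalars F = t * s.restrictScalars F * t⁻¹ := by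
    ext x
    rfl
  have hres : res (F' := F') ρ s' = ρ t * res (F' := F') ρ s * (ρ t)⁻¹ := by
    change ρ (s'.restrictScalars F) = ρ t * ρ (s.restrictScalars F) * (ρ t)⁻¹
    rw [hs', map_mul, map_mul, map_inv]
  refine ⟨s', t • Q, ⟨isMaximal_smul t hQ, ?_, ?_⟩, ?_, ?_⟩
  · ext x
    rw [Ideal.mem_comap, Ideal.mem_pointwise_smul_iff_inv_smul_mem,
      Ideal.mem_pointwise_smul_iff_inv_smul_mem, ← hc, Ideal.mem_comap]
    have h1 : t⁻¹ • algebraMap (𝓞 F') (𝓞 L) x = algebraMap (𝓞 F') (𝓞 L) (σ⁻¹ • x) := by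
      apply NumberField.RingOfIntegers.ext
      rw [coe_gal_smul, coe_alg, coe_alg, coe_gal_smul, hs2]
    rw [h1]
  · intro x
    rw [Ideal.mem_pointwise_smul_iff_inv_smul_mem, card_quot_smul, smul_sub]
    have h1 : t⁻¹ • (s' • x) = s • (t⁻¹ • x) := by
      apply NumberField.RingOfIntegers.ext
      rw [coe_gal_smul, coe_gal_smul, coe_gal_smul, coe_gal_smul]
      change t⁻¹ (t (s (t⁻¹ (x : L)))) = s (t⁻¹ (x : L))
      exact t.symm_apply_apply _
    rw [h1, smul_pow']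
    exact hf _
  · rw [hres, Units.val_mul, Units.val_mul, Matrix.trace_mul_comm, ← mul_assoc, Units.inv_mul,
      one_mul]
  · rw [hres, Units.val_mul, Units.val_mul, Matrix.det_mul, mul_comm, ← Matrix.det_mul,
      ← mul_assoc, Units.inv_mul, one_mul]

/-- The inertia groups of `L / F` over `v` being trivial, `v` is unramified in `L`, hence
in `F'`. -/
private theorem ram_one {M : ℕ}
    (hram : ∀ Q : Ideal (𝓞 L), Q.IsMaximal → (M : 𝓞 L) ∉ Q → ∀ τ : L ≃ₐ[F] L,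
      (∀ x : 𝓞 L, τ • x - x ∈ Q) → τ = 1)
    {v : Ideal (𝓞 F)} (hv : v.IsMaximal) (hM : (M : 𝓞 F) ∉ v) {w : Ideal (𝓞 F')}
    (hw : w ∈ WS.overSet F' v) : w.ramificationIdx (𝓞 F) = 1 := by
  have hvp : v.IsPrime := hv.isPrime
  have hwp : w.IsPrime := hw.1.isPrime
  have hwm : w.IsMaximal := hw.1
  have hwv : w.LiesOver v := ⟨hw.2.symm⟩
  obtain ⟨Q, hQ1, hQ2⟩ := Ideal.exists_maximal_ideal_liesOver_of_isIntegral (S := 𝓞 L) w
  have hQm : Q.IsMaximal := hQ1
  have hQp : Q.IsPrime := hQm.isPrime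
  have hQv : Q.LiesOver v := Ideal.LiesOver.trans Q w v
  have hMQ : (M : 𝓞 L) ∉ Q := by
    intro h
    apply hM
    have h1 : v = Q.comap (algebraMap (𝓞 F) (𝓞 L)) := hQv.over
    rw [h1, Ideal.mem_comap, map_natCast]
    exact h
  have h5 : Nat.card (Q.inertia (L ≃ₐ[F] L)) = 1 := by
    rw [Nat.card_eq_one_iff_unique]
    refine ⟨⟨fun a b => ?_⟩, ⟨1⟩⟩
    have ha : (a : L ≃ₐ[F] L) = 1 := hram Q hQm hMQ a (fun x => a.2 x)
    have hb : (b : L ≃ₐ[F] L) = 1 := hram Q hQm hMQ b (fun x => b.2 x)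
    exact Subtype.ext (ha.trans hb.symm)
  have hfin : Finite (𝓞 F ⧸ v) :=
    v.finiteQuotientOfFreeOfNeBot (v.bot_lt_of_maximal (NumberField.RingOfIntegers.not_isField F)).ne'
  have h6 := Ideal.card_inertia_eq_ramificationIdxIn (G := L ≃ₐ[F] L) v Q
  rw [h5, Ideal.ramificationIdxIn_eq_ramificationIdx v Q (L ≃ₐ[F] L)] at h6
  have h7 := Ideal.ramificationIdx_tower (R := 𝓞 F) w Q
  rw [← h6] at h7
  exact Nat.eq_one_of_mul_eq_one_right h7.symm

/-- Outside the ramification: the extension of `v` is the product of the `g` distinct maximal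
ideals over `v`, `f g` is the degree, and over each of them there is a Frobenius element of `F'`
whose trace and determinant are the `f`-th powers of those of a Frobenius element over `v`. -/
theorem frob_over {p : ℕ} [Fact p.Prime] [CharP k p] (hP : IsPGroup p (F' ≃ₐ[F] F'))
    (ρ : (L ≃ₐ[F] L) →* Matrix.GeneralLinearGroup (Fin 2) k) {M : ℕ}
    (hram : ∀ Q : Ideal (𝓞 L), Q.IsMaximal → (M : 𝓞 L) ∉ Q → ∀ τ : L ≃ₐ[F] L,
      (∀ x : 𝓞 L, τ • x - x ∈ Q) → τ = 1)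
    {v : Ideal (𝓞 F)} (hv : v.IsMaximal) (hM : (M : 𝓞 F) ∉ v) {s : L ≃ₐ[F] L}
    {Q : Ideal (𝓞 L)} (hs : WS.IsFrob F s Q v) :
    ∃ (W : Finset (Ideal (𝓞 F'))) (i : ℕ), extI F F' v = ∏ w ∈ W, w ∧
      p ^ i * W.card = Module.finrank F F' ∧
      ∀ w ∈ W, w.IsMaximal ∧ w.comap (algebraMap (𝓞 F) (𝓞 F')) = v ∧
        ∃ (s' : L ≃ₐ[F'] L) (Q' : Ideal (𝓞 L)), WS.IsFrob F' s' Q' w ∧
          Matrix.trace (res (F' := F') ρ s' : Matrix (Fin 2) (Fin 2) k) =
            Matrix.trace (ρ s : Matrix (Fin 2) (Fin 2) k) ^ p ^ i ∧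
          Matrix.det (res (F' := F') ρ s' : Matrix (Fin 2) (Fin 2) k) =
            Matrix.det (ρ s : Matrix (Fin 2) (Fin 2) k) ^ p ^ i := by
  obtain ⟨hQ, hc, hf⟩ := hs
  have hvp : v.IsPrime := hv.isPrime
  have hv0 : v ≠ ⊥ := Ring.ne_bot_of_isMaximal_of_not_isField hv
    (NumberField.RingOfIntegers.not_isField F)
  have hfin : Finite (𝓞 F ⧸ v) := v.finiteQuotientOfFreeOfNeBot hv0
  have hram1 : ∀ w ∈ WS.overSet F' v, w.ramificationIdx (𝓞 F) = 1 := fun w hw =>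
    ram_one hram hv hM hw
  have hin : ∀ w ∈ WS.overSet F' v, Nat.card (w.inertia (F' ≃ₐ[F] F')) = 1 := by
    intro w hw
    have hwp : w.IsPrime := hw.1.isPrime
    have hwv : w.LiesOver v := ⟨hw.2.symm⟩
    rw [Ideal.card_inertia_eq_ramificationIdxIn (G := F' ≃ₐ[F] F') v w,
      Ideal.ramificationIdxIn_eq_ramificationIdx v w (F' ≃ₐ[F] F')]
    exact hram1 w hw
  -- counting
  have key : ∀ w ∈ WS.overSet F' v, (WS.overSet F' v).ncard * w.inertiaDeg (𝓞 F) =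
      Nat.card (F' ≃ₐ[F] F') := by
    intro w hw
    have h1 : w.IsPrime := hw.1.isPrime
    have h3 : w.LiesOver v := ⟨hw.2.symm⟩
    have h4 := Ideal.ncard_primesOver_mul_card_inertia_mul_finrank (G := F' ≃ₐ[F] F') v w
    rw [hin w hw, mul_one, ← overSet_eq' hv] at h4
    exact h4
  -- the prime `w₀`
  set w₀ : Ideal (𝓞 F') := Q.comap (algebraMap (𝓞 F') (𝓞 L)) with hw₀
  have hw₀m : w₀.IsMaximal := by
    have := hQ
    exact Ideal.isMaximal_comap_of_isIntegral_of_isMaximal Q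
  have hw₀p : w₀.IsPrime := hw₀m.isPrime
  have hw₀v : w₀ ∈ WS.overSet F' v := by
    refine ⟨hw₀m, ?_⟩
    rw [hw₀, Ideal.comap_comap, ← hc]
    congr 1
    exact (IsScalarTower.algebraMap_eq (𝓞 F) (𝓞 F') (𝓞 L)).symm
  have hw₀l : w₀.LiesOver v := ⟨hw₀v.2.symm⟩
  -- the degree
  obtain ⟨i, hi⟩ : ∃ i : ℕ, w₀.inertiaDeg (𝓞 F) = p ^ i := by
    obtain ⟨n, hn⟩ := IsPGroup.iff_card.mp hP
    have hdvd : w₀.inertiaDeg (𝓞 F) ∣ p ^ n := by
      rw [← hn, ← key w₀ hw₀v]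
      exact Dvd.intro_left _ rfl
    obtain ⟨j, -, hj⟩ := (Nat.dvd_prime_pow Fact.out).mp hdvd
    exact ⟨j, hj⟩
  have hcard : Nat.card (𝓞 F' ⧸ w₀) = Nat.card (𝓞 F ⧸ v) ^ p ^ i := by
    rw [← hi, Ideal.inertiaDeg_eq_of_isMaximal v w₀]
    let : Field (𝓞 F ⧸ v) := Ideal.Quotient.field v
    exact Module.natCard_eq_pow_finrank
  -- the restriction of `s ^ f`
  have hpow : ∀ x : 𝓞 L, (s ^ p ^ i) • x - x ^ (Nat.card (𝓞 F' ⧸ w₀)) ∈ Q := by
    intro x
    rw [hcard]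
    exact frob_pow_aux hf (p ^ i) x
  have hfin' : Finite (𝓞 F' ⧸ w₀) :=
    Ideal.finiteQuotientOfFreeOfNeBot w₀ (Ring.ne_bot_of_isMaximal_of_not_isField hw₀m
      (NumberField.RingOfIntegers.not_isField F'))
  have hinert : (s ^ p ^ i).restrictNormal F' = 1 := by
    have h0 : ∀ x : 𝓞 F', ((s ^ p ^ i).restrictNormal F') • x - x ∈ w₀ := by
      intro x
      rw [hw₀, Ideal.mem_comap, map_sub]
      have h1 : algebraMap (𝓞 F') (𝓞 L) (((s ^ p ^ i).restrictNormal F') • x) =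
          (s ^ p ^ i) • (algebraMap (𝓞 F') (𝓞 L) x) := by
        apply NumberField.RingOfIntegers.ext
        rw [coe_alg, coe_gal_smul, coe_gal_smul, coe_alg]
        exact AlgEquiv.restrictNormal_commutes (s ^ p ^ i) F' (x : F')
      rw [h1]
      have h2 := hpow (algebraMap (𝓞 F') (𝓞 L) x)
      have h3 : x ^ (Nat.card (𝓞 F' ⧸ w₀)) - x ∈ w₀ := by
        rw [← Ideal.Quotient.eq, map_pow]
        let _ := Ideal.Quotient.field w₀
        let _ := Fintype.ofFinite (𝓞 F' ⧸ w₀)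
        rw [Nat.card_eq_fintype_card]
        exact FiniteField.pow_card _
      have h4 : algebraMap (𝓞 F') (𝓞 L) (x ^ (Nat.card (𝓞 F' ⧸ w₀)) - x) ∈ Q := h3
      rw [map_sub, map_pow] at h4
      have h5 := Q.add_mem h2 h4
      rwa [sub_add_sub_cancel] at h5
    have h1 := hin w₀ hw₀v
    rw [Nat.card_eq_one_iff_unique] at h1
    have h2 := h1.1.allEq (⟨(s ^ p ^ i).restrictNormal F', h0⟩ : w₀.inertia (F' ≃ₐ[F] F')) 1
    exact congrArg Subtype.val h2
  have hfix : ∀ a : F', (s ^ p ^ i) (algebraMap F' L a) = algebraMap F' L a := by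
    intro a
    rw [← AlgEquiv.restrictNormal_commutes (s ^ p ^ i) F' a, hinert]
    rfl
  let ψ : L ≃ₐ[F'] L := AlgEquiv.ofRingEquiv (f := ((s ^ p ^ i : L ≃ₐ[F] L) : L ≃+* L)) hfix
  have hψ : ψ.restrictScalars F = s ^ p ^ i := by
    ext x
    rfl
  have hψF : WS.IsFrob F' ψ Q w₀ := ⟨hQ, rfl, fun x => hpow x⟩
  have hψρ : (res (F' := F') ρ ψ : Matrix (Fin 2) (Fin 2) k) =
      (ρ s : Matrix (Fin 2) (Fin 2) k) ^ p ^ i := by
    change (ρ (ψ.restrictScalars F) : Matrix (Fin 2) (Fin 2) k) = _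
    rw [hψ, map_pow, Units.val_pow_eq_pow_val]
  refine ⟨(WS.overSet_finite (F' := F') hv).toFinset, i, ?_, ?_, ?_⟩
  · have h1 := Ideal.map_algebraMap_eq_finsetProd_pow (R := 𝓞 F') hv0
    rw [extI, h1]
    have h2 : (WS.overSet_finite (F' := F') hv).toFinset =
        (v.primesOver (𝓞 F')).toFinset := by
      ext w
      rw [Set.Finite.mem_toFinset, Set.mem_toFinset, overSet_eq' hv]
    rw [h2]
    refine Finset.prod_congr rfl fun w hw => ?_
    rw [Set.mem_toFinset, ← overSet_eq' hv] at hw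
    rw [hram1 w hw, pow_one]
  · rw [← IsGalois.card_aut_eq_finrank F F', ← key w₀ hw₀v, hi, mul_comm,
      Set.ncard_eq_toFinset_card _ (WS.overSet_finite (F' := F') hv)]
  · intro w hw
    rw [Set.Finite.mem_toFinset] at hw
    refine ⟨hw.1, hw.2, ?_⟩
    obtain ⟨σ, hσ⟩ := WS.overSet_transitive hw₀v hw
    obtain ⟨s', Q', h1, h2, h3⟩ := frob_conj ρ σ hψF
    refine ⟨s', Q', ?_, h2.trans ?_, h3.trans ?_⟩
    · rw [hσ]
      exact h1
    · rw [hψρ]
      exact WS.trace_pow_char_pow _ i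
    · rw [hψρ, Matrix.det_pow]

end Pool.Agent.Helper93.DR
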