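import Mathlib

/-!
# Composita
-/

universe u

namespace Pool.Agent.Helper93.DR

theorem exists_compositum (F F' L : Type u) [Field F] [NumberField F] [Field F'] [NumberField F']
    [Field L] [NumberField L] [Algebra F F'] [Algebra F L] [IsGalois F F'] [IsGalois F L] :
    ∃ (L' : Type u) (_ : Field L') (_ : NumberField L') (_ : Algebra F L') (_ : Algebra F' L')
      (_ : Algebra L L'), IsScalarTower F F' L' ∧ IsScalarTower F L L' ∧ IsGalois F L' := by
  have : CharZero F := NumberField.to_charZero
  have : FiniteDimensional F F' := Module.Finite.of_restrictScalars_finite ℚ F F'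
  have : FiniteDimensional F L := Module.Finite.of_restrictScalars_finite ℚ F L
  let i : F' →ₐ[F] AlgebraicClosure F := IsAlgClosed.lift
  let j : L →ₐ[F] AlgebraicClosure F := IsAlgClosed.lift
  have hi : Normal F i.fieldRange := Normal.of_algEquiv (AlgEquiv.ofInjectiveField i)
  have hj : Normal F j.fieldRange := Normal.of_algEquiv (AlgEquiv.ofInjectiveField j)
  have : FiniteDimensional F i.fieldRange :=
    LinearEquiv.finiteDimensional (AlgEquiv.ofInjectiveField i).toLinearEquiv
  have : FiniteDimensional F j.fieldRange :=
    LinearEquiv.finiteDimensional (AlgEquiv.ofInjectiveField j).toLinearEquiv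
  let E : IntermediateField F (AlgebraicClosure F) := i.fieldRange ⊔ j.fieldRange
  have hE : Normal F E := IntermediateField.normal_sup F (AlgebraicClosure F) i.fieldRange
    j.fieldRange
  have hEf : FiniteDimensional F E := IntermediateField.finiteDimensional_sup _ _
  let i' : F' →ₐ[F] E := (IntermediateField.inclusion le_sup_left).comp i.rangeRestrict
  let j' : L →ₐ[F] E := (IntermediateField.inclusion le_sup_right).comp j.rangeRestrict
  have hEn : NumberField E := NumberField.of_module_finite F E
  refine ⟨E, inferInstance, hEn, inferInstance, i'.toRingHom.toAlgebra, j'.toRingHom.toAlgebra,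
    ?_, ?_, ?_⟩
  · let := i'.toRingHom.toAlgebra
    exact IsScalarTower.of_algebraMap_eq fun x => (i'.commutes x).symm
  · let := j'.toRingHom.toAlgebra
    exact IsScalarTower.of_algebraMap_eq fun x => (j'.commutes x).symm
  · exact IsGalois.mk

end Pool.Agent.Helper93.DR
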