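import Pool.Agent.Helper93.DR.Dual

/-!
# Averages of Fourier series over translations
-/

open scoped NumberField Classical

namespace Pool.Agent.Helper93.DR

variable {F : Type*} [Field F] [NumberField F]

/-- The character of the translation by `β`. -/
private noncomputable def ch (ξ β : F) : ℂ :=
  Complex.exp (2 * Real.pi * Complex.I * ((∑ τ : F →+* ℝ, τ (ξ * β) : ℝ) : ℂ))

private theorem ch_add (ξ β β' : F) : ch ξ (β + β') = ch ξ β * ch ξ β' := by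
  unfold ch
  rw [← Complex.exp_add]
  congr 1
  have h : (∑ τ : F →+* ℝ, τ (ξ * (β + β')) : ℝ) =
      (∑ τ : F →+* ℝ, τ (ξ * β) : ℝ) + (∑ τ : F →+* ℝ, τ (ξ * β') : ℝ) := by
    rw [← Finset.sum_add_distrib]
    refine Finset.sum_congr rfl fun τ _ => ?_
    rw [mul_add, map_add]
  rw [h]
  push_cast
  ring

private theorem ch_eq_one (ξ β : F) :
    ch ξ β = 1 ↔ ∃ m : ℤ, ∑ τ : F →+* ℝ, τ (ξ * β) = m := by
  unfold ch
  rw [Complex.exp_eq_one_iff]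
  have h0 : (2 * (Real.pi : ℂ) * Complex.I) ≠ 0 := Complex.two_pi_I_ne_zero
  constructor
  · rintro ⟨n, hn⟩
    refine ⟨n, ?_⟩
    have h1 : (((∑ τ : F →+* ℝ, τ (ξ * β) : ℝ)) : ℂ) = (n : ℂ) := by
      apply mul_left_cancel₀ h0
      rw [hn]; ring
    have h2 : (((∑ τ : F →+* ℝ, τ (ξ * β) : ℝ)) : ℂ) = (((n : ℝ)) : ℂ) := by
      rw [h1]; push_cast; rfl
    exact Complex.ofReal_injective h2
  · rintro ⟨n, hn⟩
    refine ⟨n, ?_⟩
    rw [hn]; push_cast; ring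

private theorem ch_transl {𝔟 : Ideal (𝓞 F)} {ξ β : F} (hξ : ξ ∈ Idx F 𝔟)
    (hβ : β ∈ transl F 𝔟) : ch ξ β = 1 := by
  rw [ch_eq_one]
  exact hβ ξ hξ.2

private theorem ch_congr {𝔟 : Ideal (𝓞 F)} {ξ : F} (hξ : ξ ∈ Idx F 𝔟) {β β' : F}
    (h : -β + β' ∈ transl F 𝔟) : ch ξ β' = ch ξ β := by
  have h1 : β' = β + (-β + β') := by ring
  rw [h1, ch_add, ch_transl hξ h, mul_one]

private theorem sum_ch [NumberField.IsTotallyReal F] {𝔟 𝔮 : Ideal (𝓞 F)} (hb : 𝔟 ≠ ⊥)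
    (hq : 𝔮 ≠ ⊥) {ξ : F} (hξ : ξ ∈ Idx F 𝔟)
    [Fintype (translq F 𝔟 𝔮 ⧸ (transl F 𝔟).addSubgroupOf (translq F 𝔟 𝔮))] :
    ∑ x : translq F 𝔟 𝔮 ⧸ (transl F 𝔟).addSubgroupOf (translq F 𝔟 𝔮),
        ch ξ ((Quotient.out x : translq F 𝔟 𝔮) : F) =
      if ∀ x ∈ 𝔟, ∃ y ∈ 𝔮, ξ * (x : F) = (y : F) then
        ((Nat.card (translq F 𝔟 𝔮 ⧸ (transl F 𝔟).addSubgroupOf (translq F 𝔟 𝔮)) : ℕ) : ℂ)
      else 0 := by
  split_ifs with h
  · rw [← dual_iff hb hq] at h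
    have h1 : ∀ x : translq F 𝔟 𝔮 ⧸ (transl F 𝔟).addSubgroupOf (translq F 𝔟 𝔮),
        ch ξ ((Quotient.out x : translq F 𝔟 𝔮) : F) = 1 := fun x =>
      (ch_eq_one _ _).2 (h _ (Quotient.out x : translq F 𝔟 𝔮).2)
    rw [Finset.sum_congr rfl fun x _ => h1 x]
    simp [Nat.card_eq_fintype_card]
  · rw [← dual_iff hb hq] at h
    push Not at h
    obtain ⟨x₀, hx₀, hne⟩ := h
    have hχ : ch ξ x₀ ≠ 1 := by
      intro h1
      obtain ⟨m, hm⟩ := (ch_eq_one _ _).1 h1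
      exact hne m hm
    set S := ∑ x : translq F 𝔟 𝔮 ⧸ (transl F 𝔟).addSubgroupOf (translq F 𝔟 𝔮),
        ch ξ ((Quotient.out x : translq F 𝔟 𝔮) : F) with hS
    let y₀ : translq F 𝔟 𝔮 ⧸ (transl F 𝔟).addSubgroupOf (translq F 𝔟 𝔮) :=
      QuotientAddGroup.mk (⟨x₀, hx₀⟩ : translq F 𝔟 𝔮)
    have h2 : ∀ x : translq F 𝔟 𝔮 ⧸ (transl F 𝔟).addSubgroupOf (translq F 𝔟 𝔮),
        ch ξ ((Quotient.out (x + y₀) : translq F 𝔟 𝔮) : F) =
          ch ξ ((Quotient.out x : translq F 𝔟 𝔮) : F) * ch ξ x₀ := by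
      intro x
      rw [← ch_add]
      apply ch_congr hξ
      have h3 : (QuotientAddGroup.mk ((Quotient.out x : translq F 𝔟 𝔮) + ⟨x₀, hx₀⟩) :
          translq F 𝔟 𝔮 ⧸ (transl F 𝔟).addSubgroupOf (translq F 𝔟 𝔮)) =
          QuotientAddGroup.mk (Quotient.out (x + y₀)) := by
        rw [QuotientAddGroup.out_eq', QuotientAddGroup.mk_add, QuotientAddGroup.out_eq']
      have h4 := QuotientAddGroup.eq.1 h3
      rw [AddSubgroup.mem_addSubgroupOf] at h4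
      simpa using h4
    have h5 : S = S * ch ξ x₀ := by
      calc S = ∑ x : translq F 𝔟 𝔮 ⧸ (transl F 𝔟).addSubgroupOf (translq F 𝔟 𝔮),
            ch ξ ((Quotient.out (x + y₀) : translq F 𝔟 𝔮) : F) :=
            (Equiv.sum_comp (Equiv.addRight y₀) (fun x =>
              ch ξ ((Quotient.out x : translq F 𝔟 𝔮) : F))).symm
        _ = S * ch ξ x₀ := by
            rw [hS, Finset.sum_mul]
            exact Finset.sum_congr rfl fun x _ => h2 x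
    have h6 : S * (ch ξ x₀ - 1) = 0 := by linear_combination -h5
    rcases mul_eq_zero.1 h6 with h7 | h7
    · exact h7
    · exact absurd (sub_eq_zero.1 h7) hχ

theorem avg_fser [NumberField.IsTotallyReal F] {𝔟 𝔮 : Ideal (𝓞 F)} (hb : 𝔟 ≠ ⊥) (hq : 𝔮 ≠ ⊥)
    {u : F → ℂ} (hu : Abs F (Idx F 𝔟) u) {z : (F →+* ℝ) → ℂ} (hz : z ∈ UH F) :
    avg F (transl F 𝔟) (translq F 𝔟 𝔮) (fser F (Idx F 𝔟) u) z =
      fser F (Idx F 𝔟)
        (fun ξ => if ∀ x ∈ 𝔟, ∃ y ∈ 𝔮, ξ * (x : F) = (y : F) then u ξ else 0) z := by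
  have := finite_quot (F := F) hb hq
  have : Fintype (translq F 𝔟 𝔮 ⧸ (transl F 𝔟).addSubgroupOf (translq F 𝔟 𝔮)) :=
    Fintype.ofFinite _
  have hn : ((Nat.card (translq F 𝔟 𝔮 ⧸ (transl F 𝔟).addSubgroupOf (translq F 𝔟 𝔮)) : ℕ) : ℂ)
      ≠ 0 := by
    exact_mod_cast Nat.card_pos.ne'
  unfold avg
  rw [finsum_eq_sum_of_fintype]
  unfold fser
  rw [← Summable.tsum_finsetSum (fun x _ => summable_fser hu (shift_mem _ hz)), ← tsum_mul_left]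
  refine tsum_congr fun ξ => ?_
  have h1 : ∑ x : translq F 𝔟 𝔮 ⧸ (transl F 𝔟).addSubgroupOf (translq F 𝔟 𝔮),
      u ξ * expo F ξ (shift F ((Quotient.out x : translq F 𝔟 𝔮) : F) z) =
      u ξ * expo F ξ z * ∑ x : translq F 𝔟 𝔮 ⧸ (transl F 𝔟).addSubgroupOf (translq F 𝔟 𝔮),
        ch (ξ : F) ((Quotient.out x : translq F 𝔟 𝔮) : F) := by
    rw [Finset.mul_sum]
    refine Finset.sum_congr rfl fun x _ => ?_
    rw [expo_shift, ← mul_assoc]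
    rfl
  rw [h1, sum_ch hb hq ξ.2]
  beta_reduce
  by_cases h : ∀ x ∈ 𝔟, ∃ y ∈ 𝔮, (ξ : F) * (x : F) = (y : F)
  · rw [if_pos h, if_pos h]
    field_simp
  · rw [if_neg h, if_neg h]
    simp

end Pool.Agent.Helper93.DR
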