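import Pool.Agent.Helper93.DR.PSum
import Pool.Agent.Helper93.DR.Orth

/-!
# Depletion
-/

open scoped NumberField Classical

namespace Pool.Agent.Helper93.DR

variable {F : Type*} [Field F] [NumberField F]

private lemma dep_gam_mono {T : AddSubgroup F} {N N' : ℕ} (hd : N ∣ N') {a b c d : F}
    (h : Gam F T N' a b c d) : Gam F T N a b c d := by
  obtain ⟨k, rfl⟩ := hd
  obtain ⟨ha, hb, hc, ⟨y, hy⟩, hu⟩ := h
  refine ⟨ha, hb, fun x hx => ?_, ⟨(k : 𝓞 F) * y, ?_⟩, hu⟩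
  · obtain ⟨y', hy'⟩ := hc x hx
    refine ⟨(k : 𝓞 F) * y', ?_⟩
    rw [hy']
    push_cast
    ring
  · rw [hy]
    push_cast
    ring

private lemma dep_gam_det {T : AddSubgroup F} {N : ℕ} {a b c d : F}
    (h : Gam F T N a b c d) : TotPos F (a * d - b * c) := by
  obtain ⟨-, -, -, -, u, hu, hpos⟩ := h
  rw [hu]
  exact hpos

theorem form_mono {κ N N' : ℕ} {C : Ideal (𝓞 F) → ℂ} (h : IsForm F κ N C) (hd : N ∣ N') :
    IsForm F κ N' C := by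
  intro 𝔟 hb
  obtain ⟨h1, h2, h3⟩ := h 𝔟 hb
  exact ⟨h1, fun a b c d hG z hz => h2 a b c d (dep_gam_mono hd hG) z hz, h3⟩

private lemma dep_qser_sub {C D : Ideal (𝓞 F) → ℂ} {𝔟 : Ideal (𝓞 F)}
    (hC : Abs F (Idx F 𝔟) (fun ξ => C (scale F ξ 𝔟)))
    (hD : Abs F (Idx F 𝔟) (fun ξ => D (scale F ξ 𝔟))) {z : (F →+* ℝ) → ℂ} (hz : z ∈ UH F) :
    qser F (fun 𝔫 => C 𝔫 - D 𝔫) 𝔟 z = qser F C 𝔟 z - qser F D 𝔟 z := by
  unfold qser
  rw [← Summable.tsum_sub (summable_fser hC hz) (summable_fser hD hz)]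
  refine tsum_congr fun ξ => ?_
  rw [sub_mul]

theorem form_sub {κ N : ℕ} {C D : Ideal (𝓞 F) → ℂ} (h : IsForm F κ N C) (h' : IsForm F κ N D) :
    IsForm F κ N (fun 𝔫 => C 𝔫 - D 𝔫) := by
  intro 𝔟 hb
  obtain ⟨h1, h2, h3⟩ := h 𝔟 hb
  obtain ⟨h1', h2', h3'⟩ := h' 𝔟 hb
  refine ⟨?_, ?_, ?_⟩
  · intro y hy
    refine Summable.of_nonneg_of_le (fun ξ => by positivity) (fun ξ => ?_)
      ((h1 y hy).add (h1' y hy))
    rw [← add_mul]
    exact mul_le_mul_of_nonneg_right (norm_sub_le _ _) (Real.exp_nonneg _)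
  · intro a b c d hG z hz
    rw [dep_qser_sub h1 h1' (mob_mem (dep_gam_det hG) hz), dep_qser_sub h1 h1' hz,
      h2 a b c d hG z hz, h2' a b c d hG z hz]
    ring
  · obtain ⟨B, hB⟩ := h3
    obtain ⟨B', hB'⟩ := h3'
    refine ⟨B + B', fun z hz => ?_⟩
    have hP : 0 ≤ (∏ τ : F →+* ℝ, (z τ).im) ^ ((κ : ℝ) / 2) :=
      Real.rpow_nonneg (Finset.prod_nonneg fun τ _ => (hz τ).le) _
    rw [dep_qser_sub h1 h1' hz]
    refine (mul_le_mul_of_nonneg_right (norm_sub_le _ _) hP).trans ?_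
    rw [add_mul]
    exact add_le_add (hB z hz) (hB' z hz)

/-- The coefficients at the multiples of `𝔮`. -/
theorem form_dvd [NumberField.IsTotallyReal F] {κ N m : ℕ} (hN : N ≠ 0) (hm : m ≠ 0)
    {𝔮 : Ideal (𝓞 F)} (hq : 𝔮 ≠ ⊥) (hmq : (m : 𝓞 F) ∈ 𝔮) {C : Ideal (𝓞 F) → ℂ}
    (h : IsForm F κ N C) : IsForm F κ (N * m ^ 2) (fun 𝔫 => if 𝔫 ≤ 𝔮 then C 𝔫 else 0) := by
  intro 𝔟 hb
  obtain ⟨h1, h2, h3⟩ := h 𝔟 hb
  have := finite_quot hb hq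
  have hmT : ∀ x ∈ translq F 𝔟 𝔮, (m : F) * x ∈ transl F 𝔟 := by
    intro x hx
    have h4 := hx _ hmq
    simpa using h4
  have key : ∀ z ∈ UH F, qser F (fun 𝔫 => if 𝔫 ≤ 𝔮 then C 𝔫 else 0) 𝔟 z =
      avg F (transl F 𝔟) (translq F 𝔟 𝔮) (qser F C 𝔟) z := by
    intro z hz
    have h4 := avg_fser (u := fun ξ => C (scale F ξ 𝔟)) hb hq h1 hz
    have h5 : fser F (Idx F 𝔟) (fun ξ => C (scale F ξ 𝔟)) = qser F C 𝔟 := rfl
    rw [h5] at h4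
    rw [h4]
    unfold qser fser
    refine tsum_congr fun ξ => ?_
    congr 1
    beta_reduce
    by_cases h6 : scale F ξ 𝔟 ≤ 𝔮
    · rw [if_pos h6, if_pos ((scale_le_iff ξ.2).1 h6)]
    · rw [if_neg h6, if_neg (fun h7 => h6 ((scale_le_iff ξ.2).2 h7))]
  refine ⟨?_, ?_, ?_⟩
  · intro y hy
    refine Summable.of_nonneg_of_le (fun ξ => by positivity) (fun ξ => ?_) (h1 y hy)
    refine mul_le_mul_of_nonneg_right ?_ (Real.exp_nonneg _)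
    beta_reduce
    split_ifs
    · exact le_rfl
    · rw [norm_zero]
      exact norm_nonneg _
  · have hL := law_avg hN hm (transl_le 𝔟 𝔮) (transl_stable 𝔟) (translq_stable 𝔟 𝔮) hmT h2
    intro a b c d hG z hz
    rw [key _ (mob_mem (dep_gam_det hG) hz), key z hz]
    refine hL a b c d ?_ z hz
    obtain ⟨ha, hbT, hc, ⟨yd, hd⟩, hu⟩ := hG
    have hmF : (m : F) ≠ 0 := by exact_mod_cast hm
    refine ⟨ha, transl_le 𝔟 𝔮 hbT, fun x hx => ?_, ⟨(m : 𝓞 F) * yd, ?_⟩, hu⟩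
    · obtain ⟨y, hy⟩ := hc _ (hmT x hx)
      refine ⟨y, ?_⟩
      have h6 : (m : F) * (c * x) = (m : F) * (((N * m : ℕ) : F) * (y : F)) := by
        rw [show (m : F) * (c * x) = c * ((m : F) * x) by ring, hy]
        push_cast
        ring
      exact mul_left_cancel₀ hmF h6
    · rw [hd]
      push_cast
      ring
  · obtain ⟨B, hB'⟩ := bdd_avg (T := transl F 𝔟) (T₁ := translq F 𝔟 𝔮) h3
    refine ⟨B, fun z hz => ?_⟩
    rw [key z hz]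
    exact hB' z hz

private lemma dep_finset [NumberField.IsTotallyReal F] {κ N M : ℕ} (hN : N ≠ 0) (hM : M ≠ 0)
    {C : Ideal (𝓞 F) → ℂ} (h : IsForm F κ N C) (S : Finset (Ideal (𝓞 F)))
    (hS : ∀ v ∈ S, (M : 𝓞 F) ∈ v) :
    ∃ N' : ℕ, N' ≠ 0 ∧ IsForm F κ N' (fun 𝔫 => if ∃ v ∈ S, 𝔫 ≤ v then 0 else C 𝔫) := by
  induction S using Finset.induction_on with
  | empty =>
    refine ⟨N, hN, ?_⟩
    have e : (fun 𝔫 => if ∃ v ∈ (∅ : Finset (Ideal (𝓞 F))), 𝔫 ≤ v then 0 else C 𝔫) = C := by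
      funext 𝔫
      simp
    rw [e]
    exact h
  | insert v S _ ih =>
    obtain ⟨N', hN', hD⟩ := ih (fun w hw => hS w (Finset.mem_insert_of_mem hw))
    have hMv : (M : 𝓞 F) ∈ v := hS v (Finset.mem_insert_self _ _)
    have hv : v ≠ ⊥ := by
      rintro rfl
      rw [Ideal.mem_bot] at hMv
      exact hM (by exact_mod_cast hMv)
    have h1 := form_dvd hN' hM hv hMv hD
    have h2 := form_sub (form_mono hD (Dvd.intro (M ^ 2) rfl)) h1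
    refine ⟨N' * M ^ 2, mul_ne_zero hN' (pow_ne_zero 2 hM), ?_⟩
    have e : (fun 𝔫 => if ∃ w ∈ insert v S, 𝔫 ≤ w then 0 else C 𝔫) =
        fun 𝔫 => (if ∃ w ∈ S, 𝔫 ≤ w then 0 else C 𝔫) -
          (if 𝔫 ≤ v then (if ∃ w ∈ S, 𝔫 ≤ w then 0 else C 𝔫) else 0) := by
      funext 𝔫
      by_cases h3 : 𝔫 ≤ v
      · rw [if_pos h3, sub_self, if_pos ⟨v, Finset.mem_insert_self _ _, h3⟩]
      · rw [if_neg h3, sub_zero]
        have h4 : (∃ w ∈ insert v S, 𝔫 ≤ w) ↔ ∃ w ∈ S, 𝔫 ≤ w := by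
          constructor
          · rintro ⟨w, hw, h5⟩
            rcases Finset.mem_insert.1 hw with rfl | hw
            · exact absurd h5 h3
            · exact ⟨w, hw, h5⟩
          · rintro ⟨w, hw, h5⟩
            exact ⟨w, Finset.mem_insert_of_mem hw, h5⟩
        simp only [h4]
    rw [e]
    exact h2

/-- Depletion at `M`. -/
theorem exists_deplete [NumberField.IsTotallyReal F] {κ N M : ℕ} (hN : N ≠ 0) (hM : M ≠ 0)
    {C : Ideal (𝓞 F) → ℂ} (h : IsForm F κ N C) :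
    ∃ N' : ℕ, N' ≠ 0 ∧ IsForm F κ N' (fun 𝔫 =>
      if ∃ v : Ideal (𝓞 F), v.IsMaximal ∧ (M : 𝓞 F) ∈ v ∧ 𝔫 ≤ v then 0 else C 𝔫) := by
  have hM' : Ideal.span {(M : 𝓞 F)} ≠ ⊥ := by
    rw [Ne, Ideal.span_singleton_eq_bot]
    exact_mod_cast hM
  have hfin : {v : Ideal (𝓞 F) | v.IsMaximal ∧ (M : 𝓞 F) ∈ v}.Finite := by
    have h1 : {v : Ideal (𝓞 F) | Ideal.span {(M : 𝓞 F)} ≤ v}.Finite := by
      have : Finite (𝓞 F ⧸ Ideal.span {(M : 𝓞 F)}) := Ideal.finiteQuotientOfFreeOfNeBot _ hM'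
      have h2 : Function.Injective (fun v : {v : Ideal (𝓞 F) | Ideal.span {(M : 𝓞 F)} ≤ v} =>
          Ideal.map (Ideal.Quotient.mk (Ideal.span {(M : 𝓞 F)})) (v : Ideal (𝓞 F))) := by
        rintro ⟨v, hv⟩ ⟨w, hw⟩ hvw
        have h3 := congrArg (Ideal.comap (Ideal.Quotient.mk (Ideal.span {(M : 𝓞 F)}))) hvw
        simp only [Ideal.comap_map_of_surjective _ Ideal.Quotient.mk_surjective,
          ← RingHom.ker_eq_comap_bot, Ideal.mk_ker] at h3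
        rw [sup_eq_left.2 hv, sup_eq_left.2 hw] at h3
        exact Subtype.ext h3
      exact Set.finite_coe_iff.1 (Finite.of_injective _ h2)
    exact h1.subset (fun v hv => (Ideal.span_singleton_le_iff_mem _).2 hv.2)
  obtain ⟨N', hN', hD⟩ := dep_finset hN hM h hfin.toFinset
    (fun v hv => ((hfin.mem_toFinset).1 hv).2)
  refine ⟨N', hN', ?_⟩
  have e : (fun 𝔫 => if ∃ v : Ideal (𝓞 F), v.IsMaximal ∧ (M : 𝓞 F) ∈ v ∧ 𝔫 ≤ v then 0
      else C 𝔫) = fun 𝔫 => if ∃ v ∈ hfin.toFinset, 𝔫 ≤ v then 0 else C 𝔫 := by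
    funext 𝔫
    have h4 : (∃ v : Ideal (𝓞 F), v.IsMaximal ∧ (M : 𝓞 F) ∈ v ∧ 𝔫 ≤ v) ↔
        ∃ v ∈ hfin.toFinset, 𝔫 ≤ v := by
      constructor
      · rintro ⟨v, h5, h6, h7⟩
        exact ⟨v, (hfin.mem_toFinset).2 ⟨h5, h6⟩, h7⟩
      · rintro ⟨v, h5, h7⟩
        have h6 := (hfin.mem_toFinset).1 h5
        exact ⟨v, h6.1, h6.2, h7⟩
    simp only [h4]
  rw [e]
  exact hD

end Pool.Agent.Helper93.DR
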