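import Pool.Agent.Helper93.DR.Inv
import Pool.Agent.Helper93.DR.Dep

/-!
# Inflation
-/

open scoped NumberField Pointwise Classical

namespace Pool.Agent.Helper93.DR

/-- At an unramified place a Frobenius element lifts to a Frobenius element of a larger Galois
extension. -/
private theorem lift_frob {F L L' : Type*} [Field F] [NumberField F] [Field L]
    [NumberField L] [Field L'] [NumberField L'] [Algebra F L] [Algebra F L'] [Algebra L L']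
    [IsScalarTower F L L'] [IsGalois F L] [IsGalois F L'] {v : Ideal (𝓞 F)}
    {s : L ≃ₐ[F] L} {Q : Ideal (𝓞 L)} (hs : WS.IsFrob F s Q v)
    (hunr : ∀ τ : L ≃ₐ[F] L, (∀ x : 𝓞 L, τ • x - x ∈ Q) → τ = 1) :
    ∃ (s' : L' ≃ₐ[F] L') (Q' : Ideal (𝓞 L')), WS.IsFrob F s' Q' v ∧
      AlgEquiv.restrictNormalHom L s' = s := by
  obtain ⟨hQ, hc, hf⟩ := hs
  have hQp : Q.IsPrime := hQ.isPrime
  obtain ⟨Q', hQ1, hQ2⟩ := Ideal.exists_maximal_ideal_liesOver_of_isIntegral (S := 𝓞 L') Q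
  have hQ3 : Q'.IsMaximal := hQ1
  have hQ4 : Q'.IsPrime := hQ3.isPrime
  have hQ5 : Q'.comap (algebraMap (𝓞 L) (𝓞 L')) = Q := hQ2.over.symm
  have hQ6 : Q'.comap (algebraMap (𝓞 F) (𝓞 L')) = v := by
    rw [IsScalarTower.algebraMap_eq (𝓞 F) (𝓞 L) (𝓞 L'), ← Ideal.comap_comap, hQ5, hc]
  have h0 : Q' ≠ ⊥ := by
    intro h0
    rw [h0] at hQ3
    exact NumberField.RingOfIntegers.not_isField L' (Ring.isField_iff_maximal_bot.mpr hQ3)
  have hfin : Finite (𝓞 L' ⧸ Q') := Ideal.finiteQuotientOfFreeOfNeBot Q' h0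
  obtain ⟨σ, hσ⟩ := IsArithFrobAt.exists_of_isInvariant (𝓞 F) (L' ≃ₐ[F] L') Q'
  have hσ' : ∀ x : 𝓞 L', σ • x - x ^ Nat.card (𝓞 F ⧸ v) ∈ Q' := by
    intro x
    have h1 := hσ x
    have h2 : Q'.under (𝓞 F) = v := hQ6
    rw [h2] at h1
    exact h1
  refine ⟨σ, Q', ⟨hQ3, hQ6, hσ'⟩, ?_⟩
  set t : L ≃ₐ[F] L := AlgEquiv.restrictNormalHom L σ with ht
  have hcomm : ∀ x : 𝓞 L, algebraMap (𝓞 L) (𝓞 L') (t • x) = σ • algebraMap (𝓞 L) (𝓞 L') x := by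
    intro x
    apply NumberField.RingOfIntegers.ext
    exact AlgEquiv.restrictNormal_commutes σ L (x : L)
  have hft : ∀ x : 𝓞 L, t • x - x ^ Nat.card (𝓞 F ⧸ v) ∈ Q := by
    intro x
    rw [← hQ5, Ideal.mem_comap, map_sub, map_pow, hcomm]
    exact hσ' _
  have h2 : ∀ x : 𝓞 L, (s * t⁻¹) • x - x ∈ Q := by
    intro x
    have h3 := hf (t⁻¹ • x)
    have h4 := hft (t⁻¹ • x)
    have h5 := Q.sub_mem h3 h4
    rw [sub_sub_sub_cancel_right, smul_smul, smul_smul, mul_inv_cancel, one_smul] at h5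
    exact h5
  have h3 := hunr _ h2
  rw [mul_inv_eq_one] at h3
  exact h3.symm

/-- A representation is modular if its inflation to a larger Galois extension is. -/
theorem modular_of_inflation {k F L L' : Type*} [Field k] [Field F] [NumberField F] [Field L]
    [NumberField L] [Field L'] [NumberField L'] [Algebra F L] [Algebra F L'] [Algebra L L']
    [IsScalarTower F L L'] [IsGalois F L] [IsGalois F L'] [NumberField.IsTotallyReal F]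
    (ρ : (L ≃ₐ[F] L) →* Matrix.GeneralLinearGroup (Fin 2) k) {κ : ℕ}
    (h : Modular F κ (ρ.comp (AlgEquiv.restrictNormalHom L : (L' ≃ₐ[F] L') →* (L ≃ₐ[F] L)))) :
    Modular F κ ρ := by
  obtain ⟨M, N, C, φ, hM, hN, hform, heig⟩ := h
  obtain ⟨M₀, hM₀, hunr⟩ := exists_unramified F L
  have hM₁ : M * M₀ ≠ 0 := mul_ne_zero hM hM₀
  obtain ⟨N', hN', hform'⟩ := exists_deplete (F := F) (M := M * M₀) hN hM₁ hform
  have heig' := eigen_deplete heig hM₁ (dvd_mul_right M M₀)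
  set C₁ : Ideal (𝓞 F) → integralClosure ℤ ℂ := fun 𝔫 =>
    if ∃ v : Ideal (𝓞 F), v.IsMaximal ∧ ((M * M₀ : ℕ) : 𝓞 F) ∈ v ∧ 𝔫 ≤ v then 0 else C 𝔫
    with hC₁
  have hform₁ : IsForm F κ N' (fun 𝔫 => (C₁ 𝔫 : ℂ)) := by
    have he : (fun 𝔫 => (C₁ 𝔫 : ℂ)) = (fun 𝔫 =>
        if ∃ v : Ideal (𝓞 F), v.IsMaximal ∧ ((M * M₀ : ℕ) : 𝓞 F) ∈ v ∧ 𝔫 ≤ v then 0
          else (C 𝔫 : ℂ)) := by
      funext 𝔫
      rw [hC₁]
      by_cases hc : ∃ v : Ideal (𝓞 F), v.IsMaximal ∧ ((M * M₀ : ℕ) : 𝓞 F) ∈ v ∧ 𝔫 ≤ v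
      · simp only [if_pos hc]; rfl
      · simp only [if_neg hc]
    rw [he]
    exact hform'
  have heig₁ : IsEigen F (ρ.comp
      (AlgEquiv.restrictNormalHom L : (L' ≃ₐ[F] L') →* (L ≃ₐ[F] L))) (M * M₀)
      (fun 𝔫 => φ (C₁ 𝔫)) := by
    have he : (fun 𝔫 => φ (C₁ 𝔫)) = (fun 𝔫 =>
        if ∃ v : Ideal (𝓞 F), v.IsMaximal ∧ ((M * M₀ : ℕ) : 𝓞 F) ∈ v ∧ 𝔫 ≤ v then 0
          else φ (C 𝔫)) := by
      funext 𝔫
      rw [hC₁]
      by_cases hc : ∃ v : Ideal (𝓞 F), v.IsMaximal ∧ ((M * M₀ : ℕ) : 𝓞 F) ∈ v ∧ 𝔫 ≤ v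
      · simp only [if_pos hc, map_zero]
      · simp only [if_neg hc]
    rw [he]
    exact heig'
  refine ⟨M * M₀, N', C₁, φ, hM₁, hN', hform₁, ?_⟩
  obtain ⟨h1, h2, h3⟩ := heig₁
  refine ⟨h1, h2, ?_⟩
  intro v hv hMv s Q hs 𝔫 hn
  have hMQ : (M₀ : 𝓞 L) ∉ Q := by
    intro h0
    apply hMv
    have h4 : (M₀ : 𝓞 F) ∈ v := by
      rw [← hs.2.1, Ideal.mem_comap, map_natCast]
      exact h0
    rw [Nat.cast_mul]
    exact v.mul_mem_left _ h4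
  obtain ⟨s', Q', hs', hss⟩ := lift_frob (L' := L') hs (hunr Q hs.1 hMQ)
  have h5 := h3 v hv hMv s' Q' hs' 𝔫 hn
  rw [MonoidHom.comp_apply, hss] at h5
  exact h5

end Pool.Agent.Helper93.DR
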