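import Mathlib

/-!
# Extension of invariant irreducible representations from normal subgroups of `p`-power index
-/

namespace Pool.Agent.Helper93.DR

/-- Irreducibility of a 2-dimensional representation: there is no common eigenvector. -/
def Irr {G k : Type*} [Group G] [Field k] (ρ : G →* Matrix.GeneralLinearGroup (Fin 2) k) : Prop :=
  ∀ v : Fin 2 → k, v ≠ 0 → ∃ g : G, ∀ c : k,
    (ρ g : Matrix (Fin 2) (Fin 2) k).mulVec v ≠ c • v

/-- Schur's lemma. -/
theorem irr_scalar {G k : Type*} [Group G] [Field k] [IsAlgClosed k]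
    {ρ : G →* Matrix.GeneralLinearGroup (Fin 2) k} (h : Irr ρ) {B : Matrix (Fin 2) (Fin 2) k}
    (hB : ∀ g : G, B * (ρ g : Matrix (Fin 2) (Fin 2) k) = (ρ g : Matrix (Fin 2) (Fin 2) k) * B) :
    ∃ c : k, B = c • (1 : Matrix (Fin 2) (Fin 2) k) := by
  classical
  obtain ⟨c, hc⟩ := Module.End.exists_eigenvalue (Matrix.toLin' B)
  obtain ⟨v, hv⟩ := hc.exists_hasEigenvector
  have hv0 : v ≠ 0 := hv.2
  have hBv : B.mulVec v = c • v := by
    have := hv.apply_eq_smul
    rwa [Matrix.toLin'_apply] at this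
  obtain ⟨g, hg⟩ := h v hv0
  -- `v` and `ρ g v` are linearly independent and killed by `B - c`
  set w : Fin 2 → k := (ρ g : Matrix (Fin 2) (Fin 2) k).mulVec v with hw
  have hBw : B.mulVec w = c • w := by
    rw [hw, Matrix.mulVec_mulVec, hB g, ← Matrix.mulVec_mulVec, hBv, Matrix.mulVec_smul]
  have hli : LinearIndependent k ![v, w] := by
    rw [LinearIndependent.pair_iff' hv0]
    intro a ha
    exact hg a ha.symm
  have hsp : ⊤ ≤ Submodule.span k (Set.range ![v, w]) := by
    have := hli.span_eq_top_of_card_eq_finrank' (by simp)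
    exact this.ge
  let bs : Module.Basis (Fin 2) k (Fin 2 → k) := Module.Basis.mk hli hsp
  refine ⟨c, ?_⟩
  have h1 : Matrix.toLin' B = Matrix.toLin' (c • (1 : Matrix (Fin 2) (Fin 2) k)) := by
    apply bs.ext
    intro i
    rw [Module.Basis.mk_apply]
    fin_cases i
    · simp only [Fin.zero_eta, Fin.isValue, Matrix.cons_val_zero, Matrix.toLin'_apply]
      rw [hBv, Matrix.smul_mulVec, Matrix.one_mulVec]
    · change Matrix.toLin' B w = Matrix.toLin' (c • (1 : Matrix (Fin 2) (Fin 2) k)) w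
      rw [Matrix.toLin'_apply, Matrix.toLin'_apply, hBw, Matrix.smul_mulVec, Matrix.one_mulVec]
  exact Matrix.toLin'.injective h1

/-- The abstract form. -/
private theorem ext_abs {G H Γ K : Type*} [Group G] [Finite G] [Group H] [Group Γ] [CommGroup K]
    (σ : K →* Γ) (hσ : Function.Injective σ) (hσc : ∀ c A, σ c * A = A * σ c)
    (ι : H →* G) (hι : Function.Injective ι) (hn : ι.range.Normal)
    (hq : Function.Bijective (fun c : K => c ^ Nat.card (G ⧸ ι.range)))
    (ρ' : H →* Γ) (hS : ∀ B : Γ, (∀ h, B * ρ' h = ρ' h * B) → ∃ c, B = σ c)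
    (hinv : ∀ g : G, ∃ A : Γ, ∀ s t : H, ι t = g * ι s * g⁻¹ → ρ' t = A * ρ' s * A⁻¹) :
    ∃! ρ : G →* Γ, ρ.comp ι = ρ' := by
  classical
  have hnorm : ∀ (g : G) (s : H), ∃ t : H, ι t = g * ι s * g⁻¹ := fun g s =>
    hn.conj_mem (ι s) ⟨s, rfl⟩ g
  have huniq : ∀ (g : G) (A A' : Γ),
      (∀ s t : H, ι t = g * ι s * g⁻¹ → ρ' t = A * ρ' s * A⁻¹) →
      (∀ s t : H, ι t = g * ι s * g⁻¹ → ρ' t = A' * ρ' s * A'⁻¹) → ∃ c, A' = σ c * A := by
    intro g A A' h h'
    obtain ⟨c, hc⟩ := hS (A⁻¹ * A') (by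
      intro s
      obtain ⟨t, ht⟩ := hnorm g s
      have h1 := h s t ht
      have h2 := h' s t ht
      rw [h1] at h2
      have h3 : A' * ρ' s = A * ρ' s * A⁻¹ * A' := by rw [h2]; group
      calc A⁻¹ * A' * ρ' s = A⁻¹ * (A' * ρ' s) := by group
        _ = A⁻¹ * (A * ρ' s * A⁻¹ * A') := by rw [h3]
        _ = ρ' s * (A⁻¹ * A') := by group)
    refine ⟨c, ?_⟩
    rw [hσc, ← hc]
    group
  have hP1 : ∀ h s t : H, ι t = ι h * ι s * (ι h)⁻¹ → ρ' t = ρ' h * ρ' s * (ρ' h)⁻¹ := by
    intro h s t ht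
    have : t = h * s * h⁻¹ := hι (by rw [ht, map_mul, map_mul, map_inv])
    rw [this, map_mul, map_mul, map_inv]
  have hPmul : ∀ (g g' : G) (A A' : Γ),
      (∀ s t : H, ι t = g * ι s * g⁻¹ → ρ' t = A * ρ' s * A⁻¹) →
      (∀ s t : H, ι t = g' * ι s * g'⁻¹ → ρ' t = A' * ρ' s * A'⁻¹) →
      ∀ s t : H, ι t = (g * g') * ι s * (g * g')⁻¹ →
        ρ' t = (A * A') * ρ' s * (A * A')⁻¹ := by
    intro g g' A A' h h' s t ht
    obtain ⟨r, hr⟩ := hnorm g' s
    have h1 := h' s r hr
    have h2 := h r t (by rw [ht, hr]; group)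
    rw [h2, h1]
    group
  have := hn
  -- coset representatives
  have hrep : ∀ g : G, ∃ h : H, g = (QuotientGroup.mk (s := ι.range) g).out * ι h := by
    intro g
    obtain ⟨⟨_, h, rfl⟩, hh⟩ := QuotientGroup.mk_out_eq_mul ι.range g
    refine ⟨h⁻¹, ?_⟩
    rw [hh, map_inv]
    group
  choose hh hhs using hrep
  have hA0 : ∀ x : G ⧸ ι.range, ∃ A : Γ,
      (∀ s t : H, ι t = x.out * ι s * x.out⁻¹ → ρ' t = A * ρ' s * A⁻¹) ∧
      ∀ h, x.out = ι h → A = ρ' h := by
    intro x
    by_cases hx : ∃ h, x.out = ι h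
    · obtain ⟨h, hx⟩ := hx
      refine ⟨ρ' h, ?_, ?_⟩
      · intro s t ht
        rw [hx] at ht
        exact hP1 h s t ht
      · intro h' hx'
        rw [hι (hx.symm.trans hx')]
    · obtain ⟨A, hA⟩ := hinv x.out
      exact ⟨A, hA, fun h hx' => absurd ⟨h, hx'⟩ hx⟩
  choose A0 hA0a hA0b using hA0
  set A : G → Γ := fun g => A0 (QuotientGroup.mk g) * ρ' (hh g) with hAdef
  have hA : ∀ g : G, ∀ s t : H, ι t = g * ι s * g⁻¹ → ρ' t = A g * ρ' s * (A g)⁻¹ := by
    intro g s t ht
    refine hPmul _ _ _ _ (hA0a (QuotientGroup.mk g)) (hP1 (hh g)) s t ?_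
    rw [← hhs g]
    exact ht
  have hAι : ∀ h : H, A (ι h) = ρ' h := by
    intro h
    have h1 := hhs (ι h)
    have h2 : (QuotientGroup.mk (s := ι.range) (ι h)).out = ι (h * (hh (ι h))⁻¹) := by
      rw [map_mul, map_inv, eq_mul_inv_iff_mul_eq]
      exact h1.symm
    rw [hAdef]
    simp only
    rw [hA0b _ _ h2, ← map_mul]
    congr 1
    group
  have hAmul : ∀ (g : G) (h : H), A (g * ι h) = A g * ρ' h := by
    intro g h
    have e : (QuotientGroup.mk (g * ι h) : G ⧸ ι.range) = QuotientGroup.mk g :=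
      QuotientGroup.mk_mul_of_mem g ⟨h, rfl⟩
    have h1 := hhs (g * ι h)
    rw [e] at h1
    have h2 : hh (g * ι h) = hh g * h := by
      apply hι
      apply mul_left_cancel (a := (QuotientGroup.mk (s := ι.range) g).out)
      rw [← h1, map_mul, ← mul_assoc, ← hhs g]
    rw [hAdef]
    simp only
    rw [e, h2, map_mul, mul_assoc]
  have hcex : ∀ g g' : G, ∃ c : K, A g * A g' = σ c * A (g * g') := fun g g' =>
    huniq (g * g') _ _ (hA _) (hPmul _ _ _ _ (hA g) (hA g'))
  choose c hc using hcex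
  have cright : ∀ (g g' : G) (h : H), c g (g' * ι h) = c g g' := by
    intro g g' h
    apply hσ
    apply mul_right_cancel (b := A (g * (g' * ι h)))
    rw [← hc, hAmul, ← mul_assoc g g' (ι h), hAmul, ← mul_assoc, hc, mul_assoc]
  have cleft : ∀ (h : H) (x : G), c (ι h) x = 1 := by
    intro h x
    obtain ⟨t, ht⟩ := hnorm x⁻¹ h
    rw [inv_inv] at ht
    have h1 := hA x t h (by rw [ht]; group)
    apply hσ
    rw [map_one]
    apply mul_right_cancel (b := A (ι h * x))
    rw [← hc, one_mul, hAι]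
    have h2 : ι h * x = x * ι t := by rw [ht]; group
    rw [h2, hAmul, h1]
    group
  have ccoc : ∀ g g' x : G, c g g' * c (g * g') x = c g' x * c g (g' * x) := by
    intro g g' x
    apply hσ
    apply mul_right_cancel (b := A (g * g' * x))
    rw [map_mul, map_mul, mul_assoc, ← hc, ← mul_assoc, ← hc, mul_assoc (A g), hc g' x,
      ← mul_assoc, ← hσc, mul_assoc, hc g (g' * x), mul_assoc g g' x, mul_assoc]
  have : Fintype (G ⧸ ι.range) := Fintype.ofFinite _
  set q : ℕ := Nat.card (G ⧸ ι.range) with hqdef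
  set b : G → K := fun g => ∏ x : G ⧸ ι.range, c g x.out with hb
  have hbmul : ∀ g g' : G, c g g' ^ q * b (g * g') = b g * b g' := by
    intro g g'
    have h1 : ∏ x : G ⧸ ι.range, c g (g' * x.out) = b g := by
      rw [hb]
      apply Fintype.prod_equiv (Equiv.mulLeft (QuotientGroup.mk g' : G ⧸ ι.range))
      intro x
      have h2 := hhs (g' * x.out)
      have h3 : (QuotientGroup.mk (g' * x.out) : G ⧸ ι.range) = QuotientGroup.mk g' * x := by
        rw [QuotientGroup.mk_mul]
        congr 1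
        exact Quotient.out_eq' x
      rw [h3] at h2
      rw [h2, cright]
      rfl
    calc c g g' ^ q * b (g * g') = ∏ x : G ⧸ ι.range, (c g g' * c (g * g') x.out) := by
          rw [Finset.prod_mul_distrib, Finset.prod_const, Finset.card_univ, hqdef,
            Nat.card_eq_fintype_card]
      _ = ∏ x : G ⧸ ι.range, (c g' x.out * c g (g' * x.out)) := by
          refine Finset.prod_congr rfl fun x _ => ccoc g g' x.out
      _ = b g' * b g := by rw [Finset.prod_mul_distrib, h1]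
      _ = b g * b g' := mul_comm _ _
  choose root hroot using hq.2
  have hinj : ∀ x y : K, x ^ q = y ^ q → x = y := fun x y h => hq.1 h
  set β : G → K := fun g => root (b g) with hβ
  have hβq : ∀ g, β g ^ q = b g := fun g => hroot (b g)
  have hβmul : ∀ g g' : G, c g g' * β (g * g') = β g * β g' := by
    intro g g'
    apply hinj
    rw [mul_pow, mul_pow, hβq, hβq, hβq, hbmul]
  have hβι : ∀ h : H, β (ι h) = 1 := by
    intro h
    apply hinj
    rw [hβq, one_pow, hb]
    exact Finset.prod_eq_one fun x _ => cleft h _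
  refine ⟨MonoidHom.mk' (fun g => σ (β g)⁻¹ * A g) ?_, ?_, ?_⟩
  · intro g g'
    have h1 : (β (g * g'))⁻¹ = (β g)⁻¹ * (β g')⁻¹ * c g g' := by
      calc (β (g * g'))⁻¹ = (c g g' * β (g * g'))⁻¹ * c g g' := by
            rw [mul_inv, mul_comm (c g g')⁻¹, mul_assoc, inv_mul_cancel, mul_one]
        _ = (β g)⁻¹ * (β g')⁻¹ * c g g' := by rw [hβmul, mul_inv]
    rw [h1, map_mul, map_mul, mul_assoc, ← hc]
    calc σ (β g)⁻¹ * σ (β g')⁻¹ * (A g * A g') = σ (β g)⁻¹ * (σ (β g')⁻¹ * A g) * A g' := by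
          simp only [mul_assoc]
      _ = σ (β g)⁻¹ * (A g * σ (β g')⁻¹) * A g' := by rw [hσc (β g')⁻¹ (A g)]
      _ = σ (β g)⁻¹ * A g * (σ (β g')⁻¹ * A g') := by simp only [mul_assoc]
  · ext h
    simp only [MonoidHom.comp_apply, MonoidHom.mk'_apply]
    rw [hβι, inv_one, map_one, one_mul, hAι]
  · intro ρ2 hρ2
    set ρ1 : G →* Γ := MonoidHom.mk' (fun g => σ (β g)⁻¹ * A g) _ with hρ1
    have hρ1ι : ∀ h, ρ1 (ι h) = ρ' h := by
      intro h
      rw [hρ1, MonoidHom.mk'_apply, hβι, inv_one, map_one, one_mul, hAι]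
    have hρ2ι : ∀ h, ρ2 (ι h) = ρ' h := fun h => by rw [← hρ2]; rfl
    have hPρ : ∀ ρ : G →* Γ, (∀ h, ρ (ι h) = ρ' h) → ∀ g : G, ∀ s t : H,
        ι t = g * ι s * g⁻¹ → ρ' t = ρ g * ρ' s * (ρ g)⁻¹ := by
      intro ρ hρ g s t ht
      rw [← hρ t, ← hρ s, ht, map_mul, map_mul, map_inv]
    apply MonoidHom.ext
    intro g
    obtain ⟨d, hd⟩ := huniq g _ _ (hPρ ρ1 hρ1ι g) (hPρ ρ2 hρ2ι g)
    have hgq : g ^ q ∈ ι.range := by
      rw [← QuotientGroup.eq_one_iff, QuotientGroup.mk_pow, hqdef, pow_card_eq_one']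
    obtain ⟨h, hh'⟩ := hgq
    have hcomm : Commute (σ d) (ρ1 g) := hσc d _
    have h3 : ρ2 (g ^ q) = σ (d ^ q) * ρ1 (g ^ q) := by
      rw [map_pow, hd, hcomm.mul_pow, map_pow, map_pow]
    rw [← hh', hρ2ι, hρ1ι] at h3
    have h4 : σ (d ^ q) = 1 := by
      have := mul_right_cancel ((one_mul (ρ' h)).trans h3)
      exact this.symm
    have h5 : d ^ q = 1 ^ q := by
      rw [one_pow]
      exact hσ (by rw [h4, map_one])
    rw [hd, hinj _ _ h5, map_one, one_mul]

/-- Over an algebraically closed field of characteristic `p` an irreducible representation of a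
normal subgroup `H` of `p`-power index, isomorphic to its conjugates, extends uniquely. The
representation is given on a group `H` with an injective homomorphism `ι` to `G`. -/
theorem extend_rep {p : ℕ} [Fact p.Prime] {k : Type*} [Field k] [CharP k p] [IsAlgClosed k]
    {G H : Type*} [Group G] [Finite G] [Group H] (ι : H →* G) (hι : Function.Injective ι)
    (hn : ι.range.Normal) (hP : IsPGroup p (G ⧸ ι.range))
    {ρ' : H →* Matrix.GeneralLinearGroup (Fin 2) k} (hirr : Irr ρ')
    (hinv : ∀ g : G, ∃ A : Matrix.GeneralLinearGroup (Fin 2) k, ∀ s t : H,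
      ι t = g * ι s * g⁻¹ → ρ' t = A * ρ' s * A⁻¹) :
    ∃! ρ : G →* Matrix.GeneralLinearGroup (Fin 2) k, ρ.comp ι = ρ' := by
  classical
  have hp : p.Prime := Fact.out
  set σ : kˣ →* Matrix.GeneralLinearGroup (Fin 2) k :=
    Units.map ((Matrix.scalar (Fin 2) : k →+* Matrix (Fin 2) (Fin 2) k) : k →* _) with hσ
  have hσv : ∀ c : kˣ, ((σ c : Matrix.GeneralLinearGroup (Fin 2) k) :
      Matrix (Fin 2) (Fin 2) k) = Matrix.scalar (Fin 2) (c : k) := fun c => rfl
  refine ext_abs σ ?_ ?_ ι hι hn ?_ ρ' ?_ hinv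
  · intro c d h
    have h1 := congrArg (fun A : Matrix.GeneralLinearGroup (Fin 2) k =>
      (A : Matrix (Fin 2) (Fin 2) k) 0 0) h
    simp only [hσv, Matrix.scalar_apply, Matrix.diagonal_apply_eq] at h1
    exact Units.ext h1
  · intro c A
    apply Units.ext
    rw [Units.val_mul, Units.val_mul, hσv]
    exact (Matrix.scalar_commute (c : k) (fun r => Commute.all _ _) _)
  · obtain ⟨n, hcard⟩ := (IsPGroup.iff_card (p := p) (G := G ⧸ ι.range)).1 hP
    rw [hcard]
    constructor
    · intro x y hxy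
      have h1 : (x : k) ^ p ^ n = (y : k) ^ p ^ n := by
        have := congrArg (Units.val) hxy
        simpa using this
      apply Units.ext
      have : ExpChar k p := ExpChar.prime hp
      exact iterateFrobenius_inj k p n (by simpa [iterateFrobenius_def] using h1)
    · intro x
      obtain ⟨z, hz⟩ := IsAlgClosed.exists_pow_nat_eq (x : k) (pow_pos hp.pos n)
      have hz0 : z ≠ 0 := by
        rintro rfl
        rw [zero_pow (pow_pos hp.pos n).ne'] at hz
        exact x.ne_zero hz.symm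
      refine ⟨Units.mk0 z hz0, ?_⟩
      apply Units.ext
      simpa using hz
  · intro B hB
    obtain ⟨c, hc⟩ := irr_scalar hirr (B := (B : Matrix (Fin 2) (Fin 2) k)) (by
      intro g
      have := congrArg Units.val (hB g)
      simpa using this)
    have hc0 : c ≠ 0 := by
      rintro rfl
      rw [zero_smul] at hc
      exact B.ne_zero hc
    refine ⟨Units.mk0 c hc0, ?_⟩
    apply Units.ext
    rw [hσv, hc]
    simp [Matrix.smul_one_eq_diagonal]

end Pool.Agent.Helper93.DR
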