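import Pool.Agent.Helper93.DR.Diag

/-!
# The transformation law on the diagonal
-/

open scoped NumberField nonZeroDivisors

namespace Pool.Agent.Helper93.DR

private theorem exists_m (F' : Type*) [Field F'] [NumberField F'] :
    ∃ m₀ : ℕ, m₀ ≠ 0 ∧ FractionalIdeal.spanSingleton (𝓞 F')⁰ (m₀ : F') *
      FractionalIdeal.dual ℤ ℚ (1 : FractionalIdeal (𝓞 F')⁰ F') ≤ 1 := by
  refine ⟨Ideal.absNorm (differentIdeal ℤ (𝓞 F')), ?_, ?_⟩
  · rw [Ne, Ideal.absNorm_eq_zero_iff]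
    exact differentIdeal_ne_bot
  · have h1 := Ideal.absNorm_mem (differentIdeal ℤ (𝓞 F'))
    have h2 : FractionalIdeal.spanSingleton (𝓞 F')⁰
        ((Ideal.absNorm (differentIdeal ℤ (𝓞 F')) : ℕ) : F') ≤
        (FractionalIdeal.dual ℤ ℚ (1 : FractionalIdeal (𝓞 F')⁰ F'))⁻¹ := by
      rw [← coeIdeal_differentIdeal ℤ ℚ F' (𝓞 F'), FractionalIdeal.spanSingleton_le_iff_mem,
        FractionalIdeal.mem_coeIdeal]
      exact ⟨_, h1, by rw [map_natCast]⟩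
    have h3 : FractionalIdeal.dual ℤ ℚ (1 : FractionalIdeal (𝓞 F')⁰ F') ≠ 0 :=
      FractionalIdeal.dual_ne_zero _ _ one_ne_zero
    calc _ ≤ (FractionalIdeal.dual ℤ ℚ (1 : FractionalIdeal (𝓞 F')⁰ F'))⁻¹ *
        FractionalIdeal.dual ℤ ℚ (1 : FractionalIdeal (𝓞 F')⁰ F') := by gcongr
      _ = 1 := inv_mul_cancel₀ h3
      _ ≤ 1 := le_rfl

variable {F F' : Type*} [Field F] [NumberField F] [Field F'] [NumberField F'] [Algebra F F']

private theorem mul_mem_of_transl [NumberField.IsTotallyReal F'] {m₀ : ℕ}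
    (hm : FractionalIdeal.spanSingleton (𝓞 F')⁰ (m₀ : F') *
      FractionalIdeal.dual ℤ ℚ (1 : FractionalIdeal (𝓞 F')⁰ F') ≤ 1)
    {𝔟' : Ideal (𝓞 F')} (hb : 𝔟' ≠ ⊥) {x : F'} (hx : x ∈ transl F' 𝔟') :
    ∃ y ∈ 𝔟', (m₀ : F') * x = (y : F') := by
  set J : FractionalIdeal (𝓞 F')⁰ F' := (𝔟' : FractionalIdeal (𝓞 F')⁰ F') with hJ
  have hJ0 : J ≠ 0 := FractionalIdeal.coeIdeal_ne_zero.2 hb
  have h1 : x ∈ FractionalIdeal.dual ℤ ℚ J⁻¹ := by
    rw [FractionalIdeal.mem_dual (inv_ne_zero hJ0)]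
    intro a ha
    obtain ⟨m, hm⟩ := hx a (by
      intro y hy
      have h2 := (FractionalIdeal.mem_inv_iff hJ0).1 ha (y : F')
        (FractionalIdeal.mem_coeIdeal_of_mem _ hy)
      obtain ⟨m, hm⟩ := (FractionalIdeal.mem_one_iff _).1 h2
      exact ⟨m, hm.symm⟩)
    rw [sum_eq_trace] at hm
    refine ⟨m, ?_⟩
    rw [Algebra.traceForm_apply, mul_comm x a]
    have h3 : ((Algebra.trace ℚ F' (a * x) : ℚ) : ℝ) = ((m : ℚ) : ℝ) := by
      rw [hm]; norm_cast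
    have h4 := Rat.cast_injective h3
    rw [h4]
    simp
  rw [FractionalIdeal.dual_inv] at h1
  have h2 : (m₀ : F') * x ∈ FractionalIdeal.spanSingleton (𝓞 F')⁰ (m₀ : F') *
      (FractionalIdeal.dual ℤ ℚ (1 : FractionalIdeal (𝓞 F')⁰ F') * J) :=
    FractionalIdeal.mul_mem_mul (FractionalIdeal.mem_spanSingleton_self _ _) h1
  have h3 : FractionalIdeal.spanSingleton (𝓞 F')⁰ (m₀ : F') *
      (FractionalIdeal.dual ℤ ℚ (1 : FractionalIdeal (𝓞 F')⁰ F') * J) ≤ J := by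
    rw [← mul_assoc]
    calc _ ≤ 1 * J := by gcongr
      _ = J := one_mul _
  obtain ⟨y, hy, e⟩ := (FractionalIdeal.mem_coeIdeal _).1 (h3 h2)
  exact ⟨y, hy, e.symm⟩

omit [NumberField F] [NumberField F'] in
/-- Integers of the base are integers above. -/
private theorem coe_map (y : 𝓞 F) :
    algebraMap F F' (y : F) = ((algebraMap (𝓞 F) (𝓞 F') y : 𝓞 F') : F') := rfl

private theorem int_trace {x : F'} (h : ∃ m : 𝓞 F', x = m) :
    ∃ m : 𝓞 F, Algebra.trace F F' x = m := by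
  obtain ⟨m, rfl⟩ := h
  have h1 : IsIntegral ℤ (Algebra.trace F F' (m : F')) :=
    Algebra.isIntegral_trace (NumberField.RingOfIntegers.isIntegral_coe m)
  exact ⟨⟨_, h1⟩, rfl⟩

private theorem transl_map [NumberField.IsTotallyReal F] [NumberField.IsTotallyReal F']
    {𝔟 : Ideal (𝓞 F)} {b : F} (hb : b ∈ transl F 𝔟) :
    algebraMap F F' b ∈ transl F' (extI F F' 𝔟) := by
  intro ξ hξ
  obtain ⟨m, hm⟩ := hb (Algebra.trace F F' ξ) (by
    intro y hy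
    obtain ⟨m, hm⟩ := hξ (algebraMap (𝓞 F) (𝓞 F') y) (Ideal.mem_map_of_mem _ hy)
    obtain ⟨n, hn⟩ := int_trace (F := F) ⟨m, hm⟩
    refine ⟨n, ?_⟩
    rw [← hn, ← coe_map, mul_comm ξ, ← Algebra.smul_def, map_smul, smul_eq_mul, mul_comm])
  refine ⟨m, ?_⟩
  rw [← hm, sum_eq_trace, sum_eq_trace, ← Algebra.trace_trace (S := F) (T := F')]
  congr 2
  rw [mul_comm ξ, ← Algebra.smul_def, map_smul, smul_eq_mul, mul_comm]

private theorem mem_transl_of_mem [NumberField.IsTotallyReal F] {𝔟 : Ideal (𝓞 F)} {y : 𝓞 F}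
    (hy : y ∈ 𝔟) : (y : F) ∈ transl F 𝔟 := by
  intro ξ hξ
  obtain ⟨m, hm⟩ := hξ y hy
  rw [hm]
  have h1 : IsIntegral ℤ (Algebra.trace ℚ F (m : F)) :=
    Algebra.isIntegral_trace (NumberField.RingOfIntegers.isIntegral_coe m)
  obtain ⟨n, hn⟩ := IsIntegrallyClosed.isIntegral_iff.1 h1
  refine ⟨n, ?_⟩
  rw [sum_eq_trace, ← hn]
  simp

omit [NumberField F] [NumberField F'] in
private theorem lower {m₀ N : ℕ} {𝔟 : Ideal (𝓞 F)} {c : F}
    (hc : ∀ y ∈ 𝔟, ∃ z : 𝓞 F, c * (y : F) = ((N * m₀ : ℕ) : F) * z) {y : 𝓞 F'}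
    (hy : y ∈ extI F F' 𝔟) :
    ∃ z : 𝓞 F', algebraMap F F' c * (y : F') = ((N * m₀ : ℕ) : F') * z := by
  refine Submodule.span_induction (p := fun (y : 𝓞 F') _ => ∃ z : 𝓞 F', algebraMap F F' c *
    (y : F') = ((N * m₀ : ℕ) : F') * z) ?_ ?_ ?_ ?_ hy
  · rintro _ ⟨x, hx, rfl⟩
    obtain ⟨z, hz⟩ := hc x hx
    refine ⟨algebraMap (𝓞 F) (𝓞 F') z, ?_⟩
    rw [← coe_map, ← coe_map, ← map_mul, hz, map_mul, map_natCast]
  · exact ⟨0, by simp⟩
  · rintro x x' _ _ ⟨z, hz⟩ ⟨z', hz'⟩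
    refine ⟨z + z', ?_⟩
    push_cast at hz hz' ⊢
    rw [mul_add, mul_add, hz, hz']
  · rintro r x _ ⟨z, hz⟩
    refine ⟨r * z, ?_⟩
    rw [smul_eq_mul]
    push_cast at hz ⊢
    rw [mul_left_comm, hz]
    ring

/-- There is a uniform level for the restriction to the diagonal. -/
theorem diag_law (F F' : Type*) [Field F] [NumberField F] [Field F'] [NumberField F']
    [Algebra F F'] [NumberField.IsTotallyReal F'] :
    ∃ m₀ : ℕ, m₀ ≠ 0 ∧ ∀ (κ N : ℕ) (𝔟 : Ideal (𝓞 F)) (f : ((F' →+* ℝ) → ℂ) → ℂ), N ≠ 0 →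
      𝔟 ≠ ⊥ → Law F' κ (transl F' (extI F F' 𝔟)) N f →
        Law F (κ * Module.finrank F F') (transl F 𝔟) (N * m₀) (fun z => f (diag F F' z)) := by
  have : NumberField.IsTotallyReal F := totallyReal_base (F' := F')
  obtain ⟨m₀, hm0, hm⟩ := exists_m F'
  refine ⟨m₀, hm0, fun κ N 𝔟 f _ hb h a b c d hg z hz => ?_⟩
  obtain ⟨⟨ya, ha⟩, hbT, hcT, ⟨yd, hd⟩, u, hu, hup⟩ := hg
  have hb' : extI F F' 𝔟 ≠ ⊥ := by
    rw [Ne, Ideal.map_eq_bot_iff_of_injective (FaithfulSMul.algebraMap_injective _ _)]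
    exact hb
  have hm0' : (m₀ : F') ≠ 0 := Nat.cast_ne_zero.2 hm0
  have hG : Gam F' (transl F' (extI F F' 𝔟)) N (algebraMap F F' a) (algebraMap F F' b)
      (algebraMap F F' c) (algebraMap F F' d) := by
    refine ⟨⟨algebraMap (𝓞 F) (𝓞 F') ya, by rw [ha, coe_map]⟩, transl_map hbT, ?_, ?_, ?_⟩
    · intro x hx
      obtain ⟨y, hy, e⟩ := mul_mem_of_transl hm hb' hx
      obtain ⟨w, hw⟩ := lower (N := N) (m₀ := m₀) (fun y hy => hcT (y : F)
        (mem_transl_of_mem hy)) hy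
      refine ⟨w, ?_⟩
      rw [← e] at hw
      apply mul_left_cancel₀ hm0'
      push_cast at hw
      rw [← mul_assoc, mul_comm (m₀ : F') (algebraMap F F' c), mul_assoc, hw]
      ring
    · refine ⟨(m₀ : 𝓞 F') * algebraMap (𝓞 F) (𝓞 F') yd, ?_⟩
      rw [hd, map_add, map_one, map_mul, map_natCast, coe_map]
      push_cast
      ring
    · refine ⟨Units.map (algebraMap (𝓞 F) (𝓞 F')).toMonoidHom u, ?_, ?_⟩
      · rw [← map_mul, ← map_mul, ← map_sub, hu]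
        rfl
      · have h1 := totPos_map (F' := F') hup
        exact h1
  have h1 := h _ _ _ _ hG (diag F F' z) (diag_mem hz)
  rw [diag_mob, aut_diag, ← pow_mul, mul_comm (Module.finrank F F')] at h1
  exact h1

end Pool.Agent.Helper93.DR
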