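import Pool.Agent.Helper93.DR.Orth

/-!
# Division of the variable by `q`
-/

open scoped NumberField Classical

namespace Pool.Agent.Helper93.DR

variable {F : Type*} [Field F] [NumberField F]

theorem law_divN {κ N q : ℕ} (hN : N ≠ 0) (hq : q ≠ 0) {𝔟 : Ideal (𝓞 F)}
    {f : ((F →+* ℝ) → ℂ) → ℂ}
    (h : Law F κ (translq F 𝔟 (Ideal.span {(q : 𝓞 F)})) (N * q) f) :
    Law F κ (transl F 𝔟) (N * q) (fun z => f (divN F q z)) := by
  have hqF : (q : F) ≠ 0 := Nat.cast_ne_zero.2 hq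
  intro a b c d hG z hz
  obtain ⟨ha, hb, hc, hd, u, hu, hpos⟩ := hG
  have hG' : Gam F (translq F 𝔟 (Ideal.span {(q : 𝓞 F)})) (N * q) a (b / (q : F))
      ((q : F) * c) d := by
    refine ⟨ha, ?_, ?_, hd, u, ?_, hpos⟩
    · intro y hy
      obtain ⟨w, rfl⟩ := Ideal.mem_span_singleton.1 hy
      have e : (((q : 𝓞 F) * w : 𝓞 F) : F) * (b / (q : F)) = (w : F) * b := by
        push_cast
        field_simp
      rw [e]
      exact transl_stable 𝔟 w b hb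
    · intro x hx
      have h1 := hx (q : 𝓞 F) (Ideal.mem_span_singleton_self _)
      obtain ⟨y, hy⟩ := hc _ h1
      refine ⟨y, ?_⟩
      rw [← hy]
      push_cast
      ring
    · rw [← hu]
      field_simp
  have h1 := h a (b / (q : F)) ((q : F) * c) d hG' (divN F q z) (divN_mem hq hz)
  rw [mob_divN hq, aut_divN hq] at h1
  exact h1

theorem bdd_divN {κ q : ℕ} (hq : q ≠ 0) {f : ((F →+* ℝ) → ℂ) → ℂ} (h : Cusp F κ f) :
    Cusp F κ (fun z => f (divN F q z)) := by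
  obtain ⟨B, hB⟩ := h
  have hqR : (0 : ℝ) < q := Nat.cast_pos.2 (Nat.pos_of_ne_zero hq)
  refine ⟨B * ((q : ℝ) ^ Fintype.card (F →+* ℝ)) ^ ((κ : ℝ) / 2), fun z hz => ?_⟩
  have h1 := hB _ (divN_mem hq hz)
  have h2 : ∀ τ : F →+* ℝ, (z τ).im = (divN F q z τ).im * (q : ℝ) := by
    intro τ
    unfold divN
    rw [Complex.div_natCast_im, div_mul_cancel₀ _ hqR.ne']
  have h3 : ∏ τ : F →+* ℝ, (z τ).im =
      (∏ τ : F →+* ℝ, (divN F q z τ).im) * (q : ℝ) ^ Fintype.card (F →+* ℝ) := by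
    rw [Finset.prod_congr rfl fun τ _ => h2 τ, Finset.prod_mul_distrib, Finset.prod_const,
      Finset.card_univ]
  rw [h3, Real.mul_rpow (Finset.prod_nonneg fun τ _ => (divN_mem hq hz τ).le) (by positivity),
    ← mul_assoc]
  exact mul_le_mul_of_nonneg_right h1 (by positivity)

private theorem idx_mul {q : ℕ} (hq : q ≠ 0) {𝔟 : Ideal (𝓞 F)} {ξ : F} (h : ξ ∈ Idx F 𝔟) :
    (q : F) * ξ ∈ Idx F 𝔟 := by
  refine ⟨fun τ => ?_, fun x hx => ?_⟩
  · rw [map_mul, map_natCast]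
    exact mul_pos (Nat.cast_pos.2 (Nat.pos_of_ne_zero hq)) (h.1 τ)
  · obtain ⟨y, hy⟩ := h.2 x hx
    refine ⟨(q : 𝓞 F) * y, ?_⟩
    push_cast
    rw [mul_assoc, hy]

/-- Multiplication by `q` on the index set. -/
private def mulq {q : ℕ} (hq : q ≠ 0) {𝔟 : Ideal (𝓞 F)} (ξ : Idx F 𝔟) : Idx F 𝔟 :=
  ⟨(q : F) * ξ, idx_mul hq ξ.2⟩

private theorem mulq_inj {q : ℕ} (hq : q ≠ 0) {𝔟 : Ideal (𝓞 F)} :
    Function.Injective (mulq (F := F) hq (𝔟 := 𝔟)) := by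
  intro ξ η h
  have h1 : (q : F) * (ξ : F) = (q : F) * (η : F) := congrArg Subtype.val h
  exact Subtype.ext (mul_left_cancel₀ (Nat.cast_ne_zero.2 hq) h1)

theorem abs_mulN {q : ℕ} (hq : q ≠ 0) {𝔟 : Ideal (𝓞 F)} {u : F → ℂ}
    (hu : Abs F (Idx F 𝔟) u) : Abs F (Idx F 𝔟) (fun ξ => u ((q : F) * ξ)) := by
  intro y hy
  have hqR : (0 : ℝ) < q := Nat.cast_pos.2 (Nat.pos_of_ne_zero hq)
  have h1 := hu (fun τ => y τ / q) (fun τ => div_pos (hy τ) hqR)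
  have h2 := h1.comp_injective (mulq_inj hq)
  refine h2.congr fun ξ => ?_
  have e : ∑ τ : F →+* ℝ, τ ((mulq hq ξ : Idx F 𝔟) : F) * (y τ / q) =
      ∑ τ : F →+* ℝ, τ (ξ : F) * y τ := by
    refine Finset.sum_congr rfl fun τ _ => ?_
    change τ ((q : F) * (ξ : F)) * (y τ / q) = _
    rw [map_mul, map_natCast]
    field_simp
  change ‖u ((q : F) * (ξ : F))‖ * Real.exp (-(2 * Real.pi *
    ∑ τ : F →+* ℝ, τ ((mulq hq ξ : Idx F 𝔟) : F) * (y τ / q))) = _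
  rw [e]

theorem fser_divN {q : ℕ} (hq : q ≠ 0) {𝔟 : Ideal (𝓞 F)} {u : F → ℂ} (z : (F →+* ℝ) → ℂ) :
    fser F (Idx F 𝔟) (fun ξ => if ∀ x ∈ 𝔟, ∃ y ∈ Ideal.span {(q : 𝓞 F)},
        ξ * (x : F) = (y : F) then u ξ else 0) (divN F q z) =
      fser F (Idx F 𝔟) (fun ξ => u ((q : F) * ξ)) z := by
  have hqF : (q : F) ≠ 0 := Nat.cast_ne_zero.2 hq
  unfold fser
  rw [← (mulq_inj (F := F) hq (𝔟 := 𝔟)).tsum_eq]
  · refine tsum_congr fun ξ => ?_
    have hP : ∀ x ∈ 𝔟, ∃ y ∈ Ideal.span {(q : 𝓞 F)},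
        ((mulq hq ξ : Idx F 𝔟) : F) * (x : F) = (y : F) := by
      intro x hx
      obtain ⟨y, hy⟩ := ξ.2.2 x hx
      refine ⟨(q : 𝓞 F) * y, Ideal.mul_mem_right _ _ (Ideal.mem_span_singleton_self _), ?_⟩
      change (q : F) * (ξ : F) * (x : F) = _
      push_cast
      rw [mul_assoc, hy]
    change (if ∀ x ∈ 𝔟, ∃ y ∈ Ideal.span {(q : 𝓞 F)},
        ((mulq hq ξ : Idx F 𝔟) : F) * (x : F) = (y : F)
      then u ((mulq hq ξ : Idx F 𝔟) : F) else 0) * _ = _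
    rw [if_pos hP]
    change u ((q : F) * (ξ : F)) * expo F ((q : F) * (ξ : F)) (divN F q z) = _
    rw [expo_divN hq]
  · intro η hη
    have hP : ∀ x ∈ 𝔟, ∃ y ∈ Ideal.span {(q : 𝓞 F)}, (η : F) * (x : F) = (y : F) := by
      by_contra hc
      apply hη
      change (if ∀ x ∈ 𝔟, ∃ y ∈ Ideal.span {(q : 𝓞 F)}, (η : F) * (x : F) = (y : F)
        then u η else 0) * _ = 0
      rw [if_neg hc, zero_mul]
    refine ⟨⟨(η : F) / (q : F), fun τ => ?_, fun x hx => ?_⟩, ?_⟩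
    · rw [map_div₀, map_natCast]
      exact div_pos (η.2.1 τ) (Nat.cast_pos.2 (Nat.pos_of_ne_zero hq))
    · obtain ⟨y, hy, he⟩ := hP x hx
      obtain ⟨w, rfl⟩ := Ideal.mem_span_singleton.1 hy
      refine ⟨w, ?_⟩
      rw [div_mul_eq_mul_div, he]
      push_cast
      field_simp
    · apply Subtype.ext
      change (q : F) * ((η : F) / (q : F)) = (η : F)
      field_simp

end Pool.Agent.Helper93.DR
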