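import Pool.Agent.Helper93.DR.PSum
import Pool.Agent.Helper93.DR.Scale

/-!
# The operator `U_q`
-/

open scoped NumberField Classical

namespace Pool.Agent.Helper93.DR

variable {F : Type*} [Field F] [NumberField F]

theorem law_congr {κ N : ℕ} {T : AddSubgroup F} {f g : ((F →+* ℝ) → ℂ) → ℂ}
    (h : Law F κ T N f) (hfg : ∀ z ∈ UH F, f z = g z) : Law F κ T N g := by
  intro a b c d hg z hz
  obtain ⟨u, hu, hpos⟩ := hg.2.2.2.2
  rw [← hfg z hz, ← hfg _ (mob_mem (by rw [hu]; exact hpos) hz)]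
  exact h a b c d hg z hz

theorem bdd_congr {κ : ℕ} {f g : ((F →+* ℝ) → ℂ) → ℂ}
    (h : Cusp F κ f) (hfg : ∀ z ∈ UH F, f z = g z) : Cusp F κ g := by
  obtain ⟨B, hB⟩ := h
  refine ⟨B, fun z hz => ?_⟩
  rw [← hfg _ hz]
  exact hB z hz

/-- From a Fourier series with coefficients `u` to the one with coefficients `u (q ξ)`. -/
theorem uq_series [NumberField.IsTotallyReal F] {κ N q : ℕ} (hN : N ≠ 0) (hq : q ≠ 0)
    {𝔟 : Ideal (𝓞 F)} (hb : 𝔟 ≠ ⊥) {u : F → ℂ} (hu : Abs F (Idx F 𝔟) u)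
    (hlaw : Law F κ (transl F 𝔟) N (fser F (Idx F 𝔟) u)) (hbdd : Cusp F κ (fser F (Idx F 𝔟) u)) :
    Abs F (Idx F 𝔟) (fun ξ => u ((q : F) * ξ)) ∧
      Law F κ (transl F 𝔟) (N * q) (fser F (Idx F 𝔟) (fun ξ => u ((q : F) * ξ))) ∧
      Cusp F κ (fser F (Idx F 𝔟) (fun ξ => u ((q : F) * ξ))) := by
  have hq0 : Ideal.span {(q : 𝓞 F)} ≠ ⊥ := by
    rw [Ne, Ideal.span_singleton_eq_bot]
    exact_mod_cast hq
  have hfin := finite_quot (F := F) hb hq0
  have hmT : ∀ x ∈ translq F 𝔟 (Ideal.span {(q : 𝓞 F)}), (q : F) * x ∈ transl F 𝔟 := by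
    intro x hx
    have := hx (q : 𝓞 F) (Ideal.mem_span_singleton_self _)
    simpa using this
  have key : ∀ z ∈ UH F,
      avg F (transl F 𝔟) (translq F 𝔟 (Ideal.span {(q : 𝓞 F)})) (fser F (Idx F 𝔟) u)
        (divN F q z) = fser F (Idx F 𝔟) (fun ξ => u ((q : F) * ξ)) z := by
    intro z hz
    rw [avg_fser hb hq0 hu (divN_mem hq hz), fser_divN hq z]
  refine ⟨abs_mulN hq hu, ?_, ?_⟩
  · refine law_congr ?_ key
    exact law_divN hN hq (law_avg hN hq (transl_le _ _) (transl_stable _) (translq_stable _ _)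
      hmT hlaw)
  · exact bdd_congr (bdd_divN hq (bdd_avg hbdd)) key

end Pool.Agent.Helper93.DR
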