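import Pool.Agent.Helper93.DR.Desc
import Pool.Agent.Helper93.DR.DiagLaw
import Pool.Agent.Helper93.DR.Uq

/-!
# Descent of forms
-/

open scoped NumberField

namespace Pool.Agent.Helper93.DR

theorem form_descend (F F' : Type*) [Field F] [NumberField F] [Field F'] [NumberField F']
    [Algebra F F'] [NumberField.IsTotallyReal F'] :
    ∃ m₀ : ℕ, m₀ ≠ 0 ∧ ∀ (κ N q : ℕ) (C' : Ideal (𝓞 F') → ℂ), N ≠ 0 → q ≠ 0 →
      IsForm F' κ N C' →
        IsForm F (κ * Module.finrank F F') (N * m₀ * q) (descend F F' q C') := by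
  obtain ⟨m₀, hm₀, hdl⟩ := diag_law F F'
  have hF : NumberField.IsTotallyReal F := totallyReal_base (F' := F')
  refine ⟨m₀, hm₀, fun κ N q C' hN hq hC 𝔟 hb => ?_⟩
  have hb' : extI F F' 𝔟 ≠ ⊥ := by
    intro h
    exact hb ((Ideal.map_eq_bot_iff_of_injective
      (FaithfulSMul.algebraMap_injective (𝓞 F) (𝓞 F'))).mp h)
  obtain ⟨hA, hL, hB⟩ := hC _ hb'
  have h1 := hdl κ N 𝔟 _ hN hb hL
  have h2 := diag_bdd (F := F) hB
  obtain ⟨h3, h4⟩ := diag_fser (F := F) hb hA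
  have h5 := law_congr h1 h4
  have h6 := bdd_congr h2 h4
  obtain ⟨h7, h8, h9⟩ := uq_series (mul_ne_zero hN hm₀) hq hb h3 h5 h6
  have h10 : ∀ ξ : Idx F 𝔟,
      pushTr F F' (extI F F' 𝔟) (fun ζ => C' (scale F' ζ (extI F F' 𝔟))) ((q : F) * ξ) =
        descend F F' q C' (scale F ξ 𝔟) := fun ξ => pushTr_scale hb hq C' ξ.2
  have h11 : fser F (Idx F 𝔟) (fun ξ => pushTr F F' (extI F F' 𝔟)
      (fun ζ => C' (scale F' ζ (extI F F' 𝔟))) ((q : F) * ξ)) =
        qser F (descend F F' q C') 𝔟 := by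
    funext z
    unfold fser qser
    refine tsum_congr fun ξ => ?_
    exact congrArg (fun t : ℂ => t * expo F ξ z) (h10 ξ)
  rw [← h11]
  refine ⟨?_, h8, h9⟩
  intro y hy
  have := h7 y hy
  refine this.congr fun ξ => ?_
  exact congrArg (fun t : ℂ => ‖t‖ *
    Real.exp (-(2 * Real.pi * ∑ τ : F →+* ℝ, τ (ξ : F) * y τ))) (h10 ξ)

end Pool.Agent.Helper93.DR
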