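import Pool.Agent.Helper93.DR.Fib

/-!
# Reduction of the coefficients of the descended form
-/

open scoped NumberField Pointwise

namespace Pool.Agent.Helper93.DR

/-- The sum of an invariant function on a finite set with an action of a `p`-group and exactly one
fixed point, in characteristic `p`. -/
private theorem sum_pgroup {p : ℕ} [Fact p.Prime] {G : Type*} [Group G] (hG : IsPGroup p G)
    {α : Type*} [MulAction G α] [Fintype α] {k : Type*} [CommRing k] [CharP k p] (g : α → k)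
    (hg : ∀ (σ : G) (x : α), g (σ • x) = g x) (x0 : α) (h0 : ∀ σ : G, σ • x0 = x0)
    (h1 : ∀ x : α, (∀ σ : G, σ • x = x) → x = x0) : ∑ x, g x = g x0 := by
  classical
  let _ : Fintype (MulAction.orbitRel.Quotient G α) := Fintype.ofFinite _
  let _ : ∀ ω : MulAction.orbitRel.Quotient G α, Fintype (MulAction.orbit G (Quotient.out ω)) :=
    fun ω => Fintype.ofFinite _
  have hval : ∀ z : (Σ ω : MulAction.orbitRel.Quotient G α, MulAction.orbit G (Quotient.out ω)),
      g ((MulAction.selfEquivSigmaOrbits G α).symm z) = g (Quotient.out z.1) := by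
    rintro ⟨ω, x, σ, hσ⟩
    have h4 : σ • Quotient.out ω = x := hσ
    show g x = g (Quotient.out ω)
    exact (congrArg g h4.symm).trans (hg σ _)
  rw [← (MulAction.selfEquivSigmaOrbits G α).symm.sum_comp, Finset.sum_congr rfl fun z _ => hval z,
    Fintype.sum_sigma]
  simp only [Finset.sum_const, Finset.card_univ, nsmul_eq_mul]
  have hout : ∀ ω : MulAction.orbitRel.Quotient G α, Quotient.out ω ≠ x0 →
      ((Fintype.card (MulAction.orbit G (Quotient.out ω)) : ℕ) : k) = 0 := by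
    intro ω hω
    obtain ⟨m, hm⟩ := hG.card_orbit (Quotient.out ω)
    rw [Nat.card_eq_fintype_card] at hm
    rcases Nat.eq_zero_or_pos m with h2 | h2
    · exfalso
      apply hω
      apply h1
      intro σ
      rw [h2, pow_zero, Fintype.card_eq_one_iff] at hm
      obtain ⟨y, hy⟩ := hm
      have h3 := hy ⟨σ • Quotient.out ω, MulAction.mem_orbit _ _⟩
      have h4 := hy ⟨Quotient.out ω, MulAction.mem_orbit_self _⟩
      exact congrArg Subtype.val (h3.trans h4.symm)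
    · rw [hm, Nat.cast_pow, CharP.cast_eq_zero, zero_pow h2.ne']
  have hx0 : Quotient.out (Quotient.mk _ x0 : MulAction.orbitRel.Quotient G α) = x0 := by
    have h2 : MulAction.orbitRel G α (Quotient.out (Quotient.mk _ x0 :
        MulAction.orbitRel.Quotient G α)) x0 := Quotient.exact (Quotient.out_eq _)
    rw [MulAction.orbitRel_apply] at h2
    obtain ⟨σ, hσ⟩ := h2
    rw [← hσ]
    exact h0 σ
  rw [Finset.sum_eq_single (Quotient.mk _ x0 : MulAction.orbitRel.Quotient G α)]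
  · have h2 : Fintype.card (MulAction.orbit G (Quotient.out (Quotient.mk _ x0 :
        MulAction.orbitRel.Quotient G α))) = 1 := by
      rw [Fintype.card_eq_one_iff]
      refine ⟨⟨x0, by rw [hx0]; exact MulAction.mem_orbit_self _⟩, ?_⟩
      rintro ⟨y, σ, hσ⟩
      apply Subtype.ext
      show y = x0
      rw [← hσ, hx0]
      exact h0 σ
    rw [h2, Nat.cast_one, one_mul, hx0]
  · intro ω _ hω
    rw [hout ω, zero_mul]
    intro h2
    apply hω
    rw [← h2]
    exact (Quotient.out_eq ω).symm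
  · intro hn
    exact absurd (Finset.mem_univ _) hn

variable {F F' : Type*} [Field F] [NumberField F] [Field F'] [NumberField F'] [Algebra F F']

omit [NumberField F] [NumberField F'] in
private theorem ext_smul (σ : F' ≃ₐ[F] F') (𝔫 : Ideal (𝓞 F)) :
    σ • extI F F' 𝔫 = extI F F' 𝔫 := by
  have key : ∀ τ : F' ≃ₐ[F] F', τ • extI F F' 𝔫 ≤ extI F F' 𝔫 := by
    intro τ
    rw [Ideal.pointwise_smul_def, extI, Ideal.map_map, Ideal.map_le_iff_le_comap]
    intro x hx
    rw [Ideal.mem_comap]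
    have h1 : ((MulSemiringAction.toRingHom (F' ≃ₐ[F] F') (𝓞 F') τ).comp
        (algebraMap (𝓞 F) (𝓞 F'))) x = algebraMap (𝓞 F) (𝓞 F') x := by
      apply NumberField.RingOfIntegers.ext
      exact τ.commutes (x : F)
    rw [h1]
    exact Ideal.mem_map_of_mem _ hx
  apply le_antisymm (key σ)
  intro x hx
  rw [Ideal.mem_pointwise_smul_iff_inv_smul_mem]
  apply key σ⁻¹
  rw [Ideal.mem_pointwise_smul_iff_inv_smul_mem, inv_inv, smul_inv_smul]
  exact hx

omit [NumberField F] [NumberField F'] in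
private theorem scale_smul (σ : F' ≃ₐ[F] F') (ζ : F') (𝔟 : Ideal (𝓞 F')) :
    scale F' (σ ζ) (σ • 𝔟) = σ • scale F' ζ 𝔟 := by
  ext x
  rw [Ideal.mem_pointwise_smul_iff_inv_smul_mem]
  constructor
  · rintro ⟨y, hy, h⟩
    rw [Ideal.mem_pointwise_smul_iff_inv_smul_mem] at hy
    refine ⟨σ⁻¹ • y, hy, ?_⟩
    have h1 : ((σ⁻¹ • x : 𝓞 F') : F') = σ⁻¹ (x : F') := rfl
    have h2 : ((σ⁻¹ • y : 𝓞 F') : F') = σ⁻¹ (y : F') := rfl
    rw [h1, h2, h, map_mul]
    congr 1
    exact σ.symm_apply_apply ζ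
  · rintro ⟨y, hy, h⟩
    refine ⟨σ • y, ?_, ?_⟩
    · rw [Ideal.mem_pointwise_smul_iff_inv_smul_mem, inv_smul_smul]
      exact hy
    · have h1 : ((σ⁻¹ • x : 𝓞 F') : F') = σ⁻¹ (x : F') := rfl
      have h2 : ((σ • y : 𝓞 F') : F') = σ (y : F') := rfl
      rw [h1] at h
      rw [h2, ← map_mul, ← h]
      exact (σ.apply_symm_apply (x : F')).symm

theorem phi_descend [NumberField.IsTotallyReal F'] [IsGalois F F'] {p : ℕ} [Fact p.Prime]
    (hP : IsPGroup p (F' ≃ₐ[F] F')) {R k : Type*} [CommRing R] [CommRing k] [CharP k p]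
    (φ : R →+* k) (C' : Ideal (𝓞 F') → R)
    (hinv : ∀ (σ : F' ≃ₐ[F] F') (𝔪 : Ideal (𝓞 F')), 𝔪 ≠ ⊥ → φ (C' (σ • 𝔪)) = φ (C' 𝔪))
    {𝔫 : Ideal (𝓞 F)} (hn : 𝔫 ≠ ⊥) :
    φ (descend F F' (Module.finrank F F') C' 𝔫) = φ (C' (extI F F' 𝔫)) := by
  classical
  have hfd : FiniteDimensional F F' := Module.Finite.of_restrictScalars_finite ℚ F F'
  have hb : extI F F' 𝔫 ≠ ⊥ := by
    intro h
    rw [extI, Ideal.map_eq_bot_iff_of_injective (FaithfulSMul.algebraMap_injective _ _)] at h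
    exact hn h
  have hfin := fib_finite (F := F) hb ((Module.finrank F F' : ℕ) : F)
  -- a real embedding
  obtain ⟨τ0⟩ : Nonempty (F' →+* ℝ) := by
    obtain ⟨v⟩ : Nonempty (NumberField.InfinitePlace F') := inferInstance
    exact ⟨NumberField.InfinitePlace.embedding_of_isReal
      (NumberField.IsTotallyReal.isReal v)⟩
  -- the action
  have hst : ∀ (σ : F' ≃ₐ[F] F') (ζ : F'),
      ζ ∈ Fib F F' (extI F F' 𝔫) ((Module.finrank F F' : ℕ) : F) →
      σ ζ ∈ Fib F F' (extI F F' 𝔫) ((Module.finrank F F' : ℕ) : F) := by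
    rintro σ ζ ⟨⟨h1, h2⟩, h3⟩
    refine ⟨⟨fun τ => h1 (τ.comp (σ : F' →+* F')), ?_⟩, ?_⟩
    · intro x hx
      have hx' : σ⁻¹ • x ∈ extI F F' 𝔫 := by
        rw [← ext_smul σ 𝔫, Ideal.mem_pointwise_smul_iff_inv_smul_mem] at hx
        exact hx
      obtain ⟨y, hy⟩ := h2 _ hx'
      refine ⟨σ • y, ?_⟩
      have e1 : ((σ⁻¹ • x : 𝓞 F') : F') = σ⁻¹ (x : F') := rfl
      have e2 : ((σ • y : 𝓞 F') : F') = σ (y : F') := rfl
      rw [e2, ← hy, e1, map_mul]
      congr 1
      exact (σ.apply_symm_apply (x : F')).symm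
    · rw [Algebra.trace_eq_of_algEquiv σ ζ]
      exact h3
  let _ : MulAction (F' ≃ₐ[F] F')
      (Fib F F' (extI F F' 𝔫) ((Module.finrank F F' : ℕ) : F)) :=
    { smul := fun σ ζ => ⟨σ ζ.1, hst σ ζ.1 ζ.2⟩
      one_smul := fun ζ => rfl
      mul_smul := fun σ τ ζ => rfl }
  have hsm : ∀ (σ : F' ≃ₐ[F] F')
      (ζ : Fib F F' (extI F F' 𝔫) ((Module.finrank F F' : ℕ) : F)),
      ((σ • ζ : Fib F F' (extI F F' 𝔫) ((Module.finrank F F' : ℕ) : F)) : F') = σ (ζ : F') :=
    fun σ ζ => rfl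
  let _ : Fintype (Fib F F' (extI F F' 𝔫) ((Module.finrank F F' : ℕ) : F)) := hfin.fintype
  -- the element 1
  have h1mem : (1 : F') ∈ Fib F F' (extI F F' 𝔫) ((Module.finrank F F' : ℕ) : F) := by
    refine ⟨⟨fun τ => by rw [map_one]; exact one_pos, fun x _ => ⟨x, one_mul _⟩⟩, ?_⟩
    have h2 := Algebra.trace_algebraMap (S := F') (1 : F)
    rw [map_one] at h2
    rw [h2, nsmul_eq_mul, mul_one]
  have hsc1 : scale F' 1 (extI F F' 𝔫) = extI F F' 𝔫 := by
    ext x
    constructor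
    · rintro ⟨y, hy, h⟩
      rw [one_mul] at h
      rw [NumberField.RingOfIntegers.ext h]
      exact hy
    · intro hx
      exact ⟨x, hx, (one_mul _).symm⟩
  -- the sum
  have hsum : φ (descend F F' (Module.finrank F F') C' 𝔫) =
      ∑ ζ : Fib F F' (extI F F' 𝔫) ((Module.finrank F F' : ℕ) : F),
        φ (C' (scale F' (ζ : F') (extI F F' 𝔫))) := by
    rw [descend, finsum_mem_eq_finite_toFinset_sum _ hfin, map_sum]
    exact Finset.sum_subtype _ (fun x => hfin.mem_toFinset) (fun ζ : F' =>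
      φ (C' (scale F' ζ (extI F F' 𝔫))))
  rw [hsum, sum_pgroup hP (fun ζ : Fib F F' (extI F F' 𝔫) ((Module.finrank F F' : ℕ) : F) =>
    φ (C' (scale F' (ζ : F') (extI F F' 𝔫)))) ?_ ⟨1, h1mem⟩ ?_ ?_]
  · show φ (C' (scale F' 1 (extI F F' 𝔫))) = _
    rw [hsc1]
  · intro σ ζ
    show φ (C' (scale F' (σ (ζ : F')) (extI F F' 𝔫))) = φ (C' (scale F' (ζ : F') (extI F F' 𝔫)))
    have h2 : scale F' (σ (ζ : F')) (extI F F' 𝔫) = σ • scale F' (ζ : F') (extI F F' 𝔫) := by
      rw [← scale_smul, ext_smul]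
    rw [h2]
    apply hinv
    -- the scaled ideal is not zero
    intro h3
    obtain ⟨x, hx, hx0⟩ := Submodule.exists_mem_ne_zero_of_ne_bot hb
    obtain ⟨y, hy⟩ := ζ.2.1.2 x hx
    have h4 : y ∈ scale F' (ζ : F') (extI F F' 𝔫) := ⟨x, hx, hy.symm⟩
    rw [h3, Ideal.mem_bot] at h4
    rw [h4] at hy
    have h5 : (ζ : F') * (x : F') = 0 := hy
    rcases mul_eq_zero.mp h5 with h6 | h6
    · have h7 := ζ.2.1.1 τ0
      rw [h6, map_zero] at h7
      exact lt_irrefl _ h7
    · exact hx0 (NumberField.RingOfIntegers.ext h6)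
  · intro σ
    apply Subtype.ext
    rw [hsm]
    exact map_one σ
  · intro ζ hζ
    apply Subtype.ext
    show (ζ : F') = 1
    have h2 : (ζ : F') ∈ Set.range (algebraMap F F') := by
      rw [IsGalois.mem_range_algebraMap_iff_fixed]
      intro σ
      rw [← hsm, hζ σ]
    obtain ⟨x, hx⟩ := h2
    have h3 := ζ.2.2
    rw [← hx, Algebra.trace_algebraMap, nsmul_eq_mul] at h3
    have h4 : ((Module.finrank F F' : ℕ) : F) ≠ 0 := Nat.cast_ne_zero.mpr Module.finrank_pos.ne'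
    have h5 : x = 1 := by
      apply mul_left_cancel₀ h4
      rw [h3, mul_one]
    rw [← hx, h5, map_one]

end Pool.Agent.Helper93.DR
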