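import Pool.Agent.Helper93.DR.Down
import Pool.Agent.Helper93.DR.ModP
import Pool.Agent.Helper93.DR.FormD
import Pool.Agent.Helper93.DR.Dep
import Pool.Agent.Helper93.DR.ExtG

/-!
# Descent of modularity
-/

open scoped NumberField Pointwise

namespace Pool.Agent.Helper93.DR

/-- Descent of invariant forms modulo `p`. -/
theorem descent_forms (F F' : Type*) [Field F] [NumberField F] [Field F'] [NumberField F']
    [Algebra F F'] [NumberField.IsTotallyReal F'] [IsGalois F F'] :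
    ∃ m₀ : ℕ, m₀ ≠ 0 ∧ ∀ (p : ℕ) [Fact p.Prime], IsPGroup p (F' ≃ₐ[F] F') →
      ∀ (R : Type*) [CommRing R] [CharP R p] (κ N : ℕ)
        (C' : Ideal (𝓞 F') → integralClosure ℤ ℂ) (φ : integralClosure ℤ ℂ →+* R), N ≠ 0 →
        IsForm F' κ N (fun 𝔫 => (C' 𝔫 : ℂ)) →
        (∀ (σ : F' ≃ₐ[F] F') (𝔪 : Ideal (𝓞 F')), 𝔪 ≠ ⊥ → φ (C' (σ • 𝔪)) = φ (C' 𝔪)) →
          ∃ C : Ideal (𝓞 F) → integralClosure ℤ ℂ,
            IsForm F (κ * Module.finrank F F') (N * m₀ * Module.finrank F F')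
              (fun 𝔫 => (C 𝔫 : ℂ)) ∧
            ∀ 𝔫 : Ideal (𝓞 F), 𝔫 ≠ ⊥ →
              φ (C 𝔫) = φ (C' (𝔫.map (algebraMap (𝓞 F) (𝓞 F')))) := by
  obtain ⟨m₀, hm₀, hform⟩ := form_descend F F'
  have hq : Module.finrank F F' ≠ 0 := Module.finrank_pos.ne'
  refine ⟨m₀, hm₀, fun p _ hP R _ _ κ N C' φ hN hC hinv =>
    ⟨fun 𝔫 => descend F F' (Module.finrank F F') C' 𝔫, ?_,
      fun 𝔫 hn => phi_descend hP φ C' hinv hn⟩⟩
  have h1 := hform κ N (Module.finrank F F') _ hN hq hC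
  have h2 : (fun 𝔫 : Ideal (𝓞 F) =>
      ((descend F F' (Module.finrank F F') C' 𝔫 : integralClosure ℤ ℂ) : ℂ)) =
      descend F F' (Module.finrank F F') (fun 𝔫 => (C' 𝔫 : ℂ)) := by
    funext 𝔫
    unfold descend
    have hi : Function.Injective ((integralClosure ℤ ℂ).val : integralClosure ℤ ℂ →+ ℂ) :=
      Subtype.val_injective
    refine ((integralClosure ℤ ℂ).val : integralClosure ℤ ℂ →+ ℂ).map_finsum_of_injective hi _
      |>.trans ?_
    refine finsum_congr fun ζ => ?_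
    exact ((integralClosure ℤ ℂ).val : integralClosure ℤ ℂ →+ ℂ).map_finsum_of_injective hi _
  rw [h2]
  exact h1

theorem isEigen_congr {F L k : Type*} [Field F] [NumberField F] [Field L] [NumberField L]
    [Algebra F L] [Field k] {ρ : (L ≃ₐ[F] L) →* Matrix.GeneralLinearGroup (Fin 2) k} {M : ℕ}
    {A B : Ideal (𝓞 F) → k} (h : IsEigen F ρ M A) (hAB : ∀ 𝔫, 𝔫 ≠ ⊥ → A 𝔫 = B 𝔫) :
    IsEigen F ρ M B := by
  have hv0 : ∀ v : Ideal (𝓞 F), v.IsMaximal → v ≠ ⊥ := fun v hv =>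
    Ring.ne_bot_of_isMaximal_of_not_isField hv (NumberField.RingOfIntegers.not_isField F)
  have hmul : ∀ v 𝔫 : Ideal (𝓞 F), v.IsMaximal → 𝔫 ≠ ⊥ → v * 𝔫 ≠ ⊥ := fun v 𝔫 hv hn =>
    mul_ne_zero (hv0 v hv) hn
  obtain ⟨h1, h2, h3⟩ := h
  refine ⟨?_, ?_, ?_⟩
  · rw [← hAB _ top_ne_bot]; exact h1
  · intro v hv hM 𝔫 hn
    rw [← hAB _ (hmul v 𝔫 hv hn)]
    exact h2 v hv hM 𝔫 hn
  · intro v hv hM s Q hs 𝔫 hn
    rw [← hAB _ (hmul v 𝔫 hv hn), ← hAB _ (hmul v _ hv (hmul v 𝔫 hv hn)), ← hAB _ hn]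
    exact h3 v hv hM s Q hs 𝔫 hn

open Classical in
/-- Descent of modularity modulo `p` in Galois extensions of `p`-power degree. -/
theorem descent_modular {p : ℕ} [Fact p.Prime] {k : Type*} [Field k] [CharP k p]
    [IsAlgClosed k] {F F' L : Type*} [Field F] [NumberField F] [Field F'] [NumberField F']
    [Field L] [NumberField L] [Algebra F F'] [Algebra F L] [Algebra F' L] [IsScalarTower F F' L]
    [NumberField.IsTotallyReal F'] [IsGalois F F'] [IsGalois F L]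
    (hP : IsPGroup p (F' ≃ₐ[F] F'))
    (ρ : (L ≃ₐ[F] L) →* Matrix.GeneralLinearGroup (Fin 2) k) {κ : ℕ}
    (h : Modular F' κ (res (F' := F') ρ)) : Modular F (κ * Module.finrank F F') ρ := by
  obtain ⟨M, N, C', φ, hM, hN, hform, heig⟩ := h
  obtain ⟨M₀, hM₀, hunr⟩ := exists_unramified F L
  have hM₁ : M * M₀ ≠ 0 := mul_ne_zero hM hM₀
  obtain ⟨N', hN', hform'⟩ := exists_deplete (F := F') (M := M * M₀) hN hM₁ hform
  have heig' := eigen_deplete heig hM₁ (dvd_mul_right M M₀)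
  set C₁ : Ideal (𝓞 F') → integralClosure ℤ ℂ := fun 𝔫 =>
    if ∃ v : Ideal (𝓞 F'), v.IsMaximal ∧ ((M * M₀ : ℕ) : 𝓞 F') ∈ v ∧ 𝔫 ≤ v then 0 else C' 𝔫
    with hC₁
  have hform₁ : IsForm F' κ N' (fun 𝔫 => (C₁ 𝔫 : ℂ)) := by
    convert hform' using 2 with 𝔫
    rw [hC₁]
    by_cases hc : ∃ v : Ideal (𝓞 F'), v.IsMaximal ∧ ((M * M₀ : ℕ) : 𝓞 F') ∈ v ∧ 𝔫 ≤ v
    · simp only [if_pos hc]; rfl
    · simp only [if_neg hc]
  have heig₁ : IsEigen F' (res (F' := F') ρ) (M * M₀) (fun 𝔫 => φ (C₁ 𝔫)) := by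
    convert heig' using 2 with 𝔫
    rw [hC₁]
    by_cases hc : ∃ v : Ideal (𝓞 F'), v.IsMaximal ∧ ((M * M₀ : ℕ) : 𝓞 F') ∈ v ∧ 𝔫 ≤ v
    · simp only [if_pos hc, map_zero]
    · simp only [if_neg hc]
  obtain ⟨m₀, hm₀, hdesc⟩ := descent_forms F F'
  obtain ⟨C, hformC, hC⟩ := hdesc p hP k κ N' C₁ φ hN' hform₁
    (fun σ 𝔪 hm => eigen_inv ρ heig₁ σ hm)
  have hram : ∀ Q : Ideal (𝓞 L), Q.IsMaximal → ((M * M₀ : ℕ) : 𝓞 L) ∉ Q →
      ∀ τ : L ≃ₐ[F] L, (∀ x : 𝓞 L, τ • x - x ∈ Q) → τ = 1 := by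
    intro Q hQ hMQ
    refine hunr Q hQ fun h0 => hMQ ?_
    rw [Nat.cast_mul]
    exact Q.mul_mem_left _ h0
  obtain ⟨r, -, hdown⟩ := eigen_down hP ρ hM₁ hram heig₁
  refine ⟨M * M₀, N' * m₀ * Module.finrank F F', C,
    (((frobeniusEquiv k p).symm : k →+* k) ^ r).comp φ, hM₁,
    mul_ne_zero (mul_ne_zero hN' hm₀) Module.finrank_pos.ne', hformC, ?_⟩
  refine isEigen_congr hdown fun 𝔫 hn => ?_
  rw [RingHom.comp_apply, RingHom.coe_pow, hC 𝔫 hn]
  rfl

section Tower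

variable {F F' L : Type*} [Field F] [NumberField F] [Field F'] [NumberField F']
    [Field L] [NumberField L] [Algebra F F'] [Algebra F L] [Algebra F' L] [IsScalarTower F F' L]
    [IsGalois F F'] [IsGalois F L]

theorem mem_range_iff (g : L ≃ₐ[F] L) : AlgEquiv.restrictNormalHom F' g = 1 ↔
    g ∈ (AlgEquiv.restrictScalarsHom F : (L ≃ₐ[F'] L) →* (L ≃ₐ[F] L)).range := by
  constructor
  · intro h1
    have h2 : ∀ x : F', g (algebraMap F' L x) = algebraMap F' L x := by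
      intro x
      have h3 := AlgEquiv.restrictNormal_commutes g F' x
      have h4 : g.restrictNormal F' = 1 := h1
      rw [h4] at h3
      exact h3.symm
    refine ⟨AlgEquiv.ofRingEquiv (f := (g : L ≃+* L)) h2, ?_⟩
    ext x
    rfl
  · rintro ⟨s, rfl⟩
    ext x
    apply (algebraMap F' L).injective
    have h3 := AlgEquiv.restrictNormal_commutes (AlgEquiv.restrictScalarsHom F s) F' x
    refine h3.trans ?_
    exact s.commutes x

instance range_normal : (AlgEquiv.restrictScalarsHom F : (L ≃ₐ[F'] L) →*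
    (L ≃ₐ[F] L)).range.Normal := by
  refine ⟨fun g hg t => ?_⟩
  rw [← mem_range_iff] at hg ⊢
  rw [map_mul, map_mul, hg, mul_one, map_inv, mul_inv_cancel]

theorem quot_pgroup {p : ℕ} (hP : IsPGroup p (F' ≃ₐ[F] F')) : IsPGroup p
    ((L ≃ₐ[F] L) ⧸ (AlgEquiv.restrictScalarsHom F : (L ≃ₐ[F'] L) →* (L ≃ₐ[F] L)).range) := by
  intro x
  induction x using QuotientGroup.induction_on with
  | H g =>
    obtain ⟨j, hj⟩ := hP (AlgEquiv.restrictNormalHom F' g)
    refine ⟨j, ?_⟩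
    rw [← QuotientGroup.mk_pow, QuotientGroup.eq_one_iff, ← mem_range_iff, map_pow, hj]

end Tower

/-- `ρ'` is isomorphic to its conjugates by the elements of `Gal(L/F)`. -/
def ConjInv (F : Type*) {F' L k : Type*} [Field F] [Field F'] [Field L] [Field k]
    [Algebra F F'] [Algebra F L] [Algebra F' L] [IsScalarTower F F' L]
    (ρ' : (L ≃ₐ[F'] L) →* Matrix.GeneralLinearGroup (Fin 2) k) : Prop :=
  ∀ g : L ≃ₐ[F] L, ∃ A : Matrix.GeneralLinearGroup (Fin 2) k, ∀ s t : L ≃ₐ[F'] L,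
    t.restrictScalars F = g * s.restrictScalars F * g⁻¹ → ρ' t = A * ρ' s * A⁻¹

/-- Invariant irreducible representations extend, uniquely. -/
theorem extend_invariant {p : ℕ} [Fact p.Prime] {k : Type*} [Field k] [CharP k p]
    [IsAlgClosed k] {F F' L : Type*} [Field F] [NumberField F] [Field F'] [NumberField F']
    [Field L] [NumberField L] [Algebra F F'] [Algebra F L] [Algebra F' L] [IsScalarTower F F' L]
    [IsGalois F F'] [IsGalois F L] (hP : IsPGroup p (F' ≃ₐ[F] F'))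
    (ρ' : (L ≃ₐ[F'] L) →* Matrix.GeneralLinearGroup (Fin 2) k) (hirr : Irr ρ')
    (hinv : ConjInv F ρ') :
    ∃! ρ : (L ≃ₐ[F] L) →* Matrix.GeneralLinearGroup (Fin 2) k, res (F' := F') ρ = ρ' := by
  have hL : FiniteDimensional F L := inferInstance
  exact extend_rep (AlgEquiv.restrictScalarsHom F : (L ≃ₐ[F'] L) →* (L ≃ₐ[F] L))
    (AlgEquiv.restrictScalarsHom_injective F) range_normal (quot_pgroup hP) hirr hinv

/-- Descent to an intermediate field of degree prime to `p` in an arbitrary Galois extension. -/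
theorem descent_sylow {p : ℕ} [Fact p.Prime] {k : Type*} [Field k] [CharP k p]
    [IsAlgClosed k] {F F' L : Type*} [Field F] [NumberField F] [Field F'] [NumberField F']
    [Field L] [NumberField L] [Algebra F F'] [Algebra F L] [Algebra F' L] [IsScalarTower F F' L]
    [NumberField.IsTotallyReal F'] [IsGalois F F'] [IsGalois F L]
    (ρ : (L ≃ₐ[F] L) →* Matrix.GeneralLinearGroup (Fin 2) k) {κ : ℕ}
    (h : Modular F' κ (res (F' := F') ρ)) :
    ∃ K : IntermediateField F F', ¬ p ∣ Module.finrank F K ∧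
      Modular K (κ * Module.finrank K F') (res (F' := K) ρ) := by
  obtain ⟨P⟩ : Nonempty (Sylow p (F' ≃ₐ[F] F')) := inferInstance
  set K : IntermediateField F F' := IntermediateField.fixedField (P : Subgroup (F' ≃ₐ[F] F'))
    with hK
  have hfix : K.fixingSubgroup = (P : Subgroup (F' ≃ₐ[F] F')) :=
    IntermediateField.fixingSubgroup_fixedField _
  have hGK : IsGalois K F' := IsGalois.tower_top_of_isGalois F K F'
  have hGL : IsGalois K L := IsGalois.tower_top_of_isGalois F K L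
  refine ⟨K, ?_, ?_⟩
  · have h1 : Module.finrank F K = (P : Subgroup (F' ≃ₐ[F] F')).index := by
      rw [← hfix]
      exact IntermediateField.finrank_eq_fixingSubgroup_index (F := F) (E' := F') K
    rw [h1]
    exact P.not_dvd_index
  · have hPK : IsPGroup p (F' ≃ₐ[K] F') := by
      refine IsPGroup.of_injective (H := F' ≃ₐ[K] F') P.isPGroup'
        ((MulEquiv.subgroupCongr hfix).toMonoidHom.comp
          (IntermediateField.fixingSubgroupEquiv K).symm.toMonoidHom) ?_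
      exact (MulEquiv.subgroupCongr hfix).injective.comp
        (IntermediateField.fixingSubgroupEquiv K).symm.injective
    exact descent_modular (F := K) (F' := F') (L := L) hPK (res (F := F) (F' := K) (L := L) ρ) h

end Pool.Agent.Helper93.DR
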