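import Mathlib

/-!
# Solvability of the image and restriction to normal subgroups of `p`-power index
-/

namespace Pool.Agent.Helper93.DR

theorem solvable_of_restrict {p : ℕ} [Fact p.Prime] {G H A : Type*} [Group G] [Finite G]
    [Group H] [Group A] (ι : H →* G) (hn : ι.range.Normal) (hP : IsPGroup p (G ⧸ ι.range))
    (ρ : G →* A) (h : Group.IsSolvable (ρ.comp ι).range) : Group.IsSolvable ρ.range := by
  have hM : (ι.range.map ρ.rangeRestrict).Normal :=
    hn.map _ ρ.rangeRestrict_surjective
  rw [Group.isSolvable_iff_subgroup_quotient (ι.range.map ρ.rangeRestrict)]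
  constructor
  · have hmem : ∀ x : (ι.range.map ρ.rangeRestrict : Subgroup ρ.range),
        ((x : ρ.range) : A) ∈ (ρ.comp ι).range := by
      rintro ⟨x, y, ⟨z, rfl⟩, rfl⟩
      exact ⟨z, rfl⟩
    let f : (ι.range.map ρ.rangeRestrict : Subgroup ρ.range) →* (ρ.comp ι).range :=
      { toFun := fun x => ⟨((x : ρ.range) : A), hmem x⟩
        map_one' := rfl
        map_mul' := fun x y => rfl }
    have hf : Function.Injective f := by
      intro x y hxy
      apply Subtype.ext
      apply Subtype.ext
      exact congrArg (fun t : (ρ.comp ι).range => (t : A)) hxy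
    exact Group.isSolvable_of_isSolvable_injective hf
  · have hnil : Group.IsNilpotent (G ⧸ ι.range) := hP.isNilpotent
    have hsolv : Group.IsSolvable (G ⧸ ι.range) := inferInstance
    let f : G ⧸ ι.range →* ρ.range ⧸ (ι.range.map ρ.rangeRestrict) :=
      QuotientGroup.map ι.range (ι.range.map ρ.rangeRestrict) ρ.rangeRestrict
        (Subgroup.le_comap_map _ _)
    have hf : Function.Surjective f := by
      intro x
      induction x using QuotientGroup.induction_on with
      | H x =>
        obtain ⟨g, rfl⟩ := ρ.rangeRestrict_surjective x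
        exact ⟨QuotientGroup.mk g, rfl⟩
    exact Group.isSolvable_of_surjective hf

end Pool.Agent.Helper93.DR
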