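import Pool.Agent.Helper93.WS.Defs

/-!
# Hilbert modular forms of parallel weight through their `q`-expansions, and modularity mod `p`

`F` is a totally real number field, `𝓞 F` its ring of integers; points of the product of the upper
half planes are functions `z` on the set `F →+* ℝ` of real embeddings.
-/

open scoped NumberField

namespace Pool.Agent.Helper93.DR

section Forms

variable (F : Type*) [Field F] [NumberField F]

/-- The product of the upper half planes. -/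
def UH : Set ((F →+* ℝ) → ℂ) := {z | ∀ τ, 0 < (z τ).im}

/-- Totally positive elements. -/
def TotPos (x : F) : Prop := ∀ τ : F →+* ℝ, 0 < τ x

/-- The totally positive `ξ` with `ξ 𝔟 ⊆ 𝓞 F`. -/
def Idx (𝔟 : Ideal (𝓞 F)) : Set F := {ξ | TotPos F ξ ∧ ∀ x ∈ 𝔟, ∃ y : 𝓞 F, ξ * x = y}

/-- The ideal `ξ 𝔟` (if it is integral; in general its intersection with `𝓞 F`). -/
def scale (ξ : F) (𝔟 : Ideal (𝓞 F)) : Ideal (𝓞 F) where
  carrier := {x | ∃ y ∈ 𝔟, (x : F) = ξ * y}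
  add_mem' := by
    rintro x x' ⟨y, hy, h⟩ ⟨y', hy', h'⟩
    refine ⟨y + y', 𝔟.add_mem hy hy', ?_⟩
    change (x : F) + (x' : F) = ξ * ((y : F) + (y' : F))
    rw [mul_add, ← h, ← h']
  zero_mem' := ⟨0, 𝔟.zero_mem, by simp⟩
  smul_mem' := by
    rintro c x ⟨y, hy, h⟩
    refine ⟨c * y, 𝔟.mul_mem_left c hy, ?_⟩
    change (c : F) * (x : F) = ξ * ((c : F) * (y : F))
    rw [mul_left_comm, ← h]

/-- `exp (2 π i tr (ξ z))`. -/
noncomputable def expo (ξ : F) (z : (F →+* ℝ) → ℂ) : ℂ :=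
  Complex.exp (2 * Real.pi * Complex.I * ∑ τ, ((τ ξ : ℝ) : ℂ) * z τ)

/-- The series `∑ C(ξ 𝔟) exp (2 π i tr (ξ z))` over the totally positive `ξ` with `ξ 𝔟 ⊆ 𝓞 F`. -/
noncomputable def qser (C : Ideal (𝓞 F) → ℂ) (𝔟 : Ideal (𝓞 F)) (z : (F →+* ℝ) → ℂ) : ℂ :=
  ∑' ξ : Idx F 𝔟, C (scale F ξ 𝔟) * expo F ξ z

/-- The translation lattice of the series: all `x` with `tr (ξ x) ∈ ℤ` for all `ξ` with
`ξ 𝔟 ⊆ 𝓞 F` (that is, `𝔟` times the inverse different). -/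
def transl (𝔟 : Ideal (𝓞 F)) : AddSubgroup F where
  carrier := {x | ∀ ξ : F, (∀ y ∈ 𝔟, ∃ m : 𝓞 F, ξ * y = m) →
    ∃ m : ℤ, ∑ τ : F →+* ℝ, τ (ξ * x) = m}
  add_mem' := by
    intro x y hx hy ξ hξ
    obtain ⟨m, hm⟩ := hx ξ hξ
    obtain ⟨m', hm'⟩ := hy ξ hξ
    exact ⟨m + m', by push_cast; rw [← hm, ← hm', ← Finset.sum_add_distrib]; simp [mul_add]⟩
  zero_mem' := fun ξ _ => ⟨0, by simp⟩
  neg_mem' := by
    intro x hx ξ hξ
    obtain ⟨m, hm⟩ := hx ξ hξ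
    exact ⟨-m, by push_cast; rw [← hm, ← Finset.sum_neg_distrib]; simp⟩

/-- The matrices `(a b; c d)` of the group of level `N` (of type `Γ₁`) with translation lattice
`T`: `a ∈ 𝓞 F`, `b ∈ T`, `c T ⊆ N 𝓞 F`, `d ∈ 1 + N 𝓞 F`, determinant a totally positive unit. -/
def Gam (T : AddSubgroup F) (N : ℕ) (a b c d : F) : Prop :=
  (∃ y : 𝓞 F, a = y) ∧ b ∈ T ∧ (∀ x ∈ T, ∃ y : 𝓞 F, c * x = N * y) ∧
    (∃ y : 𝓞 F, d = 1 + N * y) ∧ ∃ u : (𝓞 F)ˣ, a * d - b * c = ((u : 𝓞 F) : F) ∧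
      TotPos F ((u : 𝓞 F) : F)

/-- The action of `(a b; c d)` by fractional linear maps in every embedding. -/
noncomputable def mob (a b c d : F) (z : (F →+* ℝ) → ℂ) : (F →+* ℝ) → ℂ :=
  fun τ => (((τ a : ℝ) : ℂ) * z τ + ((τ b : ℝ) : ℂ)) / (((τ c : ℝ) : ℂ) * z τ + ((τ d : ℝ) : ℂ))

/-- The norm of `c z + d`. -/
noncomputable def aut (c d : F) (z : (F →+* ℝ) → ℂ) : ℂ :=
  ∏ τ : F →+* ℝ, (((τ c : ℝ) : ℂ) * z τ + ((τ d : ℝ) : ℂ))

/-- Absolute convergence of a Fourier series with coefficients `u` on the set `s`. -/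
def Abs (s : Set F) (u : F → ℂ) : Prop :=
  ∀ y : (F →+* ℝ) → ℝ, (∀ τ, 0 < y τ) →
    Summable fun ξ : s => ‖u ξ‖ * Real.exp (-(2 * Real.pi * ∑ τ : F →+* ℝ, τ (ξ : F) * y τ))

/-- The transformation law of weight `κ` for the group `Gam T N`. -/
def Law (κ : ℕ) (T : AddSubgroup F) (N : ℕ) (f : ((F →+* ℝ) → ℂ) → ℂ) : Prop :=
  ∀ a b c d : F, Gam F T N a b c d → ∀ z ∈ UH F, f (mob F a b c d z) = aut F c d z ^ κ * f z

/-- The growth condition of a cusp form of weight `κ`: `|f (z)| (∏ im z) ^ (κ / 2)` is bounded. -/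
def Cusp (κ : ℕ) (f : ((F →+* ℝ) → ℂ) → ℂ) : Prop :=
  ∃ B : ℝ, ∀ z ∈ UH F, ‖f z‖ * (∏ τ : F →+* ℝ, (z τ).im) ^ ((κ : ℝ) / 2) ≤ B

/-- `C` is the family of Fourier coefficients (indexed by the ideals of `𝓞 F`) of a Hilbert
cusp form over `F` of parallel weight `κ` and level `N`: for every nonzero ideal `𝔟` the series
`qser C 𝔟` converges absolutely and satisfies the transformation law and the growth condition. -/
def IsForm (κ N : ℕ) (C : Ideal (𝓞 F) → ℂ) : Prop :=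
  ∀ 𝔟 : Ideal (𝓞 F), 𝔟 ≠ ⊥ → Abs F (Idx F 𝔟) (fun ξ => C (scale F ξ 𝔟)) ∧
    Law F κ (transl F 𝔟) N (qser F C 𝔟) ∧ Cusp F κ (qser F C 𝔟)

end Forms

section Modular

variable (F : Type*) {L k : Type*} [Field F] [NumberField F] [Field L] [NumberField L]
  [Algebra F L] [Field k]

/-- `A` satisfies the Hecke relations of `ρ` outside `M`: `A(𝓞 F) = 1`, `A(𝔫) = 0` if `𝔫` is not
prime to `M`, and at the maximal ideals `v` not containing `M`, with Frobenius element `s`,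
`A(v 𝔫) = tr ρ(s) A(𝔫)` if `v ∤ 𝔫` and `A(v² 𝔫) = tr ρ(s) A(v 𝔫) - det ρ(s) A(𝔫)`. -/
def IsEigen (ρ : (L ≃ₐ[F] L) →* Matrix.GeneralLinearGroup (Fin 2) k) (M : ℕ)
    (A : Ideal (𝓞 F) → k) : Prop :=
  A ⊤ = 1 ∧
    (∀ v : Ideal (𝓞 F), v.IsMaximal → (M : 𝓞 F) ∈ v → ∀ 𝔫, 𝔫 ≠ ⊥ → A (v * 𝔫) = 0) ∧
    ∀ v : Ideal (𝓞 F), v.IsMaximal → (M : 𝓞 F) ∉ v →
      ∀ (s : L ≃ₐ[F] L) (Q : Ideal (𝓞 L)), WS.IsFrob F s Q v → ∀ 𝔫, 𝔫 ≠ ⊥ →
        (¬ 𝔫 ≤ v → A (v * 𝔫) = Matrix.trace (ρ s : Matrix (Fin 2) (Fin 2) k) * A 𝔫) ∧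
        A (v * (v * 𝔫)) = Matrix.trace (ρ s : Matrix (Fin 2) (Fin 2) k) * A (v * 𝔫) -
          Matrix.det (ρ s : Matrix (Fin 2) (Fin 2) k) * A 𝔫

/-- `ρ` is modular over `F` of weight `κ`: the reduction, under some ring homomorphism from the
algebraic integers to `k`, of some Hilbert cusp form over `F` of parallel weight `κ` with
algebraic integer coefficients is the eigenform attached to `ρ` (depleted at some `M`). -/
def Modular (κ : ℕ) (ρ : (L ≃ₐ[F] L) →* Matrix.GeneralLinearGroup (Fin 2) k) : Prop :=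
  ∃ (M N : ℕ) (C : Ideal (𝓞 F) → integralClosure ℤ ℂ) (φ : integralClosure ℤ ℂ →+* k),
    M ≠ 0 ∧ N ≠ 0 ∧ IsForm F κ N (fun 𝔫 => (C 𝔫 : ℂ)) ∧ IsEigen F ρ M (fun 𝔫 => φ (C 𝔫))

end Modular

/-- Restriction of a representation of `Gal(L/F)` to `Gal(L/F')`. -/
noncomputable def res {F F' L k : Type*} [Field F] [Field F'] [Field L] [Field k]
    [Algebra F F'] [Algebra F L] [Algebra F' L] [IsScalarTower F F' L]
    (ρ : (L ≃ₐ[F] L) →* Matrix.GeneralLinearGroup (Fin 2) k) :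
    (L ≃ₐ[F'] L) →* Matrix.GeneralLinearGroup (Fin 2) k :=
  ρ.comp (AlgEquiv.restrictScalarsHom F)

end Pool.Agent.Helper93.DR
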