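import Pool.Agent.Helper93.DR.Defs

/-!
# Auxiliary definitions for the descent theorem
-/

open scoped NumberField

namespace Pool.Agent.Helper93.DR

section

variable (F : Type*) [Field F] [NumberField F]

/-- A Fourier series with coefficients `u` on the set `s`. -/
noncomputable def fser (s : Set F) (u : F → ℂ) (z : (F →+* ℝ) → ℂ) : ℂ :=
  ∑' ξ : s, u ξ * expo F ξ z

/-- Translation by an element of `F`. -/
noncomputable def shift (β : F) (z : (F →+* ℝ) → ℂ) : (F →+* ℝ) → ℂ :=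
  fun τ => z τ + ((τ β : ℝ) : ℂ)

/-- Division of all coordinates by a natural number. -/
noncomputable def divN (q : ℕ) (z : (F →+* ℝ) → ℂ) : (F →+* ℝ) → ℂ :=
  fun τ => z τ / (q : ℂ)

/-- All `x` with `𝔮 x` contained in the translation lattice of `𝔟`. -/
def translq (𝔟 𝔮 : Ideal (𝓞 F)) : AddSubgroup F where
  carrier := {x | ∀ y ∈ 𝔮, (y : F) * x ∈ transl F 𝔟}
  add_mem' := fun hx hx' y hy => by
    rw [mul_add]; exact (transl F 𝔟).add_mem (hx y hy) (hx' y hy)
  zero_mem' := fun y _ => by rw [mul_zero]; exact (transl F 𝔟).zero_mem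
  neg_mem' := fun hx y hy => by rw [mul_neg]; exact (transl F 𝔟).neg_mem (hx y hy)

/-- The average of `f (z + β)` over `β` in `T₁ / T` (for representatives of the classes). -/
noncomputable def avg (T T₁ : AddSubgroup F) (f : ((F →+* ℝ) → ℂ) → ℂ)
    (z : (F →+* ℝ) → ℂ) : ℂ :=
  ((Nat.card (T₁ ⧸ T.addSubgroupOf T₁) : ℕ) : ℂ)⁻¹ *
    ∑ᶠ x : T₁ ⧸ T.addSubgroupOf T₁, f (shift F ((Quotient.out x : T₁) : F) z)

/-- Multiplication by integers preserves `T`. -/
def OStable (T : AddSubgroup F) : Prop := ∀ (y : 𝓞 F), ∀ x ∈ T, (y : F) * x ∈ T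

end

section Ext

variable (F F' : Type*) [Field F] [NumberField F] [Field F'] [NumberField F'] [Algebra F F']

/-- The diagonal embedding of upper half spaces. -/
def diag (z : (F →+* ℝ) → ℂ) : (F' →+* ℝ) → ℂ := fun τ => z (τ.comp (algebraMap F F'))

/-- The extension of an ideal. -/
abbrev extI (𝔟 : Ideal (𝓞 F)) : Ideal (𝓞 F') := 𝔟.map (algebraMap (𝓞 F) (𝓞 F'))

/-- The elements of `Idx F' 𝔟'` with trace `η`. -/
def Fib (𝔟' : Ideal (𝓞 F')) (η : F) : Set F' := {ζ | ζ ∈ Idx F' 𝔟' ∧ Algebra.trace F F' ζ = η}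

/-- The coefficients of the restriction to the diagonal. -/
noncomputable def pushTr (𝔟' : Ideal (𝓞 F')) (u : F' → ℂ) (η : F) : ℂ :=
  ∑ᶠ ζ ∈ Fib F F' 𝔟' η, u ζ

/-- The coefficients of the descended form: sum of `C'(ζ 𝔫)` over the totally positive `ζ` with
`ζ 𝔫` integral and trace `q`. -/
noncomputable def descend {R : Type*} [AddCommMonoid R] (q : ℕ) (C' : Ideal (𝓞 F') → R)
    (𝔫 : Ideal (𝓞 F)) : R :=
  ∑ᶠ ζ ∈ Fib F F' (extI F F' 𝔫) (q : F), C' (scale F' ζ (extI F F' 𝔫))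

end Ext

/-- The complete symmetric polynomials of the eigenvalues in terms of trace and determinant. -/
def hrec {R : Type*} [CommRing R] (t δ : R) : ℕ → R
  | 0 => 1
  | 1 => t
  | (j + 2) => t * hrec t δ (j + 1) - δ * hrec t δ j

end Pool.Agent.Helper93.DR
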