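import Pool.Agent.Helper93.DR.Fib

/-!
# The coefficients of the descended form
-/

open scoped NumberField

namespace Pool.Agent.Helper93.DR

variable {F F' : Type*} [Field F] [NumberField F] [Field F'] [NumberField F'] [Algebra F F']

private theorem exists_realEmb (K : Type*) [Field K] [NumberField K]
    [NumberField.IsTotallyReal K] : Nonempty (K →+* ℝ) := by
  obtain ⟨φ⟩ : Nonempty (K →+* ℂ) := inferInstance
  exact ⟨(NumberField.IsTotallyReal.complexEmbedding_isReal φ).embedding⟩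

omit [NumberField F] in
private theorem totPos_ne_zero {x : F} (h : TotPos F x) (τ : F →+* ℝ) : x ≠ 0 := by
  rintro rfl
  have h1 := h τ
  rw [map_zero] at h1
  exact lt_irrefl _ h1

theorem scale_ne_bot [NumberField.IsTotallyReal F] {𝔟 : Ideal (𝓞 F)} (hb : 𝔟 ≠ ⊥) {ξ : F}
    (hξ : ξ ∈ Idx F 𝔟) : scale F ξ 𝔟 ≠ ⊥ := by
  obtain ⟨τ⟩ := exists_realEmb F
  have h0 : ξ ≠ 0 := totPos_ne_zero hξ.1 τ
  obtain ⟨x, hx, hx0⟩ := Submodule.exists_mem_ne_zero_of_ne_bot hb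
  obtain ⟨y, hy⟩ := hξ.2 x hx
  intro h
  have h1 : y ∈ scale F ξ 𝔟 := ⟨x, hx, hy.symm⟩
  rw [h, Ideal.mem_bot] at h1
  rw [h1] at hy
  have hx1 : (x : F) ≠ 0 := fun h2 => hx0 (NumberField.RingOfIntegers.coe_eq_zero_iff.1 h2)
  exact mul_ne_zero h0 hx1 (hy.trans (map_zero (algebraMap (𝓞 F) F)))

/-- An element of the extension of `ξ 𝔟` is `ξ` times an element of the extension of `𝔟`. -/
private theorem mem_ext_scale {𝔟 : Ideal (𝓞 F)} {ξ : F} (w : 𝓞 F')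
    (hw : w ∈ extI F F' (scale F ξ 𝔟)) :
    ∃ v ∈ extI F F' 𝔟, (w : F') = algebraMap F F' ξ * (v : F') := by
  induction hw using Submodule.span_induction with
  | mem w hw =>
    obtain ⟨x, ⟨y, hy, hxy⟩, rfl⟩ := hw
    refine ⟨algebraMap (𝓞 F) (𝓞 F') y, Ideal.mem_map_of_mem _ hy, ?_⟩
    change algebraMap F F' (x : F) = algebraMap F F' ξ * algebraMap F F' (y : F)
    rw [hxy, map_mul]
  | zero => exact ⟨0, Ideal.zero_mem _, by simp⟩
  | add w w' _ _ h h' =>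
    obtain ⟨v, hv, h⟩ := h
    obtain ⟨v', hv', h'⟩ := h'
    refine ⟨v + v', Ideal.add_mem _ hv hv', ?_⟩
    change (w : F') + (w' : F') = algebraMap F F' ξ * ((v : F') + (v' : F'))
    rw [h, h', mul_add]
  | smul c w _ h =>
    obtain ⟨v, hv, h⟩ := h
    refine ⟨c * v, Ideal.mul_mem_left _ c hv, ?_⟩
    change (c : F') * (w : F') = algebraMap F F' ξ * ((c : F') * (v : F'))
    rw [h, mul_left_comm]

/-- If `ξ 𝔟` is integral, `ξ` times an element of the extension of `𝔟` is in the extension of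
`ξ 𝔟`. -/
private theorem ext_scale_mem {𝔟 : Ideal (𝓞 F)} {ξ : F} (hξ : ξ ∈ Idx F 𝔟) (v : 𝓞 F')
    (hv : v ∈ extI F F' 𝔟) :
    ∃ w ∈ extI F F' (scale F ξ 𝔟), (w : F') = algebraMap F F' ξ * (v : F') := by
  induction hv using Submodule.span_induction with
  | mem v hv =>
    obtain ⟨y, hy, rfl⟩ := hv
    obtain ⟨x, hx⟩ := hξ.2 y hy
    refine ⟨algebraMap (𝓞 F) (𝓞 F') x, Ideal.mem_map_of_mem _ ⟨y, hy, hx.symm⟩, ?_⟩
    change algebraMap F F' (x : F) = algebraMap F F' ξ * algebraMap F F' (y : F)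
    rw [← hx, map_mul]
  | zero => exact ⟨0, Ideal.zero_mem _, by simp⟩
  | add v v' _ _ h h' =>
    obtain ⟨w, hw, h⟩ := h
    obtain ⟨w', hw', h'⟩ := h'
    refine ⟨w + w', Ideal.add_mem _ hw hw', ?_⟩
    change (w : F') + (w' : F') = algebraMap F F' ξ * ((v : F') + (v' : F'))
    rw [h, h', mul_add]
  | smul c v _ h =>
    obtain ⟨w, hw, h⟩ := h
    refine ⟨c * w, Ideal.mul_mem_left _ c hw, ?_⟩
    change (c : F') * (w : F') = algebraMap F F' ξ * ((c : F') * (v : F'))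
    rw [h, mul_left_comm]

/-- Scaling in two steps. -/
private theorem scale_scale {𝔟 : Ideal (𝓞 F)} {ξ : F} (hξ : ξ ∈ Idx F 𝔟) (ζ : F') :
    scale F' (algebraMap F F' ξ * ζ) (extI F F' 𝔟) = scale F' ζ (extI F F' (scale F ξ 𝔟)) := by
  ext x
  constructor
  · rintro ⟨v, hv, hx⟩
    obtain ⟨w, hw, hwv⟩ := ext_scale_mem hξ v hv
    refine ⟨w, hw, ?_⟩
    rw [hx, hwv]
    ring
  · rintro ⟨w, hw, hx⟩
    obtain ⟨v, hv, hwv⟩ := mem_ext_scale w hw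
    refine ⟨v, hv, ?_⟩
    rw [hx, hwv]
    ring

theorem pushTr_scale [NumberField.IsTotallyReal F'] {𝔟 : Ideal (𝓞 F)} (hb : 𝔟 ≠ ⊥) {q : ℕ}
    (hq : q ≠ 0) (C' : Ideal (𝓞 F') → ℂ) {ξ : F} (hξ : ξ ∈ Idx F 𝔟) :
    pushTr F F' (extI F F' 𝔟) (fun ζ => C' (scale F' ζ (extI F F' 𝔟))) ((q : F) * ξ) =
      descend F F' q C' (scale F ξ 𝔟) := by
  obtain ⟨τ₀⟩ := exists_realEmb F'
  have h0 : ξ ≠ 0 := totPos_ne_zero hξ.1 (τ₀.comp (algebraMap F F'))
  have h0' : algebraMap F F' ξ ≠ 0 := (map_ne_zero _).2 h0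
  unfold pushTr descend
  symm
  refine finsum_mem_eq_of_bijOn (fun ζ => algebraMap F F' ξ * ζ) ⟨?_, ?_, ?_⟩ ?_
  · rintro ζ ⟨⟨hpos, hint⟩, htr⟩
    refine ⟨⟨fun τ => ?_, fun v hv => ?_⟩, ?_⟩
    · rw [map_mul]
      exact mul_pos (hξ.1 (τ.comp (algebraMap F F'))) (hpos τ)
    · obtain ⟨w, hw, hwv⟩ := ext_scale_mem hξ v hv
      obtain ⟨y, hy⟩ := hint w hw
      refine ⟨y, ?_⟩
      rw [← hy, hwv]
      ring
    · change Algebra.trace F F' (algebraMap F F' ξ * ζ) = (q : F) * ξ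
      rw [← Algebra.smul_def, map_smul, htr, smul_eq_mul, mul_comm]
  · intro ζ _ ζ' _ h
    exact mul_left_cancel₀ h0' h
  · rintro ζ ⟨⟨hpos, hint⟩, htr⟩
    refine ⟨(algebraMap F F' ξ)⁻¹ * ζ, ⟨⟨fun τ => ?_, fun w hw => ?_⟩, ?_⟩, ?_⟩
    · rw [map_mul, map_inv₀]
      exact mul_pos (inv_pos.2 (hξ.1 (τ.comp (algebraMap F F')))) (hpos τ)
    · obtain ⟨v, hv, hwv⟩ := mem_ext_scale w hw
      obtain ⟨y, hy⟩ := hint v hv
      refine ⟨y, ?_⟩
      rw [← hy, hwv]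
      field_simp
    · rw [← map_inv₀, ← Algebra.smul_def, map_smul, htr, smul_eq_mul]
      field_simp
    · change algebraMap F F' ξ * ((algebraMap F F' ξ)⁻¹ * ζ) = ζ
      rw [mul_inv_cancel_left₀ h0']
  · intro ζ _
    rw [scale_scale hξ]

end Pool.Agent.Helper93.DR
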