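import Pool.Agent.Helper93.DR.Dual

/-!
# Restriction to the diagonal
-/

open scoped NumberField

namespace Pool.Agent.Helper93.DR

variable {F F' : Type*} [Field F] [NumberField F] [Field F'] [NumberField F'] [Algebra F F']

theorem diag_mem {z : (F →+* ℝ) → ℂ} (hz : z ∈ UH F) : diag F F' z ∈ UH F' := by
  intro τ
  exact hz (τ.comp (algebraMap F F'))

theorem diag_mob (a b c d : F) (z : (F →+* ℝ) → ℂ) :
    mob F' (algebraMap F F' a) (algebraMap F F' b) (algebraMap F F' c) (algebraMap F F' d)
      (diag F F' z) = diag F F' (mob F a b c d z) := by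
  funext τ
  rfl

theorem totPos_map {x : F} (h : TotPos F x) : TotPos F' (algebraMap F F' x) := by
  intro τ
  exact h (τ.comp (algebraMap F F'))

/-- Real embeddings of `F'` above `σ` correspond to the embeddings of `F'` in `ℂ` over `F`. -/
private theorem dtr_fiber [NumberField.IsTotallyReal F'] (σ : F →+* ℝ) (ζ : F') :
    haveI : DecidableEq (F →+* ℝ) := Classical.decEq _
    ∑ τ : F' →+* ℝ with τ.comp (algebraMap F F') = σ, τ ζ = σ (Algebra.trace F F' ζ) := by
  classical
  letI : Algebra F ℂ := (Complex.ofRealHom.comp σ).toAlgebra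
  have h := trace_eq_sum_embeddings ℂ (K := F) (L := F') (x := ζ)
  have halg : ∀ x : F, algebraMap F ℂ x = ((σ x : ℝ) : ℂ) := fun x => rfl
  rw [halg] at h
  have h2 : ((∑ τ : F' →+* ℝ with τ.comp (algebraMap F F') = σ, τ ζ : ℝ) : ℂ) =
      ((σ (Algebra.trace F F' ζ) : ℝ) : ℂ) := by
    rw [h, Complex.ofReal_sum]
    refine Finset.sum_bij' (fun τ hτ => (⟨Complex.ofRealHom.comp τ, fun x => by
        rw [halg]
        have h3 : τ.comp (algebraMap F F') = σ := by simpa using hτ
        rw [← h3]
        rfl⟩ : F' →ₐ[F] ℂ))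
      (fun φ _ => (NumberField.IsTotallyReal.complexEmbedding_isReal φ.toRingHom).embedding)
      ?_ ?_ ?_ ?_ ?_
    · intro τ hτ
      exact Finset.mem_univ _
    · intro φ _
      rw [Finset.mem_filter]
      refine ⟨Finset.mem_univ _, RingHom.ext fun x => ?_⟩
      apply Complex.ofReal_injective
      rw [RingHom.comp_apply, NumberField.ComplexEmbedding.IsReal.coe_embedding_apply, ← halg]
      exact φ.commutes x
    · intro τ hτ
      refine RingHom.ext fun x => ?_
      apply Complex.ofReal_injective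
      rw [NumberField.ComplexEmbedding.IsReal.coe_embedding_apply]
      rfl
    · intro φ _
      refine AlgHom.ext fun x => ?_
      exact NumberField.ComplexEmbedding.IsReal.coe_embedding_apply _ x
    · intro τ hτ
      rfl
  exact Complex.ofReal_injective h2

/-- Every real embedding of `F` has `[F' : F]` extensions to the totally real field `F'`. -/
private theorem dcard_fiber [NumberField.IsTotallyReal F'] (σ : F →+* ℝ) :
    haveI : DecidableEq (F →+* ℝ) := Classical.decEq _
    (Finset.univ.filter fun τ : F' →+* ℝ => τ.comp (algebraMap F F') = σ).card =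
      Module.finrank F F' := by
  classical
  have h := dtr_fiber (F' := F') σ 1
  rw [← map_one (algebraMap F F'), Algebra.trace_algebraMap, nsmul_eq_mul, mul_one,
    map_natCast] at h
  simp only [map_one, Finset.sum_const, nsmul_eq_mul, mul_one] at h
  exact_mod_cast h

private theorem dfiber_nonempty [NumberField.IsTotallyReal F'] (σ : F →+* ℝ) :
    ∃ τ : F' →+* ℝ, τ.comp (algebraMap F F') = σ := by
  classical
  have h := dcard_fiber (F' := F') σ
  have h1 : 0 < Module.finrank F F' := Module.finrank_pos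
  rw [← h, Finset.card_pos] at h1
  obtain ⟨τ, hτ⟩ := h1
  exact ⟨τ, by simpa using hτ⟩

theorem totPos_of_map [NumberField.IsTotallyReal F'] {x : F}
    (h : TotPos F' (algebraMap F F' x)) : TotPos F x := by
  intro σ
  obtain ⟨τ, hτ⟩ := dfiber_nonempty (F' := F') σ
  have h1 := h τ
  rw [← hτ]
  exact h1

theorem totallyReal_base [NumberField.IsTotallyReal F'] : NumberField.IsTotallyReal F :=
  NumberField.IsTotallyReal.of_algebra F F'

theorem aut_diag [NumberField.IsTotallyReal F'] (c d : F) (z : (F →+* ℝ) → ℂ) :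
    aut F' (algebraMap F F' c) (algebraMap F F' d) (diag F F' z) =
      aut F c d z ^ Module.finrank F F' := by
  classical
  unfold aut
  rw [← Finset.prod_pow, ← Finset.prod_fiberwise (Finset.univ : Finset (F' →+* ℝ))
    (fun τ : F' →+* ℝ => τ.comp (algebraMap F F'))]
  refine Finset.prod_congr rfl fun σ _ => ?_
  rw [← dcard_fiber (F' := F') σ, ← Finset.prod_const]
  refine Finset.prod_congr rfl fun τ hτ => ?_
  have h3 : τ.comp (algebraMap F F') = σ := by simpa using hτ
  rw [← h3]
  rfl

theorem expo_diag [NumberField.IsTotallyReal F'] (ζ : F') (z : (F →+* ℝ) → ℂ) :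
    expo F' ζ (diag F F' z) = expo F (Algebra.trace F F' ζ) z := by
  classical
  unfold expo
  congr 2
  rw [← Finset.sum_fiberwise (Finset.univ : Finset (F' →+* ℝ))
    (fun τ : F' →+* ℝ => τ.comp (algebraMap F F'))]
  refine Finset.sum_congr rfl fun σ _ => ?_
  rw [← dtr_fiber (F' := F') σ ζ, Complex.ofReal_sum, Finset.sum_mul]
  refine Finset.sum_congr rfl fun τ hτ => ?_
  have h3 : τ.comp (algebraMap F F') = σ := by simpa using hτ
  unfold diag
  rw [h3]

theorem im_diag [NumberField.IsTotallyReal F'] (z : (F →+* ℝ) → ℂ) :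
    ∏ τ : F' →+* ℝ, (diag F F' z τ).im = (∏ τ : F →+* ℝ, (z τ).im) ^ Module.finrank F F' := by
  classical
  rw [← Finset.prod_pow, ← Finset.prod_fiberwise (Finset.univ : Finset (F' →+* ℝ))
    (fun τ : F' →+* ℝ => τ.comp (algebraMap F F'))]
  refine Finset.prod_congr rfl fun σ _ => ?_
  rw [← dcard_fiber (F' := F') σ, ← Finset.prod_const]
  refine Finset.prod_congr rfl fun τ hτ => ?_
  have h3 : τ.comp (algebraMap F F') = σ := by simpa using hτ
  rw [← h3]
  rfl

theorem diag_bdd [NumberField.IsTotallyReal F'] {κ : ℕ} {f : ((F' →+* ℝ) → ℂ) → ℂ}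
    (h : Cusp F' κ f) : Cusp F (κ * Module.finrank F F') (fun z => f (diag F F' z)) := by
  obtain ⟨B, hB⟩ := h
  refine ⟨B, fun z hz => ?_⟩
  have h1 := hB (diag F F' z) (diag_mem hz)
  have h2 : (0 : ℝ) ≤ ∏ τ : F →+* ℝ, (z τ).im := Finset.prod_nonneg fun τ _ => (hz τ).le
  rw [im_diag, ← Real.rpow_natCast_mul h2] at h1
  have h3 : ((κ * Module.finrank F F' : ℕ) : ℝ) / 2 = (Module.finrank F F' : ℝ) * ((κ : ℝ) / 2) := by
    push_cast
    ring
  rw [h3]
  exact h1

end Pool.Agent.Helper93.DR
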