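import Pool.Agent.Helper93.DR.Inv

/-!
# From the eigenform over `F'` to the eigenform over `F`
-/

set_option linter.unusedSectionVars false

open scoped NumberField Pointwise

namespace Pool.Agent.Helper93.DR

variable {k : Type*} [Field k] {F F' L : Type*}
  [Field F] [NumberField F] [Field F'] [NumberField F'] [Field L] [NumberField L]
  [Algebra F F'] [Algebra F L] [Algebra F' L] [IsScalarTower F F' L]
  [IsGalois F F'] [IsGalois F L]

omit [IsGalois F F'] in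
private lemma extI_ne_bot {𝔫 : Ideal (𝓞 F)} (h : 𝔫 ≠ ⊥) : extI F F' 𝔫 ≠ ⊥ := by
  intro h1
  exact h ((Ideal.map_eq_bot_iff_of_injective
    (FaithfulSMul.algebraMap_injective (𝓞 F) (𝓞 F'))).1 h1)

private lemma prod_down {ι : Type*} (W : Finset ι) (f : Ideal (𝓞 F') → k)
    (w : ι → Ideal (𝓞 F')) (n0 : Ideal (𝓞 F')) (c : k) (b : ℕ)
    (hstep : ∀ i ∈ W, ∀ V : Finset ι, V ⊆ W → i ∉ V →
      f (w i ^ b * ((∏ j ∈ V, w j ^ b) * n0)) = c * f ((∏ j ∈ V, w j ^ b) * n0)) :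
    f ((∏ j ∈ W, w j ^ b) * n0) = c ^ W.card * f n0 := by
  classical
  have key : ∀ V : Finset ι, V ⊆ W → f ((∏ j ∈ V, w j ^ b) * n0) = c ^ V.card * f n0 := by
    intro V
    induction V using Finset.induction_on with
    | empty => intro _; simp
    | insert i V hi ih =>
      intro hV
      have hV' : V ⊆ W := fun j hj => hV (Finset.mem_insert_of_mem hj)
      rw [Finset.prod_insert hi, Finset.card_insert_of_notMem hi, mul_assoc,
        hstep i (hV (Finset.mem_insert_self i V)) V hV' hi, ih hV', pow_succ]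
      ring
  exact key W subset_rfl

omit [IsGalois F F'] [IsGalois F L] in
private lemma eigen_ext (ρ : (L ≃ₐ[F] L) →* Matrix.GeneralLinearGroup (Fin 2) k) {M : ℕ}
    {A' : Ideal (𝓞 F') → k} (h : IsEigen F' (res (F' := F') ρ) M A') {p : ℕ} [Fact p.Prime]
    [CharP k p] {v : Ideal (𝓞 F)} (hM : (M : 𝓞 F) ∉ v) {t δ : k}
    {W : Finset (Ideal (𝓞 F'))} {i : ℕ} (hW : extI F F' v = ∏ w ∈ W, w)
    (hW2 : ∀ w ∈ W, w.IsMaximal ∧ w.comap (algebraMap (𝓞 F) (𝓞 F')) = v ∧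
        ∃ (s' : L ≃ₐ[F'] L) (Q' : Ideal (𝓞 L)), WS.IsFrob F' s' Q' w ∧
          Matrix.trace (res (F' := F') ρ s' : Matrix (Fin 2) (Fin 2) k) = t ^ p ^ i ∧
          Matrix.det (res (F' := F') ρ s' : Matrix (Fin 2) (Fin 2) k) = δ ^ p ^ i)
    {n0 : Ideal (𝓞 F)} (h0 : n0 ≠ ⊥) (h1 : ¬ n0 ≤ v) (b : ℕ) :
    A' (extI F F' (v ^ b * n0)) = hrec t δ b ^ (p ^ i * W.card) * A' (extI F F' n0) := by
  have e1 : extI F F' (v ^ b * n0) = (∏ w ∈ W, w ^ b) * extI F F' n0 := by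
    unfold extI at hW ⊢
    rw [Ideal.map_mul, Ideal.map_pow, hW, Finset.prod_pow]
  rw [e1, pow_mul, ← hrec_pow (k := k) i t δ b]
  refine prod_down W A' (fun w => w) (extI F F' n0) _ b ?_
  intro w hw V hV hwV
  obtain ⟨hmax, hcomap, s', Q', hF, htr, hdet⟩ := hW2 w hw
  have hMw : (M : 𝓞 F') ∉ w := by
    intro hcon
    apply hM
    rw [← hcomap, Ideal.mem_comap, map_natCast]
    exact hcon
  have hprime : w.IsPrime := hmax.isPrime
  have hbot : ∀ w' ∈ W, w' ≠ ⊥ := fun w' hw' =>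
    Ring.ne_bot_of_isMaximal_of_not_isField (hW2 w' hw').1
      (NumberField.RingOfIntegers.not_isField F')
  have hne : (∏ j ∈ V, j ^ b) * extI F F' n0 ≠ ⊥ := by
    have h3 : (∏ j ∈ V, j ^ b) ≠ (0 : Ideal (𝓞 F')) := by
      refine Finset.prod_ne_zero_iff.2 fun j hj => pow_ne_zero _ ?_
      exact hbot j (hV hj)
    exact mul_ne_zero h3 (extI_ne_bot h0)
  have hnle : ¬ (∏ j ∈ V, j ^ b) * extI F F' n0 ≤ w := by
    intro hcon
    rcases (Ideal.IsPrime.mul_le hprime).1 hcon with h3 | h3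
    · obtain ⟨j, hj, hjw⟩ := (Ideal.IsPrime.prod_le hprime).1 h3
      have h4 : j ≤ w := Ideal.IsPrime.le_of_pow_le hjw
      have h5 : j = w := (hW2 j (hV hj)).1.eq_of_le hmax.ne_top h4
      exact hwV (h5 ▸ hj)
    · apply h1
      rw [← hcomap]
      exact Ideal.map_le_iff_le_comap.1 h3
  have h6 := eigen_pow h hmax hMw hF hne hnle b
  rw [htr, hdet] at h6
  exact h6

/-- The coefficients at the extended ideals are the `q`-th powers of an eigenform of `ρ`. -/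
theorem eigen_down {p : ℕ} [Fact p.Prime] [CharP k p] [IsAlgClosed k]
    (hP : IsPGroup p (F' ≃ₐ[F] F'))
    (ρ : (L ≃ₐ[F] L) →* Matrix.GeneralLinearGroup (Fin 2) k) {M : ℕ} (hM0 : M ≠ 0)
    (hram : ∀ Q : Ideal (𝓞 L), Q.IsMaximal → (M : 𝓞 L) ∉ Q → ∀ τ : L ≃ₐ[F] L,
      (∀ x : 𝓞 L, τ • x - x ∈ Q) → τ = 1)
    {A' : Ideal (𝓞 F') → k} (h : IsEigen F' (res (F' := F') ρ) M A') :
    ∃ r : ℕ, Module.finrank F F' = p ^ r ∧
      IsEigen F ρ M (fun 𝔫 => (frobeniusEquiv k p).symm^[r] (A' (extI F F' 𝔫))) := by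
  classical
  have : FiniteDimensional F F' := Module.Finite.of_restrictScalars_finite ℚ F F'
  obtain ⟨r, hr⟩ := IsPGroup.iff_card.1 hP
  rw [IsGalois.card_aut_eq_finrank] at hr
  refine ⟨r, hr, ?_⟩
  set ψ : k → k := (frobeniusEquiv k p).symm^[r] with hψ
  have ψmul : ∀ x y, ψ (x * y) = ψ x * ψ y := fun x y =>
    iterate_map_mul (frobeniusEquiv k p).symm r x y
  have ψsub : ∀ x y, ψ (x - y) = ψ x - ψ y := fun x y =>
    iterate_map_sub (frobeniusEquiv k p).symm r x y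
  have ψone : ψ 1 = 1 := iterate_map_one (frobeniusEquiv k p).symm r
  have ψzero : ψ 0 = 0 := iterate_map_zero (frobeniusEquiv k p).symm r
  have ψpow : ∀ x, ψ (x ^ p ^ r) = x := by
    intro x
    have h1 : ψ (x ^ p ^ r) = ψ x ^ p ^ r := iterate_map_pow (frobeniusEquiv k p).symm r x _
    rw [h1]
    exact iterate_frobeniusEquiv_symm_pow_p_pow k p x r
  refine ⟨?_, ?_, ?_⟩
  · change ψ (A' (extI F F' ⊤)) = 1
    unfold extI
    rw [Ideal.map_top, h.1, ψone]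
  · intro v hv hMv 𝔫 hn
    change ψ (A' (extI F F' (v * 𝔫))) = 0
    have hv0 : v ≠ ⊥ := Ring.ne_bot_of_isMaximal_of_not_isField hv
      (NumberField.RingOfIntegers.not_isField F)
    obtain ⟨w, hw, hwv⟩ := Ideal.exists_maximal_ideal_liesOver_of_isIntegral (S := 𝓞 F') v
    have hle : extI F F' v ≤ w := Ideal.map_le_iff_le_comap.2 (by
      rw [← Ideal.under_def, ← hwv.over])
    obtain ⟨c, hc⟩ := Ideal.dvd_iff_le.2 hle
    have hc0 : c ≠ ⊥ := by
      rintro rfl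
      rw [Ideal.mul_bot] at hc
      exact extI_ne_bot hv0 hc
    have hMw : (M : 𝓞 F') ∈ w := by
      apply hle
      have h1 := Ideal.mem_map_of_mem (algebraMap (𝓞 F) (𝓞 F')) hMv
      rw [map_natCast] at h1
      exact h1
    have h2 : extI F F' (v * 𝔫) = w * (c * extI F F' 𝔫) := by
      rw [← mul_assoc, ← hc]
      exact Ideal.map_mul _ _ _
    rw [h2, h.2.1 w hw hMw _ (mul_ne_zero hc0 (extI_ne_bot hn)), ψzero]
  · intro v hv hMv s Q hs 𝔫 hn
    obtain ⟨W, i, hW, hcard, hW2⟩ := frob_over (F' := F') hP ρ hram hv hMv hs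
    set t : k := Matrix.trace (ρ s : Matrix (Fin 2) (Fin 2) k) with ht
    set δ : k := Matrix.det (ρ s : Matrix (Fin 2) (Fin 2) k) with hδ
    have key : ∀ n0 : Ideal (𝓞 F), n0 ≠ ⊥ → ¬ n0 ≤ v → ∀ b : ℕ,
        ψ (A' (extI F F' (v ^ b * n0))) = hrec t δ b * ψ (A' (extI F F' n0)) := by
      intro n0 h0 h1 b
      rw [eigen_ext ρ h hMv hW hW2 h0 h1 b, hcard, hr, ψmul, ψpow]
    change (¬ 𝔫 ≤ v → ψ (A' (extI F F' (v * 𝔫))) = t * ψ (A' (extI F F' 𝔫))) ∧
      ψ (A' (extI F F' (v * (v * 𝔫)))) = t * ψ (A' (extI F F' (v * 𝔫))) -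
        δ * ψ (A' (extI F F' 𝔫))
    constructor
    · intro h1
      have h2 := key 𝔫 hn h1 1
      rw [pow_one] at h2
      exact h2
    · obtain ⟨a, n0, hnd, rfl⟩ := WfDvdMonoid.max_power_factor' (x := v) hn (fun hu =>
        hv.ne_top (Ideal.isUnit_iff.1 hu))
      have h0 : n0 ≠ ⊥ := by
        rintro rfl
        exact hn (Ideal.mul_bot _)
      have h1 : ¬ n0 ≤ v := fun hcon => hnd (Ideal.dvd_iff_le.2 hcon)
      have e1 : v * (v * (v ^ a * n0)) = v ^ (a + 2) * n0 := by ring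
      have e2 : v * (v ^ a * n0) = v ^ (a + 1) * n0 := by ring
      rw [e1, e2, key n0 h0 h1 (a + 2), key n0 h0 h1 (a + 1), key n0 h0 h1 a]
      change (t * hrec t δ (a + 1) - δ * hrec t δ a) * _ = _
      ring

end Pool.Agent.Helper93.DR
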