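import Pool.Agent.Helper93.DR.Mob

/-!
# The translation lattices and duality
-/

open scoped NumberField nonZeroDivisors

namespace Pool.Agent.Helper93.DR

variable {F : Type*} [Field F] [NumberField F]

/-- For a totally real field the sum over the real embeddings is the trace. -/
theorem sum_eq_trace [NumberField.IsTotallyReal F] (x : F) :
    ∑ τ : F →+* ℝ, τ x = ((Algebra.trace ℚ F x : ℚ) : ℝ) := by
  have h := trace_eq_sum_embeddings (K := ℚ) (L := F) (E := ℂ) (x := x)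
  have h2 : ∑ τ : F →+* ℝ, ((τ x : ℝ) : ℂ) = ∑ σ : F →ₐ[ℚ] ℂ, σ x := by
    refine Fintype.sum_bijective (fun τ : F →+* ℝ => (Complex.ofRealHom.comp τ).toRatAlgHom)
      ⟨?_, ?_⟩ _ _ ?_
    · intro τ τ' hτ
      ext y
      have h3 := DFunLike.congr_fun hτ y
      have h4 : ((τ y : ℝ) : ℂ) = ((τ' y : ℝ) : ℂ) := h3
      exact Complex.ofReal_injective h4
    · intro σ
      have hr : NumberField.ComplexEmbedding.IsReal (σ : F →+* ℂ) :=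
        NumberField.IsTotallyReal.complexEmbedding_isReal _
      refine ⟨hr.embedding, ?_⟩
      ext y
      exact NumberField.ComplexEmbedding.IsReal.coe_embedding_apply hr y
    · intro τ
      rfl
  apply Complex.ofReal_injective
  rw [Complex.ofReal_sum, h2, ← h]
  simp

private theorem int_iff [NumberField.IsTotallyReal F] (x y : F) :
    (∃ m : ℤ, ∑ τ : F →+* ℝ, τ (x * y) = m) ↔
      Algebra.traceForm ℚ F x y ∈ (algebraMap ℤ ℚ).range := by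
  rw [sum_eq_trace, Algebra.traceForm_apply]
  constructor
  · rintro ⟨m, hm⟩
    refine ⟨m, ?_⟩
    have h : ((m : ℚ) : ℝ) = ((Algebra.trace ℚ F (x * y) : ℚ) : ℝ) := by
      rw [hm]; simp
    have h2 := Rat.cast_injective h
    simpa using h2
  · rintro ⟨m, hm⟩
    refine ⟨m, ?_⟩
    rw [← hm]
    simp

private theorem coe_ne {𝔟 : Ideal (𝓞 F)} (hb : 𝔟 ≠ ⊥) : (𝔟 : FractionalIdeal (𝓞 F)⁰ F) ≠ 0 :=
  FractionalIdeal.coeIdeal_ne_zero.mpr hb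

private theorem mem_coe (𝔟 : Ideal (𝓞 F)) (x : F) :
    x ∈ (𝔟 : FractionalIdeal (𝓞 F)⁰ F) ↔ ∃ y ∈ 𝔟, (y : F) = x :=
  FractionalIdeal.mem_coeIdeal _

private theorem mem_inv' {𝔟 : Ideal (𝓞 F)} (hb : 𝔟 ≠ ⊥) (ξ : F) :
    ξ ∈ (𝔟 : FractionalIdeal (𝓞 F)⁰ F)⁻¹ ↔ ∀ y ∈ 𝔟, ∃ m : 𝓞 F, ξ * y = m := by
  rw [FractionalIdeal.mem_inv_iff (coe_ne hb)]
  constructor
  · intro h y hy
    have h2 := h (y : F) ((mem_coe 𝔟 _).2 ⟨y, hy, rfl⟩)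
    obtain ⟨m, hm⟩ := (FractionalIdeal.mem_one_iff _).1 h2
    exact ⟨m, hm.symm⟩
  · intro h y hy
    obtain ⟨z, hz, rfl⟩ := (mem_coe 𝔟 _).1 hy
    obtain ⟨m, hm⟩ := h z hz
    exact (FractionalIdeal.mem_one_iff _).2 ⟨m, hm.symm⟩

private theorem mem_transl [NumberField.IsTotallyReal F] {𝔟 : Ideal (𝓞 F)} (hb : 𝔟 ≠ ⊥)
    (x : F) : x ∈ transl F 𝔟 ↔
      x ∈ FractionalIdeal.dual ℤ ℚ (𝔟 : FractionalIdeal (𝓞 F)⁰ F)⁻¹ := by
  rw [FractionalIdeal.mem_dual (inv_ne_zero (coe_ne hb))]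
  constructor
  · intro h ξ hξ
    have h2 := h ξ ((mem_inv' hb ξ).1 hξ)
    rw [mul_comm] at h2
    exact (int_iff x ξ).1 h2
  · intro h ξ hξ
    have h2 := (int_iff x ξ).2 (h ξ ((mem_inv' hb ξ).2 hξ))
    rw [mul_comm] at h2
    exact h2

private theorem mem_translq [NumberField.IsTotallyReal F] {𝔟 𝔮 : Ideal (𝓞 F)} (hb : 𝔟 ≠ ⊥)
    (hq : 𝔮 ≠ ⊥) (x : F) : x ∈ translq F 𝔟 𝔮 ↔
      x ∈ FractionalIdeal.dual ℤ ℚ
        ((𝔮 : FractionalIdeal (𝓞 F)⁰ F) / (𝔟 : FractionalIdeal (𝓞 F)⁰ F)) := by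
  have h0 : FractionalIdeal.dual ℤ ℚ
        ((𝔮 : FractionalIdeal (𝓞 F)⁰ F) / (𝔟 : FractionalIdeal (𝓞 F)⁰ F)) =
      FractionalIdeal.dual ℤ ℚ (𝔟 : FractionalIdeal (𝓞 F)⁰ F)⁻¹ /
        (𝔮 : FractionalIdeal (𝓞 F)⁰ F) := by
    rw [FractionalIdeal.dual_eq_mul_inv, FractionalIdeal.dual_inv, inv_div, mul_div_assoc]
  rw [h0, FractionalIdeal.mem_div_iff_of_ne_zero (coe_ne hq)]
  constructor
  · intro h y hy
    obtain ⟨z, hz, rfl⟩ := (mem_coe 𝔮 _).1 hy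
    have h2 := h z hz
    rw [mem_transl hb, mul_comm] at h2
    exact h2
  · intro h y hy
    rw [mem_transl hb, mul_comm]
    exact h _ ((mem_coe 𝔮 _).2 ⟨y, hy, rfl⟩)

theorem transl_stable (𝔟 : Ideal (𝓞 F)) : OStable F (transl F 𝔟) := by
  intro y x hx ξ hξ
  have h : ∀ z ∈ 𝔟, ∃ m : 𝓞 F, (ξ * (y : F)) * z = m := by
    intro z hz
    obtain ⟨m, hm⟩ := hξ z hz
    refine ⟨y * m, ?_⟩
    change ξ * (y : F) * (z : F) = (y : F) * (m : F)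
    rw [← hm]
    ring
  have h2 := hx _ h
  rw [mul_assoc] at h2
  exact h2

theorem translq_stable (𝔟 𝔮 : Ideal (𝓞 F)) : OStable F (translq F 𝔟 𝔮) := by
  intro y x hx z hz
  have h := transl_stable 𝔟 y _ (hx z hz)
  rw [mul_left_comm] at h
  exact h

theorem transl_le (𝔟 𝔮 : Ideal (𝓞 F)) : transl F 𝔟 ≤ translq F 𝔟 𝔮 := by
  intro x hx y _
  exact transl_stable 𝔟 y x hx

/-- Duality: the elements pairing integrally with `translq 𝔟 𝔮` are those which map `𝔟` into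
`𝔮`. -/
theorem dual_iff [NumberField.IsTotallyReal F] {𝔟 𝔮 : Ideal (𝓞 F)} (hb : 𝔟 ≠ ⊥) (hq : 𝔮 ≠ ⊥)
    (ξ : F) : (∀ x ∈ translq F 𝔟 𝔮, ∃ m : ℤ, ∑ τ : F →+* ℝ, τ (ξ * x) = m) ↔
      ∀ x ∈ 𝔟, ∃ y ∈ 𝔮, ξ * (x : F) = (y : F) := by
  have hne : (𝔮 : FractionalIdeal (𝓞 F)⁰ F) / (𝔟 : FractionalIdeal (𝓞 F)⁰ F) ≠ 0 :=
    div_ne_zero (coe_ne hq) (coe_ne hb)
  have h1 : (∀ x ∈ translq F 𝔟 𝔮, ∃ m : ℤ, ∑ τ : F →+* ℝ, τ (ξ * x) = m) ↔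
      ξ ∈ FractionalIdeal.dual ℤ ℚ (FractionalIdeal.dual ℤ ℚ
        ((𝔮 : FractionalIdeal (𝓞 F)⁰ F) / (𝔟 : FractionalIdeal (𝓞 F)⁰ F))) := by
    rw [FractionalIdeal.mem_dual (FractionalIdeal.dual_ne_zero ℤ ℚ hne)]
    constructor
    · intro h x hx
      exact (int_iff ξ x).1 (h x ((mem_translq hb hq x).2 hx))
    · intro h x hx
      exact (int_iff ξ x).2 (h x ((mem_translq hb hq x).1 hx))
  rw [h1, FractionalIdeal.dual_dual, FractionalIdeal.mem_div_iff_of_ne_zero (coe_ne hb)]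
  constructor
  · intro h x hx
    obtain ⟨y, hy, h2⟩ := (mem_coe 𝔮 _).1 (h x ((mem_coe 𝔟 _).2 ⟨x, hx, rfl⟩))
    exact ⟨y, hy, h2.symm⟩
  · intro h x hx
    obtain ⟨z, hz, rfl⟩ := (mem_coe 𝔟 _).1 hx
    obtain ⟨y, hy, h2⟩ := h z hz
    exact (mem_coe 𝔮 _).2 ⟨y, hy, h2.symm⟩

private theorem fg_translq [NumberField.IsTotallyReal F] {𝔟 𝔮 : Ideal (𝓞 F)} (hb : 𝔟 ≠ ⊥)
    (hq : 𝔮 ≠ ⊥) : (translq F 𝔟 𝔮).FG := by
  set I := FractionalIdeal.dual ℤ ℚ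
    ((𝔮 : FractionalIdeal (𝓞 F)⁰ F) / (𝔟 : FractionalIdeal (𝓞 F)⁰ F)) with hI
  have h1 : IsNoetherian (𝓞 F) I := FractionalIdeal.isNoetherian I
  have h2 : Module.Finite (𝓞 F) (I : Submodule (𝓞 F) F) := Module.IsNoetherian.finite _ _
  have h3 : Module.Finite ℤ (I : Submodule (𝓞 F) F) := Module.Finite.trans (𝓞 F) _
  have h4 : ((I : Submodule (𝓞 F) F).restrictScalars ℤ).FG :=
    Module.Finite.iff_fg.1 h3
  have h5 := (Submodule.fg_iff_addSubgroup_fg _).1 h4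
  have h6 : ((I : Submodule (𝓞 F) F).restrictScalars ℤ).toAddSubgroup = translq F 𝔟 𝔮 := by
    ext x
    exact (mem_translq hb hq x).symm
  rw [h6] at h5
  exact h5

theorem finite_quot [NumberField.IsTotallyReal F] {𝔟 𝔮 : Ideal (𝓞 F)} (hb : 𝔟 ≠ ⊥)
    (hq : 𝔮 ≠ ⊥) :
    Finite (translq F 𝔟 𝔮 ⧸ (transl F 𝔟).addSubgroupOf (translq F 𝔟 𝔮)) := by
  have h1 : AddGroup.FG (translq F 𝔟 𝔮) := (AddGroup.fg_iff_addSubgroup_fg _).2 (fg_translq hb hq)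
  have h2 : AddGroup.FG (translq F 𝔟 𝔮 ⧸ (transl F 𝔟).addSubgroupOf (translq F 𝔟 𝔮)) :=
    QuotientAddGroup.fg _
  have h3 : Module.Finite ℤ (translq F 𝔟 𝔮 ⧸ (transl F 𝔟).addSubgroupOf (translq F 𝔟 𝔮)) :=
    Module.Finite.iff_addGroup_fg.2 h2
  refine AddCommGroup.finite_of_fg_torsion _ ?_
  intro g
  rw [isOfFinAddOrder_iff_nsmul_eq_zero]
  refine ⟨Ideal.absNorm 𝔮, Nat.pos_of_ne_zero (by rwa [Ne, Ideal.absNorm_eq_zero_iff]), ?_⟩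
  induction g using QuotientAddGroup.induction_on with
  | H x =>
    rw [← QuotientAddGroup.mk_nsmul, QuotientAddGroup.eq_zero_iff, AddSubgroup.mem_addSubgroupOf]
    have h4 := x.2 _ (Ideal.absNorm_mem 𝔮)
    have h5 : ((Ideal.absNorm 𝔮 • x : translq F 𝔟 𝔮) : F) =
        (((Ideal.absNorm 𝔮 : ℕ) : 𝓞 F) : F) * (x : F) := by
      rw [AddSubgroup.coe_nsmul, nsmul_eq_mul]
      simp
    rw [h5]
    exact h4

theorem scale_le_iff {𝔟 𝔮 : Ideal (𝓞 F)} {ξ : F} (hξ : ξ ∈ Idx F 𝔟) :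
    scale F ξ 𝔟 ≤ 𝔮 ↔ ∀ x ∈ 𝔟, ∃ y ∈ 𝔮, ξ * (x : F) = (y : F) := by
  constructor
  · intro h x hx
    obtain ⟨y, hy⟩ := hξ.2 x hx
    exact ⟨y, h ⟨x, hx, hy.symm⟩, hy⟩
  · rintro h x ⟨y, hy, hxy⟩
    obtain ⟨z, hz, h2⟩ := h y hy
    have h3 : (x : F) = (z : F) := by rw [hxy, h2]
    have h4 : x = z := NumberField.RingOfIntegers.ext h3
    rw [h4]
    exact hz

end Pool.Agent.Helper93.DR
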