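import Pool.Agent.Helper93.DR.Diag

/-!
# The Fourier series on the diagonal
-/

open scoped NumberField

namespace Pool.Agent.Helper93.DR

variable {F F' : Type*} [Field F] [NumberField F] [Field F'] [NumberField F'] [Algebra F F']

/-- Real embeddings of `F'` above `σ` correspond to the embeddings of `F'` in `ℂ` over `F`. -/
private theorem tr_fiber [NumberField.IsTotallyReal F'] (σ : F →+* ℝ) (ζ : F') :
    haveI : DecidableEq (F →+* ℝ) := Classical.decEq _
    ∑ τ : F' →+* ℝ with τ.comp (algebraMap F F') = σ, τ ζ = σ (Algebra.trace F F' ζ) := by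
  classical
  letI : Algebra F ℂ := (Complex.ofRealHom.comp σ).toAlgebra
  have h := trace_eq_sum_embeddings ℂ (K := F) (L := F') (x := ζ)
  have halg : ∀ x : F, algebraMap F ℂ x = ((σ x : ℝ) : ℂ) := fun x => rfl
  rw [halg] at h
  have h2 : ((∑ τ : F' →+* ℝ with τ.comp (algebraMap F F') = σ, τ ζ : ℝ) : ℂ) =
      ((σ (Algebra.trace F F' ζ) : ℝ) : ℂ) := by
    rw [h, Complex.ofReal_sum]
    refine Finset.sum_bij' (fun τ hτ => (⟨Complex.ofRealHom.comp τ, fun x => by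
        rw [halg]
        have h3 : τ.comp (algebraMap F F') = σ := by simpa using hτ
        rw [← h3]
        rfl⟩ : F' →ₐ[F] ℂ))
      (fun φ _ => (NumberField.IsTotallyReal.complexEmbedding_isReal φ.toRingHom).embedding)
      ?_ ?_ ?_ ?_ ?_
    · intro τ hτ
      exact Finset.mem_univ _
    · intro φ _
      rw [Finset.mem_filter]
      refine ⟨Finset.mem_univ _, RingHom.ext fun x => ?_⟩
      apply Complex.ofReal_injective
      rw [RingHom.comp_apply, NumberField.ComplexEmbedding.IsReal.coe_embedding_apply, ← halg]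
      exact φ.commutes x
    · intro τ hτ
      refine RingHom.ext fun x => ?_
      apply Complex.ofReal_injective
      rw [NumberField.ComplexEmbedding.IsReal.coe_embedding_apply]
      rfl
    · intro φ _
      refine AlgHom.ext fun x => ?_
      exact NumberField.ComplexEmbedding.IsReal.coe_embedding_apply _ x
    · intro τ hτ
      rfl
  exact Complex.ofReal_injective h2

private theorem tr_fiber_nonempty [NumberField.IsTotallyReal F'] (σ : F →+* ℝ) :
    ∃ τ : F' →+* ℝ, τ.comp (algebraMap F F') = σ := by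
  classical
  by_contra hcon
  push Not at hcon
  have h := tr_fiber (F' := F') σ 1
  rw [Finset.sum_eq_zero] at h
  · rw [← map_one (algebraMap F F'), Algebra.trace_algebraMap, nsmul_eq_mul, mul_one,
      map_natCast] at h
    have h1 : 0 < Module.finrank F F' := Module.finrank_pos
    have h2 : (0 : ℝ) < Module.finrank F F' := by exact_mod_cast h1
    rw [← h] at h2
    exact lt_irrefl _ h2
  · intro τ hτ
    exact absurd (by simpa using hτ) (hcon τ)

private theorem le_trace [NumberField.IsTotallyReal F'] {ζ : F'} (h : TotPos F' ζ)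
    (τ : F' →+* ℝ) : τ ζ ≤ (τ.comp (algebraMap F F')) (Algebra.trace F F' ζ) := by
  classical
  rw [← tr_fiber (τ.comp (algebraMap F F')) ζ]
  refine Finset.single_le_sum (f := fun τ' : F' →+* ℝ => τ' ζ) (fun τ' _ => (h τ').le) ?_
  simp

private theorem trace_totPos [NumberField.IsTotallyReal F'] {ζ : F'} (h : TotPos F' ζ) :
    TotPos F (Algebra.trace F F' ζ) := by
  intro σ
  obtain ⟨τ, hτ⟩ := tr_fiber_nonempty (F' := F') σ
  have h1 := le_trace (F := F) h τ
  rw [hτ] at h1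
  exact (h τ).trans_le h1

/-- The sum over the embeddings of `F'` regrouped. -/
private theorem sum_tau [NumberField.IsTotallyReal F'] (ζ : F') (y : (F →+* ℝ) → ℝ) :
    ∑ τ : F' →+* ℝ, τ ζ * y (τ.comp (algebraMap F F')) =
      ∑ σ : F →+* ℝ, σ (Algebra.trace F F' ζ) * y σ := by
  classical
  rw [← Finset.sum_fiberwise (Finset.univ : Finset (F' →+* ℝ))
    (fun τ : F' →+* ℝ => τ.comp (algebraMap F F'))]
  refine Finset.sum_congr rfl fun σ _ => ?_
  rw [← tr_fiber (F' := F') σ ζ, Finset.sum_mul]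
  refine Finset.sum_congr rfl fun τ hτ => ?_
  have h3 : τ.comp (algebraMap F F') = σ := by simpa using hτ
  rw [h3]

theorem fib_finite [NumberField.IsTotallyReal F'] {𝔟' : Ideal (𝓞 F')} (hb : 𝔟' ≠ ⊥) (η : F) :
    (Fib F F' 𝔟' η).Finite := by
  classical
  have hm0 : Ideal.absNorm 𝔟' ≠ 0 := by
    rwa [Ne, Ideal.absNorm_eq_zero_iff]
  have hm1 : ((Ideal.absNorm 𝔟' : ℕ) : 𝓞 F') ∈ 𝔟' := Ideal.absNorm_mem 𝔟'
  generalize Ideal.absNorm 𝔟' = m at hm0 hm1
  have hmF : (m : F') ≠ 0 := Nat.cast_ne_zero.2 hm0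
  let B : ℝ := m * ∑ σ : F →+* ℝ, |σ η|
  have hfin := NumberField.Embeddings.finite_of_norm_le F' ℂ B
  refine Set.Finite.subset (hfin.preimage (f := fun ζ : F' => ζ * (m : F')) ?_) ?_
  · intro x _ y _ hxy
    exact mul_right_cancel₀ hmF hxy
  · rintro ζ ⟨⟨hpos, hint⟩, htr⟩
    obtain ⟨y, hy⟩ := hint _ hm1
    have hy' : ζ * (m : F') = (y : F') := by
      rw [← hy]
      simp
    refine ⟨?_, ?_⟩
    · change IsIntegral ℤ (ζ * (m : F'))
      rw [hy']
      exact NumberField.RingOfIntegers.isIntegral_coe y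
    · intro φ
      change ‖φ (ζ * (m : F'))‖ ≤ B
      have hφ := NumberField.IsTotallyReal.complexEmbedding_isReal φ
      have h1 : φ ζ = ((hφ.embedding ζ : ℝ) : ℂ) :=
        (NumberField.ComplexEmbedding.IsReal.coe_embedding_apply hφ ζ).symm
      rw [map_mul, map_natCast, norm_mul, h1, Complex.norm_natCast, Complex.norm_real,
        Real.norm_eq_abs, abs_of_pos (hpos _), mul_comm]
      refine mul_le_mul_of_nonneg_left ?_ (Nat.cast_nonneg m)
      refine (le_trace (F := F) hpos hφ.embedding).trans ?_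
      rw [htr]
      refine (le_abs_self _).trans ?_
      exact Finset.single_le_sum (f := fun σ : F →+* ℝ => |σ η|) (fun σ _ => abs_nonneg _)
        (Finset.mem_univ _)

theorem trace_mem_idx [NumberField.IsTotallyReal F'] {𝔟 : Ideal (𝓞 F)} {ζ : F'}
    (h : ζ ∈ Idx F' (extI F F' 𝔟)) : Algebra.trace F F' ζ ∈ Idx F 𝔟 := by
  refine ⟨trace_totPos h.1, fun x hx => ?_⟩
  obtain ⟨y, hy⟩ := h.2 (algebraMap (𝓞 F) (𝓞 F') x) (Ideal.mem_map_of_mem _ hx)
  have h1 : IsIntegral ℤ (Algebra.trace F F' (y : F')) :=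
    Algebra.isIntegral_trace (NumberField.RingOfIntegers.isIntegral_coe y)
  refine ⟨⟨_, h1⟩, ?_⟩
  change Algebra.trace F F' ζ * (x : F) = Algebra.trace F F' (y : F')
  have h2 : ((algebraMap (𝓞 F) (𝓞 F') x : 𝓞 F') : F') = algebraMap F F' (x : F) := rfl
  rw [← hy, h2, mul_comm ζ, ← Algebra.smul_def, map_smul, smul_eq_mul, mul_comm]

private theorem norm_expo' (η : F) (z : (F →+* ℝ) → ℂ) :
    ‖expo F η z‖ = Real.exp (-(2 * Real.pi * ∑ τ : F →+* ℝ, τ η * (z τ).im)) := by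
  rw [expo, Complex.norm_exp]
  congr 1
  simp only [Complex.mul_re, Complex.mul_im, Complex.re_sum, Complex.im_sum, Complex.ofReal_re,
    Complex.ofReal_im, Complex.I_re, Complex.I_im, Complex.re_ofNat, Complex.im_ofNat]
  ring_nf

/-- The trace map on the index sets. -/
private noncomputable def gtr [NumberField.IsTotallyReal F'] (𝔟 : Ideal (𝓞 F))
    (ζ : Idx F' (extI F F' 𝔟)) : Idx F 𝔟 := ⟨_, trace_mem_idx ζ.2⟩

private noncomputable def fibEquiv [NumberField.IsTotallyReal F'] (𝔟 : Ideal (𝓞 F))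
    (η : Idx F 𝔟) : {ζ : Idx F' (extI F F' 𝔟) // gtr 𝔟 ζ = η} ≃
      Fib F F' (extI F F' 𝔟) (η : F) where
  toFun ζ := ⟨ζ.1.1, ζ.1.2, congrArg Subtype.val ζ.2⟩
  invFun ζ := ⟨⟨ζ.1, ζ.2.1⟩, Subtype.ext ζ.2.2⟩
  left_inv _ := rfl
  right_inv _ := rfl

theorem diag_fser [NumberField.IsTotallyReal F'] {𝔟 : Ideal (𝓞 F)} (hb : 𝔟 ≠ ⊥) {u : F' → ℂ}
    (hu : Abs F' (Idx F' (extI F F' 𝔟)) u) :
    Abs F (Idx F 𝔟) (pushTr F F' (extI F F' 𝔟) u) ∧
      ∀ z ∈ UH F, fser F' (Idx F' (extI F F' 𝔟)) u (diag F F' z) =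
        fser F (Idx F 𝔟) (pushTr F F' (extI F F' 𝔟) u) z := by
  classical
  have hb' : extI F F' 𝔟 ≠ ⊥ := by
    intro h
    apply hb
    rw [eq_bot_iff]
    intro x hx
    have h1 : algebraMap (𝓞 F) (𝓞 F') x ∈ extI F F' 𝔟 := Ideal.mem_map_of_mem _ hx
    rw [h, Ideal.mem_bot] at h1
    rw [Ideal.mem_bot]
    exact (FaithfulSMul.algebraMap_eq_zero_iff (𝓞 F) (𝓞 F')).1 h1
  have hfin : ∀ η : Idx F 𝔟, Finite {ζ : Idx F' (extI F F' 𝔟) // gtr 𝔟 ζ = η} := by
    intro η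
    have := (fib_finite (F := F) hb' (η : F)).to_subtype
    exact Finite.of_equiv _ (fibEquiv 𝔟 η).symm
  have hpush : ∀ η : Idx F 𝔟, pushTr F F' (extI F F' 𝔟) u (η : F) =
      ∑' ζ : {ζ : Idx F' (extI F F' 𝔟) // gtr 𝔟 ζ = η}, u ζ.1 := by
    intro η
    have := hfin η
    rw [tsum_eq_finsum (Set.toFinite _), pushTr, ← finsum_set_coe_eq_finsum_mem]
    exact (finsum_comp_equiv (fibEquiv 𝔟 η)).symm
  have hsum : ∀ y : (F →+* ℝ) → ℝ, (∀ τ, 0 < y τ) →
      Summable fun ζ : Idx F' (extI F F' 𝔟) => ‖u ζ‖ *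
        Real.exp (-(2 * Real.pi * ∑ τ : F →+* ℝ, τ ((gtr 𝔟 ζ : Idx F 𝔟) : F) * y τ)) := by
    intro y hy
    refine (hu (fun τ => y (τ.comp (algebraMap F F'))) (fun τ => hy _)).congr fun ζ => ?_
    rw [sum_tau]
    rfl
  constructor
  · intro y hy
    have h1 := (Equiv.sigmaFiberEquiv (gtr (F' := F') 𝔟)).summable_iff.2 (hsum y hy)
    have h2 := h1.sigma
    refine Summable.of_nonneg_of_le (fun η => by positivity) (fun η => ?_) h2
    have := hfin η
    rw [hpush]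
    have h3 : ∀ ζ : {ζ : Idx F' (extI F F' 𝔟) // gtr 𝔟 ζ = η},
        ((fun ζ : Idx F' (extI F F' 𝔟) => ‖u ζ‖ *
        Real.exp (-(2 * Real.pi * ∑ τ : F →+* ℝ, τ ((gtr 𝔟 ζ : Idx F 𝔟) : F) * y τ))) ∘
          (Equiv.sigmaFiberEquiv (gtr (F' := F') 𝔟))) ⟨η, ζ⟩ = ‖u ζ.1‖ *
        Real.exp (-(2 * Real.pi * ∑ τ : F →+* ℝ, τ (η : F) * y τ)) := by
      rintro ⟨ζ, hζ⟩
      subst hζ
      rfl
    rw [tsum_congr h3, tsum_mul_right]
    refine mul_le_mul_of_nonneg_right ?_ (Real.exp_pos _).le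
    exact norm_tsum_le_tsum_norm (Summable.of_finite)
  · intro z hz
    have h0 : Summable fun ζ : Idx F' (extI F F' 𝔟) => u ζ * expo F ((gtr 𝔟 ζ : Idx F 𝔟) : F) z := by
      refine Summable.of_norm ((hsum (fun τ => (z τ).im) hz).congr fun ζ => ?_)
      rw [norm_mul, norm_expo']
    have h1 := (Equiv.sigmaFiberEquiv (gtr (F' := F') 𝔟)).summable_iff.2 h0
    calc fser F' (Idx F' (extI F F' 𝔟)) u (diag F F' z)
        = ∑' ζ : Idx F' (extI F F' 𝔟), u ζ * expo F ((gtr 𝔟 ζ : Idx F 𝔟) : F) z := by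
          refine tsum_congr fun ζ => ?_
          rw [expo_diag]
          rfl
      _ = ∑' x : (Σ η : Idx F 𝔟, {ζ : Idx F' (extI F F' 𝔟) // gtr 𝔟 ζ = η}),
            ((fun ζ : Idx F' (extI F F' 𝔟) => u ζ * expo F ((gtr 𝔟 ζ : Idx F 𝔟) : F) z) ∘
              (Equiv.sigmaFiberEquiv (gtr (F' := F') 𝔟))) x :=
          ((Equiv.sigmaFiberEquiv (gtr (F' := F') 𝔟)).tsum_eq _).symm
      _ = ∑' η : Idx F 𝔟, ∑' ζ : {ζ : Idx F' (extI F F' 𝔟) // gtr 𝔟 ζ = η},
            ((fun ζ : Idx F' (extI F F' 𝔟) => u ζ * expo F ((gtr 𝔟 ζ : Idx F 𝔟) : F) z) ∘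
              (Equiv.sigmaFiberEquiv (gtr (F' := F') 𝔟))) ⟨η, ζ⟩ := h1.tsum_sigma
      _ = fser F (Idx F 𝔟) (pushTr F F' (extI F F' 𝔟) u) z := by
          refine tsum_congr fun η => ?_
          have := hfin η
          rw [hpush, ← tsum_mul_right]
          refine tsum_congr ?_
          rintro ⟨ζ, hζ⟩
          subst hζ
          rfl

end Pool.Agent.Helper93.DR
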