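import Pool.Agent.Helper93.DR.Local
import Pool.Agent.Helper93.DR.Frob2

/-!
# Invariance of the coefficients of an eigenform of a restricted representation
-/

open scoped NumberField Pointwise Classical

namespace Pool.Agent.Helper93.DR

/-- Induction over the maximal factors of a nonzero ideal. -/
private lemma ideal_ind {R : Type*} [CommRing R] [IsDedekindDomain R] {P : Ideal R → Prop}
    (h1 : P ⊤) (h2 : ∀ v : Ideal R, v.IsMaximal → ∀ 𝔫 : Ideal R, 𝔫 ≠ ⊥ → v * 𝔫 ≠ ⊥ →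
      (∀ 𝔨 : Ideal R, 𝔨 ≠ ⊥ → v * 𝔫 < 𝔨 → P 𝔨) → P (v * 𝔫)) :
    ∀ 𝔪 : Ideal R, 𝔪 ≠ ⊥ → P 𝔪 := by
  intro 𝔪
  induction 𝔪 using WellFoundedGT.induction with
  | ind 𝔪 ih =>
    intro hm
    by_cases ht : 𝔪 = ⊤
    · rw [ht]
      exact h1
    · obtain ⟨v, hv, hle⟩ := Ideal.exists_le_maximal 𝔪 ht
      obtain ⟨𝔫, rfl⟩ := Ideal.dvd_iff_le.2 hle
      have hn : 𝔫 ≠ ⊥ := by
        rintro rfl
        exact hm (Ideal.mul_bot v)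
      exact h2 v hv 𝔫 hn hm fun 𝔨 hk hlt => ih 𝔨 hlt hk

private lemma lt_of_mul {R : Type*} [CommRing R] [IsDedekindDomain R] {v 𝔫 : Ideal R}
    (hv : v.IsMaximal) (hn : 𝔫 ≠ ⊥) : v * 𝔫 < 𝔫 := by
  refine lt_of_le_of_ne Ideal.mul_le_right fun h => ?_
  have h1 : v * 𝔫 = 1 * 𝔫 := by rw [one_mul]; exact h
  have h2 := mul_right_cancel₀ (show 𝔫 ≠ 0 from hn) h1
  exact hv.ne_top (by rw [h2, Ideal.one_eq_top])

private lemma max_ne_bot {K : Type*} [Field K] [NumberField K] {v : Ideal (𝓞 K)}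
    (hv : v.IsMaximal) : v ≠ ⊥ := by
  intro h0
  rw [h0] at hv
  exact NumberField.RingOfIntegers.not_isField K (Ring.isField_iff_maximal_bot.mpr hv)

variable {k : Type*} [Field k] {F F' L : Type*}
  [Field F] [NumberField F] [Field F'] [NumberField F'] [Field L] [NumberField L]
  [Algebra F F'] [Algebra F L] [Algebra F' L] [IsScalarTower F F' L]
  [IsGalois F F'] [IsGalois F L]

omit [IsGalois F F'] in
private lemma max_smul (σ : F' ≃ₐ[F] F') {v : Ideal (𝓞 F')} (hv : v.IsMaximal) :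
    (σ • v).IsMaximal := by
  have hp : v.IsPrime := hv.isPrime
  have hp' : (σ • v).IsPrime := Ideal.IsPrime.smul σ
  refine hp'.isMaximal fun h => max_ne_bot hv ?_
  have h1 : σ⁻¹ • (σ • v) = σ⁻¹ • (⊥ : Ideal (𝓞 F')) := by rw [h]
  rw [inv_smul_smul, Ideal.smul_bot] at h1
  exact h1

omit [IsGalois F F'] [NumberField F] in
private lemma nat_mem_smul (σ : F' ≃ₐ[F] F') {v : Ideal (𝓞 F')} {M : ℕ} :
    (M : 𝓞 F') ∈ σ • v ↔ (M : 𝓞 F') ∈ v := by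
  rw [Ideal.mem_pointwise_smul_iff_inv_smul_mem]
  have h1 : σ⁻¹ • (M : 𝓞 F') = (M : 𝓞 F') :=
    map_natCast (MulSemiringAction.toRingHom (F' ≃ₐ[F] F') (𝓞 F') σ⁻¹) M
  rw [h1]

theorem eigen_inv (ρ : (L ≃ₐ[F] L) →* Matrix.GeneralLinearGroup (Fin 2) k) {M : ℕ}
    {A' : Ideal (𝓞 F') → k} (h : IsEigen F' (res (F' := F') ρ) M A') (σ : F' ≃ₐ[F] F')
    {𝔪 : Ideal (𝓞 F')} (hm : 𝔪 ≠ ⊥) : A' (σ • 𝔪) = A' 𝔪 := by
  have hbot : ∀ 𝔫 : Ideal (𝓞 F'), 𝔫 ≠ ⊥ → σ • 𝔫 ≠ ⊥ := by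
    intro 𝔫 hn h0
    apply hn
    have h1 : σ⁻¹ • (σ • 𝔫) = σ⁻¹ • (⊥ : Ideal (𝓞 F')) := by rw [h0]
    rw [inv_smul_smul, Ideal.smul_bot] at h1
    exact h1
  have htop : σ • (⊤ : Ideal (𝓞 F')) = ⊤ := by
    rw [← Ideal.one_eq_top, smul_one]
  obtain ⟨hA1, hA2, hA3⟩ := h
  refine ideal_ind (P := fun 𝔪 => A' (σ • 𝔪) = A' 𝔪) (by rw [htop]) ?_ 𝔪 hm
  intro v hv 𝔫 hn hvn ih
  have hv' : (σ • v).IsMaximal := max_smul σ hv
  rw [smul_mul']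
  by_cases hM : (M : 𝓞 F') ∈ v
  · rw [hA2 v hv hM 𝔫 hn, hA2 (σ • v) hv' ((nat_mem_smul σ).2 hM) (σ • 𝔫) (hbot 𝔫 hn)]
  · obtain ⟨s, Q, hs⟩ := WS.exists_frob' F (L := L) hv
    obtain ⟨s', Q', hs', ht, hd⟩ := frob_conj ρ σ hs
    have hM' : (M : 𝓞 F') ∉ σ • v := fun hc => hM ((nat_mem_smul σ).1 hc)
    have hr := hA3 v hv hM s Q hs
    have hr' := hA3 (σ • v) hv' hM' s' Q' hs'
    rw [ht, hd] at hr'
    by_cases hle : 𝔫 ≤ v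
    · obtain ⟨𝔨, rfl⟩ := Ideal.dvd_iff_le.2 hle
      have hk : 𝔨 ≠ ⊥ := by
        rintro rfl
        exact hn (Ideal.mul_bot v)
      have e1 := ih (v * 𝔨) hn (lt_of_mul hv hn)
      have e2 := ih 𝔨 hk ((lt_of_mul hv hn).trans (lt_of_mul hv hk))
      rw [smul_mul'] at e1
      rw [(hr 𝔨 hk).2, smul_mul', (hr' (σ • 𝔨) (hbot 𝔨 hk)).2, e1, e2]
    · have hle' : ¬ σ • 𝔫 ≤ σ • v := fun hc =>
        hle (Ideal.pointwise_smul_le_pointwise_smul_iff.1 hc)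
      have e1 := ih 𝔫 hn (lt_of_mul hv hn)
      rw [(hr 𝔫 hn).1 hle, (hr' (σ • 𝔫) (hbot 𝔫 hn)).1 hle', e1]

/-- Depletion of an eigenform is an eigenform. -/
theorem eigen_deplete {F L : Type*} [Field F] [NumberField F] [Field L] [NumberField L]
    [Algebra F L] {ρ : (L ≃ₐ[F] L) →* Matrix.GeneralLinearGroup (Fin 2) k} {M M₁ : ℕ}
    {A : Ideal (𝓞 F) → k} (h : IsEigen F ρ M A) (h0 : M₁ ≠ 0) (hd : M ∣ M₁) :
    IsEigen F ρ M₁ (fun 𝔫 => if ∃ v : Ideal (𝓞 F), v.IsMaximal ∧ (M₁ : 𝓞 F) ∈ v ∧ 𝔫 ≤ v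
      then 0 else A 𝔫) := by
  obtain ⟨hA1, hA2, hA3⟩ := h
  refine ⟨?_, ?_, ?_⟩
  · have h1 : ¬ ∃ v : Ideal (𝓞 F), v.IsMaximal ∧ (M₁ : 𝓞 F) ∈ v ∧ (⊤ : Ideal (𝓞 F)) ≤ v := by
      rintro ⟨v, hv, -, hle⟩
      exact hv.ne_top (top_le_iff.1 hle)
    simp only [if_neg h1]
    exact hA1
  · intro v hv hM 𝔫 hn
    exact if_pos ⟨v, hv, hM, Ideal.mul_le_left⟩
  · intro v hv hM s Q hs 𝔫 hn
    have hM' : (M : 𝓞 F) ∉ v := by
      intro hc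
      apply hM
      obtain ⟨c, rfl⟩ := hd
      rw [Nat.cast_mul]
      exact v.mul_mem_right _ hc
    have key : ∀ 𝔨 : Ideal (𝓞 F),
        (∃ v' : Ideal (𝓞 F), v'.IsMaximal ∧ (M₁ : 𝓞 F) ∈ v' ∧ v * 𝔨 ≤ v') ↔
          ∃ v' : Ideal (𝓞 F), v'.IsMaximal ∧ (M₁ : 𝓞 F) ∈ v' ∧ 𝔨 ≤ v' := by
      intro 𝔨
      constructor
      · rintro ⟨v', hv', hM1, hle⟩
        refine ⟨v', hv', hM1, ?_⟩
        rcases (hv'.isPrime.mul_le).1 hle with h1 | h1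
        · exfalso
          apply hM
          rw [hv.eq_of_le hv'.ne_top h1]
          exact hM1
        · exact h1
      · rintro ⟨v', hv', hM1, hle⟩
        exact ⟨v', hv', hM1, Ideal.mul_le_right.trans hle⟩
    have hr := hA3 v hv hM' s Q hs 𝔫 hn
    simp only [key]
    by_cases hE : ∃ v' : Ideal (𝓞 F), v'.IsMaximal ∧ (M₁ : 𝓞 F) ∈ v' ∧ 𝔫 ≤ v'
    · simp only [if_pos hE, mul_zero, sub_zero, implies_true, and_self]
    · simp only [if_neg hE]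
      exact hr

end Pool.Agent.Helper93.DR
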