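import Pool.Agent.Helper93.DR.ExtG

/-!
# Restriction of irreducible representations to normal subgroups of `p`-power index
-/

namespace Pool.Agent.Helper93.DR

/-- Two vectors of the plane that are not proportional span it. -/
private theorem exists_comb {k : Type*} [Field k] {v w : Fin 2 → k} (hv : v ≠ 0)
    (hw : ∀ c : k, w ≠ c • v) (u : Fin 2 → k) : ∃ a b : k, u = a • v + b • w := by
  have hD : v 0 * w 1 - v 1 * w 0 ≠ 0 := by
    intro h
    by_cases h0 : v 0 = 0
    · have h1 : v 1 ≠ 0 := by
        intro h1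
        apply hv
        funext i
        fin_cases i
        · exact h0
        · exact h1
      apply hw (w 1 / v 1)
      funext i
      fin_cases i
      · show w 0 = w 1 / v 1 * v 0
        rw [h0, zero_mul, zero_sub, neg_eq_zero] at h
        rw [h0, mul_zero]
        exact (mul_eq_zero.mp h).resolve_left h1
      · show w 1 = w 1 / v 1 * v 1
        rw [div_mul_cancel₀ _ h1]
    · apply hw (w 0 / v 0)
      funext i
      fin_cases i
      · show w 0 = w 0 / v 0 * v 0
        rw [div_mul_cancel₀ _ h0]
      · show w 1 = w 0 / v 0 * v 1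
        field_simp
        linear_combination h
  refine ⟨(u 0 * w 1 - u 1 * w 0) / (v 0 * w 1 - v 1 * w 0),
    (v 0 * u 1 - v 1 * u 0) / (v 0 * w 1 - v 1 * w 0), ?_⟩
  funext i
  fin_cases i
  · show u 0 = (u 0 * w 1 - u 1 * w 0) / (v 0 * w 1 - v 1 * w 0) * v 0 +
      (v 0 * u 1 - v 1 * u 0) / (v 0 * w 1 - v 1 * w 0) * w 0
    rw [div_mul_eq_mul_div, div_mul_eq_mul_div, ← add_div, eq_div_iff hD]
    ring
  · show u 1 = (u 0 * w 1 - u 1 * w 0) / (v 0 * w 1 - v 1 * w 0) * v 1 +
      (v 0 * u 1 - v 1 * u 0) / (v 0 * w 1 - v 1 * w 0) * w 1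
    rw [div_mul_eq_mul_div, div_mul_eq_mul_div, ← add_div, eq_div_iff hD]
    ring

/-- A representation of a finite `p`-group on the plane over a field of characteristic `p`, and a
property of vectors that is stable under addition and holds for the orbit of a nonzero vector: there
is a nonzero fixed vector with this property. -/
private theorem exists_fixed {p : ℕ} [Fact p.Prime] {k : Type*} [Field k] [CharP k p]
    {P : Type*} [Group P] [Finite P] (hP : IsPGroup p P) (R : P → (Fin 2 → k) →ₗ[k] (Fin 2 → k))
    (h1 : ∀ v, R 1 v = v) (hmul : ∀ x y v, R (x * y) v = R x (R y v))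
    (W : Submodule k (Fin 2 → k)) (v : Fin 2 → k) (hv : v ≠ 0) (hvW : ∀ x, R x v ∈ W) :
    ∃ u : Fin 2 → k, u ≠ 0 ∧ u ∈ W ∧ ∀ x, R x u = u := by
  classical
  let _ : Algebra (ZMod p) k := ZMod.algebra k p
  let A : Submodule (ZMod p) (Fin 2 → k) :=
    Submodule.span (ZMod p) (Set.range fun x : P => R x v)
  have hAW : ∀ u ∈ A, u ∈ W := by
    intro u hu
    have h2 : A ≤ W.restrictScalars (ZMod p) := by
      apply Submodule.span_le.mpr
      rintro _ ⟨x, rfl⟩
      exact hvW x
    exact h2 hu
  have hst : ∀ x : P, ∀ u ∈ A, R x u ∈ A := by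
    intro x u hu
    have h2 : A ≤ A.comap ((R x).restrictScalars (ZMod p)) := by
      apply Submodule.span_le.mpr
      rintro _ ⟨y, rfl⟩
      apply Submodule.subset_span
      exact ⟨x * y, hmul x y v⟩
    exact h2 hu
  have hfin : Module.Finite (ZMod p) A :=
    Module.Finite.span_of_finite (ZMod p) (Set.finite_range _)
  have hfinA : Finite A := Module.finite_of_finite (ZMod p)
  let _ : MulAction P A :=
    { smul := fun x u => ⟨R x u.1, hst x u.1 u.2⟩
      one_smul := fun u => Subtype.ext (h1 u.1)
      mul_smul := fun x y u => Subtype.ext (hmul x y u.1) }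
  have hsm : ∀ (x : P) (u : A), ((x • u : A) : Fin 2 → k) = R x (u : Fin 2 → k) :=
    fun x u => rfl
  have hvA : v ∈ A := by
    apply Submodule.subset_span
    exact ⟨1, h1 v⟩
  have hnt : Nontrivial A := ⟨⟨⟨v, hvA⟩, 0, fun h => hv (congrArg Subtype.val h)⟩⟩
  have hdvd : p ∣ Nat.card A := by
    rw [Module.natCard_eq_pow_finrank (K := ZMod p), Nat.card_zmod]
    exact dvd_pow_self p (Module.finrank_pos (R := ZMod p) (M := A)).ne'
  have h0 : (0 : A) ∈ MulAction.fixedPoints P A := by
    intro x
    apply Subtype.ext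
    rw [hsm]
    exact map_zero (R x)
  obtain ⟨u, hu, hu0⟩ :=
    hP.exists_fixed_point_of_prime_dvd_card_of_fixed_point A hdvd h0
  refine ⟨u, ?_, hAW u u.2, ?_⟩
  · intro h
    apply hu0
    exact (Subtype.ext h).symm
  · intro x
    rw [← hsm, hu x]

/-- For odd `p` the restriction of an irreducible 2-dimensional representation in characteristic
`p` to a normal subgroup of `p`-power index is irreducible. -/
theorem irr_restrict {p : ℕ} [Fact p.Prime] (hp : p ≠ 2) {k : Type*} [Field k] [CharP k p]
    {G H : Type*} [Group G] [Finite G] [Group H] (ι : H →* G)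
    (hn : ι.range.Normal) (hP : IsPGroup p (G ⧸ ι.range))
    {ρ : G →* Matrix.GeneralLinearGroup (Fin 2) k} (h : Irr ρ) : Irr (ρ.comp ι) := by
  classical
  by_contra hcon
  unfold Irr at hcon
  push Not at hcon
  obtain ⟨v, hv, hvH⟩ := hcon
  -- the linear maps
  let R : G → (Fin 2 → k) →ₗ[k] (Fin 2 → k) := fun g =>
    Matrix.mulVecLin (ρ g : Matrix (Fin 2) (Fin 2) k)
  have hR : ∀ g u, R g u = (ρ g : Matrix (Fin 2) (Fin 2) k).mulVec u := fun g u => rfl
  have hmul : ∀ x y u, R (x * y) u = R x (R y u) := by
    intro x y u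
    rw [hR, hR, hR, map_mul, Matrix.GeneralLinearGroup.coe_mul, Matrix.mulVec_mulVec]
  have hone : ∀ u, R 1 u = u := by
    intro u
    rw [hR, map_one, Matrix.GeneralLinearGroup.coe_one, Matrix.one_mulVec]
  have hinj : ∀ g u, R g u = 0 → u = 0 := by
    intro g u hu
    rw [← hone u, ← inv_mul_cancel g, hmul, hu, map_zero]
  have hvN : ∀ n : G, n ∈ ι.range → ∃ c : k, R n v = c • v := by
    rintro _ ⟨x, rfl⟩
    exact hvH x
  choose! χ hχ using hvN
  -- the translates of `v` have the same character
  have hkey : ∀ g n : G, n ∈ ι.range → R n (R g v) = χ n • R g v := by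
    intro g n hnN
    by_cases hm : ∃ c : k, R g v = c • v
    · obtain ⟨c, hc⟩ := hm
      rw [hc, map_smul, hχ n hnN, smul_comm]
    · push Not at hm
      -- `w = R g v` and `v` are a basis
      have hw0 : R g v ≠ 0 := fun h0 => hv (hinj g v h0)
      have hconj : ∀ x : G, R n (R x v) = χ (x⁻¹ * n * x) • R x v := by
        intro x
        have h2 : x⁻¹ * n * x ∈ ι.range := by
          have h3 := hn.conj_mem n hnN x⁻¹
          rwa [inv_inv] at h3
        rw [← hmul, show n * x = x * (x⁻¹ * n * x) by group, hmul, hχ _ h2, map_smul]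
      rw [hconj g]
      by_contra hne
      have hne' : χ (g⁻¹ * n * g) ≠ χ n := fun h2 => hne (by rw [h2])
      obtain ⟨a, b, hab⟩ := exists_comb hv hm (R g (R g v))
      have h3 := hconj (g * g)
      rw [hmul, hab, map_add, map_smul, map_smul, hχ n hnN, hconj g] at h3
      -- coefficients
      have h4 : (a * (χ n - χ ((g * g)⁻¹ * n * (g * g)))) • v +
          (b * (χ (g⁻¹ * n * g) - χ ((g * g)⁻¹ * n * (g * g)))) • R g v = 0 := by
        rw [smul_add] at h3
        have h5 : a • χ n • v + b • χ (g⁻¹ * n * g) • R g v -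
            (χ ((g * g)⁻¹ * n * (g * g)) • a • v +
              χ ((g * g)⁻¹ * n * (g * g)) • b • R g v) = 0 := by
          rw [h3, sub_self]
        rw [← h5]
        module
      have hb0 : b * (χ (g⁻¹ * n * g) - χ ((g * g)⁻¹ * n * (g * g))) = 0 := by
        by_contra hb
        apply hm (-((b * (χ (g⁻¹ * n * g) - χ ((g * g)⁻¹ * n * (g * g))))⁻¹ *
          (a * (χ n - χ ((g * g)⁻¹ * n * (g * g))))))
        have h5 := eq_neg_of_add_eq_zero_right h4
        have h6 := congrArg (fun z =>
          (b * (χ (g⁻¹ * n * g) - χ ((g * g)⁻¹ * n * (g * g))))⁻¹ • z) h5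
        simp only [smul_smul, inv_mul_cancel₀ hb, one_smul, smul_neg] at h6
        rw [h6, neg_smul]
      rw [hb0, zero_smul, add_zero] at h4
      have ha0 : a * (χ n - χ ((g * g)⁻¹ * n * (g * g))) = 0 :=
        (smul_eq_zero.mp h4).resolve_right hv
      have hab0 : a = 0 ∨ b = 0 := by
        rcases mul_eq_zero.mp hb0 with h5 | h5
        · exact Or.inr h5
        · rcases mul_eq_zero.mp ha0 with h6 | h6
          · exact Or.inl h6
          · exfalso
            apply hne'
            rw [sub_eq_zero.mp h5, sub_eq_zero.mp h6]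
      have hbz : b = 0 := by
        rcases hab0 with ha | hb
        · exfalso
          rw [ha, zero_smul, zero_add] at hab
          have h5 : R g (R g v - b • v) = 0 := by
            rw [map_sub, map_smul, hab, sub_self]
          apply hm b
          exact sub_eq_zero.mp (hinj g _ h5)
        · exact hb
      rw [hbz, zero_smul, add_zero] at hab
      have ha : a ≠ 0 := by
        intro ha
        rw [ha, zero_smul] at hab
        exact hw0 (hinj g _ hab)
      -- odd powers
      have hpow : ∀ l : ℕ, R (g ^ (2 * l + 1)) v = a ^ l • R g v := by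
        intro l
        induction l with
        | zero => rw [mul_zero, zero_add, pow_one, pow_zero, one_smul]
        | succ l ih =>
          have h5 : g ^ (2 * (l + 1) + 1) = g ^ (2 * l + 1) * (g * g) := by
            rw [← pow_two, ← pow_add]
            congr 1
          rw [h5, hmul, hmul g g v, hab, map_smul, ih, smul_smul, pow_succ']
      obtain ⟨j, hj⟩ := hP (QuotientGroup.mk g)
      have hgN : g ^ p ^ j ∈ ι.range := by
        rw [← QuotientGroup.eq_one_iff, QuotientGroup.mk_pow]
        exact hj
      have hodd : Odd (p ^ j) :=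
        ((Fact.out : p.Prime).odd_of_ne_two hp).pow
      obtain ⟨l, hl⟩ := hodd
      have h6 := hχ _ hgN
      rw [hl, hpow l] at h6
      apply hm ((a ^ l)⁻¹ * χ (g ^ (2 * l + 1)))
      rw [mul_smul, ← h6, smul_smul, inv_mul_cancel₀ (pow_ne_zero l ha), one_smul]
  -- the Sylow subgroup
  let P : Sylow p G := default
  have hsup : (P : Subgroup G) ⊔ ι.range = ⊤ := by
    rw [← Subgroup.index_eq_one]
    have h2 : ((P : Subgroup G) ⊔ ι.range).index ∣ (P : Subgroup G).index :=
      Subgroup.index_dvd_of_le le_sup_left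
    have h3 : ((P : Subgroup G) ⊔ ι.range).index ∣ ι.range.index :=
      Subgroup.index_dvd_of_le le_sup_right
    obtain ⟨m, hm⟩ := IsPGroup.iff_card.mp hP
    rw [Subgroup.index_eq_card ι.range, hm] at h3
    obtain ⟨i, _, hi⟩ := (Nat.dvd_prime_pow (Fact.out : p.Prime)).mp h3
    rcases Nat.eq_zero_or_pos i with h4 | h4
    · rw [hi, h4, pow_zero]
    · exfalso
      apply P.not_dvd_index
      refine dvd_trans ?_ h2
      rw [hi]
      exact dvd_pow_self p h4.ne'
  -- the fixed vector
  let W : Submodule k (Fin 2 → k) :=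
    { carrier := {u | ∀ n ∈ ι.range, R n u = χ n • u}
      add_mem' := by
        intro u u' hu hu' n hnN
        rw [map_add, hu n hnN, hu' n hnN, smul_add]
      zero_mem' := by
        intro n _
        rw [map_zero, smul_zero]
      smul_mem' := by
        intro c u hu n hnN
        rw [map_smul, hu n hnN, smul_comm] }
  obtain ⟨u, hu, huW, hfix⟩ := exists_fixed (k := k) P.isPGroup'
    (fun x : (P : Subgroup G) => R (x : G)) hone (fun x y u => hmul x y u) W v hv
    (fun x n hnN => hkey x n hnN)
  obtain ⟨g, hg⟩ := h u hu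
  have hgt : g ∈ (P : Subgroup G) ⊔ ι.range := by
    rw [hsup]
    exact Subgroup.mem_top g
  obtain ⟨x, hx, n, hnN, rfl⟩ := Subgroup.mem_sup_of_normal_right.mp hgt
  apply hg (χ n)
  rw [← hR, hmul, huW n hnN, map_smul]
  congr 1
  exact hfix ⟨x, hx⟩

end Pool.Agent.Helper93.DR
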