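import Pool.Agent.Helper93.DR.Defs2
import Pool.Agent.Helper93.WS.FrobC

/-!
# Local factors
-/

open scoped NumberField Pointwise

namespace Pool.Agent.Helper93.DR

variable {F L k : Type*} [Field F] [NumberField F] [Field L] [NumberField L] [Algebra F L]
  [Field k]

/-- The coefficients of an eigenform at prime powers. -/
theorem eigen_pow {ρ : (L ≃ₐ[F] L) →* Matrix.GeneralLinearGroup (Fin 2) k} {M : ℕ}
    {A : Ideal (𝓞 F) → k} (h : IsEigen F ρ M A) {v : Ideal (𝓞 F)} (hv : v.IsMaximal)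
    (hM : (M : 𝓞 F) ∉ v) {s : L ≃ₐ[F] L} {Q : Ideal (𝓞 L)} (hs : WS.IsFrob F s Q v)
    {𝔪 : Ideal (𝓞 F)} (h0 : 𝔪 ≠ ⊥) (h1 : ¬ 𝔪 ≤ v) (a : ℕ) :
    A (v ^ a * 𝔪) = hrec (Matrix.trace (ρ s : Matrix (Fin 2) (Fin 2) k))
      (Matrix.det (ρ s : Matrix (Fin 2) (Fin 2) k)) a * A 𝔪 := by
  have key := h.2.2 v hv hM s Q hs
  have hv0 : v ≠ ⊥ := Ring.ne_bot_of_isMaximal_of_not_isField hv
    (NumberField.RingOfIntegers.not_isField F)
  have hne : ∀ a : ℕ, v ^ a * 𝔪 ≠ ⊥ := fun a => mul_ne_zero (pow_ne_zero a hv0) h0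
  have two : ∀ a : ℕ, A (v ^ a * 𝔪) = hrec (Matrix.trace (ρ s : Matrix (Fin 2) (Fin 2) k))
      (Matrix.det (ρ s : Matrix (Fin 2) (Fin 2) k)) a * A 𝔪 ∧
      A (v ^ (a + 1) * 𝔪) = hrec (Matrix.trace (ρ s : Matrix (Fin 2) (Fin 2) k))
      (Matrix.det (ρ s : Matrix (Fin 2) (Fin 2) k)) (a + 1) * A 𝔪 := by
    intro a
    induction a with
    | zero =>
      refine ⟨?_, ?_⟩
      · rw [pow_zero, one_mul, hrec, one_mul]
      · rw [zero_add, pow_one, hrec]
        exact (key 𝔪 h0).1 h1
    | succ a ih =>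
      refine ⟨ih.2, ?_⟩
      have e1 : v ^ (a + 1 + 1) * 𝔪 = v * (v * (v ^ a * 𝔪)) := by
        rw [pow_succ', pow_succ', mul_assoc, mul_assoc]
      have e2 : v * (v ^ a * 𝔪) = v ^ (a + 1) * 𝔪 := by
        rw [pow_succ', mul_assoc]
      rw [e1, (key (v ^ a * 𝔪) (hne a)).2, e2, ih.1, ih.2, hrec]
      ring
  exact (two a).1

theorem hrec_map {R S : Type*} [CommRing R] [CommRing S] (f : R →+* S) (t δ : R) (a : ℕ) :
    hrec (f t) (f δ) a = f (hrec t δ a) := by
  have two : hrec (f t) (f δ) a = f (hrec t δ a) ∧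
      hrec (f t) (f δ) (a + 1) = f (hrec t δ (a + 1)) := by
    induction a with
    | zero => simp [hrec]
    | succ a ih =>
      refine ⟨ih.2, ?_⟩
      rw [hrec, ih.1, ih.2, hrec, map_sub, map_mul, map_mul]
  exact two.1

/-- In characteristic `p` the `p ^ i`-th power of a matrix has local factors which are powers. -/
theorem hrec_pow {p : ℕ} [Fact p.Prime] [CharP k p] (i : ℕ) (t δ : k) (a : ℕ) :
    hrec (t ^ p ^ i) (δ ^ p ^ i) a = hrec t δ a ^ p ^ i := by
  have h := hrec_map (iterateFrobenius k p i) t δ a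
  rwa [iterateFrobenius_def, iterateFrobenius_def, iterateFrobenius_def] at h

theorem cayley (B : Matrix (Fin 2) (Fin 2) k) :
    B * B = Matrix.trace B • B - Matrix.det B • (1 : Matrix (Fin 2) (Fin 2) k) := by
  ext i j
  fin_cases i <;> fin_cases j <;>
    simp [Matrix.mul_apply, Matrix.trace_fin_two, Matrix.det_fin_two] <;> ring

theorem trace_eq_roots {K : Type*} [Field K] [Algebra k K] (B : Matrix (Fin 2) (Fin 2) k)
    {x y : K} (h1 : x + y = algebraMap k K (Matrix.trace B))
    (h2 : x * y = algebraMap k K (Matrix.det B)) (n : ℕ) :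
    algebraMap k K (Matrix.trace (B ^ n)) = x ^ n + y ^ n := by
  have hstep : ∀ n : ℕ, Matrix.trace (B ^ (n + 2)) =
      Matrix.trace B * Matrix.trace (B ^ (n + 1)) - Matrix.det B * Matrix.trace (B ^ n) := by
    intro n
    have e : B ^ (n + 2) = Matrix.trace B • B ^ (n + 1) - Matrix.det B • B ^ n := by
      rw [pow_add, pow_two, cayley, mul_sub, Matrix.mul_smul, Matrix.mul_smul, mul_one, pow_succ]
    rw [e, Matrix.trace_sub, Matrix.trace_smul, Matrix.trace_smul, smul_eq_mul, smul_eq_mul]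
  have two : algebraMap k K (Matrix.trace (B ^ n)) = x ^ n + y ^ n ∧
      algebraMap k K (Matrix.trace (B ^ (n + 1))) = x ^ (n + 1) + y ^ (n + 1) := by
    induction n with
    | zero =>
      refine ⟨?_, ?_⟩
      · rw [pow_zero, pow_zero, pow_zero, Matrix.trace_one, Fintype.card_fin, map_natCast]
        norm_num
      · rw [zero_add, pow_one, pow_one, pow_one, h1]
    | succ n ih =>
      refine ⟨ih.2, ?_⟩
      rw [hstep, map_sub, map_mul, map_mul, ih.1, ih.2, ← h1, ← h2]
      ring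
  exact two.1

theorem trace_pow_charP {p : ℕ} [Fact p.Prime] [CharP k p] (B : Matrix (Fin 2) (Fin 2) k)
    (i : ℕ) : Matrix.trace (B ^ p ^ i) = Matrix.trace B ^ p ^ i := by
  have hchar : CharP (AlgebraicClosure k) p :=
    charP_of_injective_algebraMap (FaithfulSMul.algebraMap_injective k (AlgebraicClosure k)) p
  obtain ⟨x, hx⟩ : ∃ x : AlgebraicClosure k, x ^ 2 -
      algebraMap k (AlgebraicClosure k) (Matrix.trace B) * x +
        algebraMap k (AlgebraicClosure k) (Matrix.det B) = 0 := by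
    obtain ⟨x, hx⟩ := IsAlgClosed.exists_root (Polynomial.X ^ 2 -
      Polynomial.C (algebraMap k (AlgebraicClosure k) (Matrix.trace B)) * Polynomial.X +
        Polynomial.C (algebraMap k (AlgebraicClosure k) (Matrix.det B))) (by
          have : (Polynomial.X ^ 2 -
      Polynomial.C (algebraMap k (AlgebraicClosure k) (Matrix.trace B)) * Polynomial.X +
        Polynomial.C (algebraMap k (AlgebraicClosure k) (Matrix.det B))).degree = 2 := by
            compute_degree!
          rw [this]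
          norm_num)
    refine ⟨x, ?_⟩
    simpa [Polynomial.IsRoot.def] using hx
  obtain ⟨y, hy⟩ : ∃ y, y = algebraMap k (AlgebraicClosure k) (Matrix.trace B) - x := ⟨_, rfl⟩
  have h1 : x + y = algebraMap k (AlgebraicClosure k) (Matrix.trace B) := by rw [hy]; ring
  have h2 : x * y = algebraMap k (AlgebraicClosure k) (Matrix.det B) := by
    rw [hy]
    linear_combination - hx
  apply FaithfulSMul.algebraMap_injective k (AlgebraicClosure k)
  rw [trace_eq_roots B h1 h2, map_pow, ← h1]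
  have h3 := map_add (iterateFrobenius (AlgebraicClosure k) p i) x y
  rw [iterateFrobenius_def, iterateFrobenius_def, iterateFrobenius_def] at h3
  exact h3.symm

end Pool.Agent.Helper93.DR
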