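import Pool.Agent.Helper93.DR.Defs2

/-!
# Fractional linear maps, automorphy factors, exponentials
-/

open scoped NumberField

namespace Pool.Agent.Helper93.DR

variable {F : Type*} [Field F] [NumberField F]

private theorem den_im (c d : F) (z : (F →+* ℝ) → ℂ) (τ : F →+* ℝ) :
    (((τ c : ℝ) : ℂ) * z τ + ((τ d : ℝ) : ℂ)).im = τ c * (z τ).im := by
  simp

theorem den_ne {a b c d : F} (h : TotPos F (a * d - b * c)) {z : (F →+* ℝ) → ℂ} (hz : z ∈ UH F)
    (τ : F →+* ℝ) : ((τ c : ℝ) : ℂ) * z τ + ((τ d : ℝ) : ℂ) ≠ 0 := by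
  intro h0
  have h1 := h τ
  have h2 := hz τ
  rw [map_sub, map_mul, map_mul] at h1
  have h3 : τ c * (z τ).im = 0 := by
    rw [← den_im, h0, Complex.zero_im]
  have h4 : τ c = 0 := by
    rcases mul_eq_zero.1 h3 with h4 | h4
    · exact h4
    · exact absurd h4 (ne_of_gt h2)
  have h5 : τ d = 0 := by
    rw [h4] at h0
    simpa using h0
  rw [h4, h5] at h1
  simp at h1

theorem mob_mem {a b c d : F} (h : TotPos F (a * d - b * c)) {z : (F →+* ℝ) → ℂ}
    (hz : z ∈ UH F) : mob F a b c d z ∈ UH F := by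
  intro τ
  have h0 := den_ne h hz τ
  have h1 := h τ
  have h2 := hz τ
  rw [map_sub, map_mul, map_mul] at h1
  have h3 : 0 < Complex.normSq (((τ c : ℝ) : ℂ) * z τ + ((τ d : ℝ) : ℂ)) :=
    Complex.normSq_pos.2 h0
  have h4 : (mob F a b c d z τ).im = (τ a * τ d - τ b * τ c) * (z τ).im /
      Complex.normSq (((τ c : ℝ) : ℂ) * z τ + ((τ d : ℝ) : ℂ)) := by
    unfold mob
    rw [Complex.div_im]
    simp only [Complex.add_im, Complex.add_re, Complex.mul_im, Complex.mul_re, Complex.ofReal_re,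
      Complex.ofReal_im]
    field_simp
    ring
  rw [h4]
  exact div_pos (mul_pos h1 h2) h3

theorem aut_ne {a b c d : F} (h : TotPos F (a * d - b * c)) {z : (F →+* ℝ) → ℂ}
    (hz : z ∈ UH F) : aut F c d z ≠ 0 := by
  exact Finset.prod_ne_zero_iff.2 fun τ _ => den_ne h hz τ

theorem shift_mem (β : F) {z : (F →+* ℝ) → ℂ} (hz : z ∈ UH F) : shift F β z ∈ UH F := by
  intro τ
  have := hz τ
  simpa [shift] using this

theorem shift_shift (β β' : F) (z : (F →+* ℝ) → ℂ) :
    shift F β (shift F β' z) = shift F (β + β') z := by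
  funext τ
  simp only [shift, map_add, Complex.ofReal_add]
  ring

theorem shift_mob {a b c d : F} (h : TotPos F (a * d - b * c)) (β : F) {z : (F →+* ℝ) → ℂ}
    (hz : z ∈ UH F) : shift F β (mob F a b c d z) = mob F (a + β * c) (b + β * d) c d z := by
  funext τ
  have h0 := den_ne h hz τ
  simp only [shift, mob, map_add, map_mul, Complex.ofReal_add, Complex.ofReal_mul]
  rw [eq_div_iff h0, add_mul, div_mul_cancel₀ _ h0]
  ring

theorem mob_shift (a b c d β : F) (z : (F →+* ℝ) → ℂ) :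
    mob F a b c d (shift F β z) = mob F a (b + a * β) c (d + c * β) z := by
  funext τ
  simp only [shift, mob, map_add, map_mul, Complex.ofReal_add, Complex.ofReal_mul]
  congr 1 <;> ring

theorem aut_shift (c d β : F) (z : (F →+* ℝ) → ℂ) :
    aut F c d (shift F β z) = aut F c (d + c * β) z := by
  unfold aut
  refine Finset.prod_congr rfl fun τ _ => ?_
  simp only [shift, map_add, map_mul, Complex.ofReal_add, Complex.ofReal_mul]
  ring

theorem mob_one_shift (β : F) (z : (F →+* ℝ) → ℂ) : mob F 1 β 0 1 z = shift F β z := by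
  funext τ
  simp [shift, mob]

theorem divN_mem {q : ℕ} (hq : q ≠ 0) {z : (F →+* ℝ) → ℂ} (hz : z ∈ UH F) :
    divN F q z ∈ UH F := by
  intro τ
  have h1 := hz τ
  have h2 : (0 : ℝ) < q := Nat.cast_pos.2 (Nat.pos_of_ne_zero hq)
  have h3 : (divN F q z τ).im = (z τ).im / q := by
    simp [divN]
  rw [h3]
  exact div_pos h1 h2

theorem mob_divN {q : ℕ} (hq : q ≠ 0) (a b c d : F) (z : (F →+* ℝ) → ℂ) :
    mob F a (b / (q : F)) ((q : F) * c) d (divN F q z) = divN F q (mob F a b c d z) := by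
  funext τ
  have hq' : (q : ℂ) ≠ 0 := Nat.cast_ne_zero.2 hq
  simp only [divN, mob, map_mul, map_div₀, map_natCast, Complex.ofReal_mul, Complex.ofReal_div,
    Complex.ofReal_natCast]
  have h1 : ((τ a : ℝ) : ℂ) * (z τ / (q : ℂ)) + ((τ b : ℝ) : ℂ) / (q : ℂ) =
      (((τ a : ℝ) : ℂ) * z τ + ((τ b : ℝ) : ℂ)) / (q : ℂ) := by ring
  have h2 : (q : ℂ) * ((τ c : ℝ) : ℂ) * (z τ / (q : ℂ)) = ((τ c : ℝ) : ℂ) * z τ := by
    field_simp
  rw [h1, h2, div_right_comm]

theorem aut_divN {q : ℕ} (hq : q ≠ 0) (c d : F) (z : (F →+* ℝ) → ℂ) :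
    aut F ((q : F) * c) d (divN F q z) = aut F c d z := by
  unfold aut
  refine Finset.prod_congr rfl fun τ _ => ?_
  have hq' : (q : ℂ) ≠ 0 := Nat.cast_ne_zero.2 hq
  simp only [divN, map_mul, map_natCast, Complex.ofReal_mul, Complex.ofReal_natCast]
  have h2 : (q : ℂ) * ((τ c : ℝ) : ℂ) * (z τ / (q : ℂ)) = ((τ c : ℝ) : ℂ) * z τ := by
    field_simp
  rw [h2]

theorem divN_mob {q : ℕ} (hq : q ≠ 0) (a b c d : F) (z : (F →+* ℝ) → ℂ) :
    divN F q (mob F a b c d z) = mob F a b ((q : F) * c) ((q : F) * d) z := by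
  funext τ
  simp only [divN, mob, map_mul, map_natCast, Complex.ofReal_mul, Complex.ofReal_natCast]
  rw [div_div]
  congr 1
  ring

theorem aut_mul_nat (q : ℕ) (c d : F) (z : (F →+* ℝ) → ℂ) :
    aut F ((q : F) * c) ((q : F) * d) z =
      (q : ℂ) ^ Fintype.card (F →+* ℝ) * aut F c d z := by
  unfold aut
  rw [← Finset.card_univ, ← Finset.prod_const, ← Finset.prod_mul_distrib]
  refine Finset.prod_congr rfl fun τ _ => ?_
  simp only [map_mul, map_natCast, Complex.ofReal_mul, Complex.ofReal_natCast]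
  ring

theorem norm_expo (ξ : F) (z : (F →+* ℝ) → ℂ) :
    ‖expo F ξ z‖ = Real.exp (-(2 * Real.pi * ∑ τ : F →+* ℝ, τ ξ * (z τ).im)) := by
  unfold expo
  rw [Complex.norm_exp]
  congr 1
  have h1 : (∑ τ : F →+* ℝ, ((τ ξ : ℝ) : ℂ) * z τ).im = ∑ τ : F →+* ℝ, τ ξ * (z τ).im := by
    rw [Complex.im_sum]
    exact Finset.sum_congr rfl fun τ _ => by simp
  have h2 : (2 * (Real.pi : ℂ) * Complex.I * ∑ τ : F →+* ℝ, ((τ ξ : ℝ) : ℂ) * z τ).re =
      -(2 * Real.pi * (∑ τ : F →+* ℝ, ((τ ξ : ℝ) : ℂ) * z τ).im) := by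
    simp only [Complex.mul_re, Complex.mul_im, Complex.I_re, Complex.I_im, Complex.ofReal_re,
      Complex.ofReal_im, Complex.re_ofNat, Complex.im_ofNat]
    ring
  rw [h2, h1]

theorem expo_shift (ξ β : F) (z : (F →+* ℝ) → ℂ) :
    expo F ξ (shift F β z) = expo F ξ z *
      Complex.exp (2 * Real.pi * Complex.I * ((∑ τ : F →+* ℝ, τ (ξ * β) : ℝ) : ℂ)) := by
  unfold expo
  rw [← Complex.exp_add, ← mul_add]
  congr 2
  rw [Complex.ofReal_sum, ← Finset.sum_add_distrib]
  refine Finset.sum_congr rfl fun τ _ => ?_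
  simp only [shift, map_mul, Complex.ofReal_mul]
  ring

theorem expo_divN {q : ℕ} (hq : q ≠ 0) (ξ : F) (z : (F →+* ℝ) → ℂ) :
    expo F ((q : F) * ξ) (divN F q z) = expo F ξ z := by
  unfold expo
  congr 2
  refine Finset.sum_congr rfl fun τ _ => ?_
  have hq' : (q : ℂ) ≠ 0 := Nat.cast_ne_zero.2 hq
  simp only [divN, map_mul, map_natCast, Complex.ofReal_mul, Complex.ofReal_natCast]
  field_simp

/-- Absolute convergence at all points of the product of upper half planes. -/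
theorem summable_fser {s : Set F} {u : F → ℂ} (h : Abs F s u) {z : (F →+* ℝ) → ℂ}
    (hz : z ∈ UH F) : Summable fun ξ : s => u ξ * expo F ξ z := by
  have h1 := h (fun τ => (z τ).im) hz
  refine Summable.of_norm ?_
  refine h1.congr fun ξ => ?_
  rw [norm_mul, norm_expo]

end Pool.Agent.Helper93.DR
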