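import Pool.Agent.Helper93.DR.Mob

/-!
# The transformation law of averages over translations
-/

open scoped NumberField

namespace Pool.Agent.Helper93.DR

variable {F : Type*} [Field F] [NumberField F]

/-- Invariance under translations from the transformation law. -/
theorem law_shift {κ N : ℕ} {T : AddSubgroup F} {f : ((F →+* ℝ) → ℂ) → ℂ} (h : Law F κ T N f)
    {β : F} (hβ : β ∈ T) {z : (F →+* ℝ) → ℂ} (hz : z ∈ UH F) : f (shift F β z) = f z := by
  have hG : Gam F T N 1 β 0 1 := by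
    refine ⟨⟨1, by simp⟩, hβ, fun x _ => ⟨0, by simp⟩, ⟨0, by simp⟩, 1, by simp, ?_⟩
    intro τ
    simp
  have h1 := h 1 β 0 1 hG z hz
  rw [mob_one_shift] at h1
  have h2 : aut F 0 1 z = 1 := by
    unfold aut
    simp
  rw [h1, h2, one_pow, one_mul]

private lemma psum_unit_inv (u : (𝓞 F)ˣ) :
    (((u⁻¹ : (𝓞 F)ˣ) : 𝓞 F) : F) * ((u : 𝓞 F) : F) = 1 := by
  have h : (((u⁻¹ : (𝓞 F)ˣ) : 𝓞 F)) * ((u : 𝓞 F)) = 1 := by simp
  have h2 := congrArg (fun x : 𝓞 F => (x : F)) h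
  simpa using h2

/-- The moved translation. -/
private noncomputable def psumBeta (b d : F) (u : (𝓞 F)ˣ) (β : F) : F :=
  d * (((u⁻¹ : (𝓞 F)ˣ) : 𝓞 F) : F) * (b + d * β)

private lemma psumBeta_mem {T₁ : AddSubgroup F} (hO₁ : OStable F T₁) {b : F} (hb : b ∈ T₁)
    (yd : 𝓞 F) (u : (𝓞 F)ˣ) {β : F} (hβ : β ∈ T₁) : psumBeta b (yd : F) u β ∈ T₁ := by
  unfold psumBeta
  rw [mul_assoc]
  exact hO₁ _ _ (hO₁ _ _ (T₁.add_mem hb (hO₁ _ _ hβ)))

private lemma psum_gam {N m : ℕ} {T T₁ : AddSubgroup F} (hT : T ≤ T₁)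
    (hO : OStable F T) (hO₁ : OStable F T₁) (hmT : ∀ x ∈ T₁, (m : F) * x ∈ T)
    {a b c d : F} (ya yd : 𝓞 F) (ha : a = ya) (hb : b ∈ T₁)
    (hc : ∀ x ∈ T₁, ∃ y : 𝓞 F, c * x = ((N * m : ℕ) : F) * y)
    (hd : d = 1 + ((N * m : ℕ) : F) * yd) (u : (𝓞 F)ˣ) (hu : a * d - b * c = ((u : 𝓞 F) : F))
    (hpos : TotPos F ((u : 𝓞 F) : F)) {β : F} (hβ : β ∈ T₁) :
    Gam F T N (a + β * c) (b + β * d - (a + β * c) * psumBeta b d u β) c
      (d - c * psumBeta b d u β) := by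
  have hd' : d = (((1 + ((N * m : ℕ) : 𝓞 F) * yd) : 𝓞 F) : F) := by
    rw [hd]; push_cast; rfl
  have hβ' : psumBeta b d u β ∈ T₁ := by
    rw [hd']; exact psumBeta_mem hO₁ hb _ u hβ
  have hs : b + d * β ∈ T₁ := by
    refine T₁.add_mem hb ?_
    rw [hd']; exact hO₁ _ _ hβ
  have hui := psum_unit_inv u
  refine ⟨?_, ?_, ?_, ?_, u, ?_, hpos⟩
  · obtain ⟨y, hy⟩ := hc β hβ
    refine ⟨ya + ((N * m : ℕ) : 𝓞 F) * y, ?_⟩
    rw [mul_comm β c, hy, ha]
    push_cast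
    rfl
  · obtain ⟨y, hy⟩ := hc _ hs
    have e : b + β * d - (a + β * c) * psumBeta b d u β =
        ((-(((u⁻¹ : (𝓞 F)ˣ) : 𝓞 F) * (N : 𝓞 F) * y) : 𝓞 F) : F) * ((m : F) * (b + d * β)) := by
      have e1 : b + β * d - (a + β * c) * psumBeta b d u β =
          -((((u⁻¹ : (𝓞 F)ˣ) : 𝓞 F) : F) * (c * (b + d * β)) * (b + d * β)) := by
        unfold psumBeta
        have e2 : b + β * d = ((((u⁻¹ : (𝓞 F)ˣ) : 𝓞 F) : F) * (a * d - b * c)) * (b + d * β) := by
          rw [hu, hui]; ring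
        rw [e2]
        ring
      rw [e1, hy]
      push_cast
      ring
    rw [e]
    exact hO _ _ (hmT _ hs)
  · intro x hx
    obtain ⟨y, hy⟩ := hc x (hT hx)
    refine ⟨(m : 𝓞 F) * y, ?_⟩
    rw [hy]
    push_cast
    ring
  · obtain ⟨y, hy⟩ := hc _ hβ'
    refine ⟨(m : 𝓞 F) * yd - (m : 𝓞 F) * y, ?_⟩
    rw [hy, hd]
    push_cast
    ring
  · rw [← hu]
    ring

theorem law_avg {κ N m : ℕ} (hN : N ≠ 0) (hm : m ≠ 0) {T T₁ : AddSubgroup F} (hT : T ≤ T₁)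
    (hO : OStable F T) (hO₁ : OStable F T₁) (hmT : ∀ x ∈ T₁, (m : F) * x ∈ T)
    [Finite (T₁ ⧸ T.addSubgroupOf T₁)] {f : ((F →+* ℝ) → ℂ) → ℂ} (h : Law F κ T N f) :
    Law F κ T₁ (N * m) (avg F T T₁ f) := by
  classical
  rintro a b c d ⟨⟨ya, ha⟩, hb, hc, ⟨yd, hd⟩, u, hu, hpos⟩ z hz
  have hdet : TotPos F (a * d - b * c) := by rw [hu]; exact hpos
  have hd' : d = (((1 + ((N * m : ℕ) : 𝓞 F) * yd) : 𝓞 F) : F) := by
    rw [hd]; push_cast; rfl
  have hui := psum_unit_inv u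
  have hβ' : ∀ β ∈ T₁, psumBeta b d u β ∈ T₁ := by
    intro β hβ
    rw [hd']; exact psumBeta_mem hO₁ hb _ u hβ
  -- one term
  have key : ∀ β ∈ T₁, f (shift F β (mob F a b c d z)) =
      aut F c d z ^ κ * f (shift F (psumBeta b d u β) z) := by
    intro β hβ
    have hG := psum_gam hT hO hO₁ hmT ya yd ha hb hc hd u hu hpos hβ
    have h1 := h _ _ _ _ hG (shift F (psumBeta b d u β) z) (shift_mem _ hz)
    rw [mob_shift, aut_shift] at h1
    rw [show b + β * d - (a + β * c) * psumBeta b d u β + (a + β * c) * psumBeta b d u β =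
      b + β * d by ring, show d - c * psumBeta b d u β + c * psumBeta b d u β = d by ring,
      ← shift_mob hdet β hz] at h1
    exact h1
  -- dependence on the class only
  have hcl : ∀ β β' : F, β - β' ∈ T → f (shift F β z) = f (shift F β' z) := by
    intro β β' hββ
    have h1 := law_shift h hββ (shift_mem β' hz)
    rw [shift_shift, sub_add_cancel] at h1
    exact h1
  -- the permutation of the classes
  set Qt := T₁ ⧸ T.addSubgroupOf T₁ with hQt
  let σ : Qt → Qt := fun x => QuotientAddGroup.mk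
    (⟨psumBeta b d u ((Quotient.out x : T₁) : F), hβ' _ (Quotient.out x : T₁).2⟩ : T₁)
  have hσ : ∀ x : Qt, f (shift F (psumBeta b d u ((Quotient.out x : T₁) : F)) z) =
      f (shift F ((Quotient.out (σ x) : T₁) : F) z) := by
    intro x
    have h1 : (QuotientAddGroup.mk (Quotient.out (σ x) : T₁) : Qt) = σ x := Quotient.out_eq _
    have h2 := (QuotientAddGroup.eq).1 h1
    rw [AddSubgroup.mem_addSubgroupOf] at h2
    refine hcl _ _ ?_
    have e : psumBeta b d u ((Quotient.out x : T₁) : F) - ((Quotient.out (σ x) : T₁) : F) =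
      ((-(Quotient.out (σ x) : T₁) +
        (⟨psumBeta b d u ((Quotient.out x : T₁) : F), hβ' _ (Quotient.out x : T₁).2⟩ : T₁) :
          T₁) : F) := by
      push_cast
      ring
    rw [e]
    exact h2
  have hmd : ∀ δ ∈ T₁, d * δ - δ ∈ T := by
    intro δ hδ
    have e : d * δ - δ = (((N : 𝓞 F) * yd : 𝓞 F) : F) * ((m : F) * δ) := by
      rw [hd]; push_cast; ring
    rw [e]
    exact hO _ _ (hmT _ hδ)
  have hinj : Function.Injective σ := by
    intro x x' hxx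
    have h1 := (QuotientAddGroup.eq).1 hxx
    rw [AddSubgroup.mem_addSubgroupOf] at h1
    set β := ((Quotient.out x : T₁) : F) with hβdef
    set β₁ := ((Quotient.out x' : T₁) : F) with hβ₁def
    have hβT : β ∈ T₁ := (Quotient.out x : T₁).2
    have hβ₁T : β₁ ∈ T₁ := (Quotient.out x' : T₁).2
    have h2 : psumBeta b d u β₁ - psumBeta b d u β ∈ T := by
      have e : psumBeta b d u β₁ - psumBeta b d u β =
        ((-(⟨psumBeta b d u β, hβ' _ hβT⟩ : T₁) + (⟨psumBeta b d u β₁, hβ' _ hβ₁T⟩ : T₁) :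
          T₁) : F) := by
        push_cast
        ring
      rw [e]
      exact h1
    have hδ : β₁ - β ∈ T₁ := T₁.sub_mem hβ₁T hβT
    have h3 : psumBeta b d u β₁ - psumBeta b d u β =
        (((u⁻¹ : (𝓞 F)ˣ) : 𝓞 F) : F) * (d * (d * (β₁ - β))) := by
      unfold psumBeta
      ring
    have h4 : d * (d * (β₁ - β)) ∈ T := by
      have h5 := hO ((u : 𝓞 F)) _ h2
      rw [h3, ← mul_assoc, mul_comm ((u : 𝓞 F) : F), hui, one_mul] at h5
      exact h5
    have hdT : ∀ δ ∈ T₁, d * δ ∈ T → δ ∈ T := by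
      intro δ hδ h5
      have h6 := T.sub_mem h5 (hmd δ hδ)
      rwa [sub_sub_cancel] at h6
    have hdδ : d * (β₁ - β) ∈ T₁ := by
      rw [hd']
      exact hO₁ _ _ hδ
    have h7 : β₁ - β ∈ T := hdT _ hδ (hdT _ hdδ h4)
    have h8 : (QuotientAddGroup.mk (Quotient.out x : T₁) : Qt) =
        QuotientAddGroup.mk (Quotient.out x' : T₁) := by
      rw [QuotientAddGroup.eq, AddSubgroup.mem_addSubgroupOf]
      have e : ((-(Quotient.out x : T₁) + (Quotient.out x' : T₁) : T₁) : F) = β₁ - β := by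
        push_cast
        ring
      rw [e]
      exact h7
    have h9 : (QuotientAddGroup.mk (Quotient.out x : T₁) : Qt) = x := Quotient.out_eq _
    have h10 : (QuotientAddGroup.mk (Quotient.out x' : T₁) : Qt) = x' := Quotient.out_eq _
    rw [h9, h10] at h8
    exact h8
  have hbij : Function.Bijective σ := Finite.injective_iff_bijective.1 hinj
  letI : Fintype Qt := Fintype.ofFinite _
  unfold avg
  rw [finsum_eq_sum_of_fintype, finsum_eq_sum_of_fintype]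
  have h1 : ∑ x : Qt, f (shift F ((Quotient.out x : T₁) : F) (mob F a b c d z)) =
      aut F c d z ^ κ * ∑ x : Qt, f (shift F ((Quotient.out x : T₁) : F) z) := by
    have h2 : ∑ x : Qt, f (shift F ((Quotient.out (σ x) : T₁) : F) z) =
        ∑ x : Qt, f (shift F ((Quotient.out x : T₁) : F) z) :=
      hbij.sum_comp (fun x : Qt => f (shift F ((Quotient.out x : T₁) : F) z))
    rw [← h2, Finset.mul_sum]
    refine Finset.sum_congr rfl fun x _ => ?_
    rw [key _ (Quotient.out x : T₁).2, hσ]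
  rw [h1]
  ring

theorem bdd_avg {κ : ℕ} {T T₁ : AddSubgroup F} [Finite (T₁ ⧸ T.addSubgroupOf T₁)]
    {f : ((F →+* ℝ) → ℂ) → ℂ} (h : Cusp F κ f) : Cusp F κ (avg F T T₁ f) := by
  classical
  obtain ⟨B, hB⟩ := h
  refine ⟨B, fun z hz => ?_⟩
  letI : Fintype (T₁ ⧸ T.addSubgroupOf T₁) := Fintype.ofFinite _
  have hP : 0 ≤ (∏ τ : F →+* ℝ, (z τ).im) ^ ((κ : ℝ) / 2) :=
    Real.rpow_nonneg (Finset.prod_nonneg fun τ _ => (hz τ).le) _
  have h1 : ∀ x : T₁ ⧸ T.addSubgroupOf T₁, ‖f (shift F ((Quotient.out x : T₁) : F) z)‖ *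
      (∏ τ : F →+* ℝ, (z τ).im) ^ ((κ : ℝ) / 2) ≤ B := by
    intro x
    have h2 := hB _ (shift_mem ((Quotient.out x : T₁) : F) hz)
    have h3 : ∀ τ : F →+* ℝ, (shift F ((Quotient.out x : T₁) : F) z τ).im = (z τ).im := by
      intro τ
      unfold shift
      rw [Complex.add_im, Complex.ofReal_im, add_zero]
    simp only [h3] at h2
    exact h2
  have hn : (0 : ℝ) < Fintype.card (T₁ ⧸ T.addSubgroupOf T₁) :=
    Nat.cast_pos.2 Fintype.card_pos
  unfold avg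
  rw [finsum_eq_sum_of_fintype, norm_mul, norm_inv, Complex.norm_natCast,
    Nat.card_eq_fintype_card, mul_assoc, inv_mul_le_iff₀ hn]
  calc ‖∑ x : T₁ ⧸ T.addSubgroupOf T₁, f (shift F ((Quotient.out x : T₁) : F) z)‖ *
        (∏ τ : F →+* ℝ, (z τ).im) ^ ((κ : ℝ) / 2)
      ≤ (∑ x : T₁ ⧸ T.addSubgroupOf T₁, ‖f (shift F ((Quotient.out x : T₁) : F) z)‖) *
        (∏ τ : F →+* ℝ, (z τ).im) ^ ((κ : ℝ) / 2) :=
        mul_le_mul_of_nonneg_right (norm_sum_le _ _) hP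
    _ = ∑ x : T₁ ⧸ T.addSubgroupOf T₁, ‖f (shift F ((Quotient.out x : T₁) : F) z)‖ *
        (∏ τ : F →+* ℝ, (z τ).im) ^ ((κ : ℝ) / 2) := Finset.sum_mul _ _ _
    _ ≤ ∑ _x : T₁ ⧸ T.addSubgroupOf T₁, B := Finset.sum_le_sum fun x _ => h1 x
    _ = Fintype.card (T₁ ⧸ T.addSubgroupOf T₁) * B := by
        rw [Finset.sum_const, Finset.card_univ, nsmul_eq_mul]

end Pool.Agent.Helper93.DR
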