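import Pool.Agent.Helper93.DR.Main
import Pool.Agent.Helper93.DR.IrrG
import Pool.Agent.Helper93.DR.Infl
import Pool.Agent.Helper93.DR.Comp
import Pool.Agent.Helper93.DR.Solv

/-!
# The weak Serre conjecture in `p`-extensions
-/

open scoped NumberField Pointwise

universe u w

namespace Pool.Agent.Helper93.DR

/-- Total oddness: the complex conjugations have determinant `-1`. -/
def TotOdd {F L k : Type*} [Field F] [Field L] [Algebra F L] [Field k]
    (ρ : (L ≃ₐ[F] L) →* Matrix.GeneralLinearGroup (Fin 2) k) : Prop :=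
  ∀ (e : L →+* ℂ) (c : L ≃ₐ[F] L), (∀ x, e (c x) = starRingEnd ℂ (e x)) →
    Matrix.det (ρ c : Matrix (Fin 2) (Fin 2) k) = -1

/-- The weak Serre conjecture for the field `F` and coefficients in `k`. -/
def Serre (F : Type u) [Field F] [NumberField F] (k : Type w) [Field k] : Prop :=
  ∀ (L : Type u) [Field L] [NumberField L] [Algebra F L] [IsGalois F L]
    (ρ : (L ≃ₐ[F] L) →* Matrix.GeneralLinearGroup (Fin 2) k), Irr ρ → TotOdd ρ →
      ∃ κ, 2 ≤ κ ∧ Modular F κ ρ

/-- The weak Serre conjecture for representations with non-solvable image. -/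
def SerreNS (F : Type u) [Field F] [NumberField F] (k : Type w) [Field k] : Prop :=
  ∀ (L : Type u) [Field L] [NumberField L] [Algebra F L] [IsGalois F L]
    (ρ : (L ≃ₐ[F] L) →* Matrix.GeneralLinearGroup (Fin 2) k),
    ¬ Group.IsSolvable ρ.range → TotOdd ρ → ∃ κ, 2 ≤ κ ∧ Modular F κ ρ

/-- The common argument: `P` and `P'` are properties of the representations over `F` and `F'`. -/
theorem serre_aux {p : ℕ} [Fact p.Prime] {k : Type w} [Field k] [CharP k p]
    [IsAlgClosed k] {F F' : Type u} [Field F] [NumberField F] [Field F'] [NumberField F']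
    [Algebra F F'] [NumberField.IsTotallyReal F'] [IsGalois F F']
    (hP : IsPGroup p (F' ≃ₐ[F] F')) {L : Type u} [Field L] [NumberField L] [Algebra F L]
    [IsGalois F L] (ρ : (L ≃ₐ[F] L) →* Matrix.GeneralLinearGroup (Fin 2) k) (hodd : TotOdd ρ)
    (h : ∀ (L' : Type u) [Field L'] [NumberField L'] [Algebra F L'] [Algebra F' L']
      [Algebra L L'] [IsScalarTower F F' L'] [IsScalarTower F L L'] [IsGalois F L']
      [IsGalois F' L'], TotOdd (res (F' := F')
        (ρ.comp (AlgEquiv.restrictNormalHom L : (L' ≃ₐ[F] L') →* (L ≃ₐ[F] L)))) →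
      ∃ κ, 2 ≤ κ ∧ Modular F' κ (res (F' := F')
        (ρ.comp (AlgEquiv.restrictNormalHom L : (L' ≃ₐ[F] L') →* (L ≃ₐ[F] L))))) :
    ∃ κ, 2 ≤ κ ∧ Modular F κ ρ := by
  have hF : NumberField.IsTotallyReal F := totallyReal_base (F' := F')
  obtain ⟨L', _, _, _, _, _, _, _, _⟩ := exists_compositum F F' L
  have hG' : IsGalois F' L' := IsGalois.tower_top_of_isGalois F F' L'
  have hodd' : TotOdd (res (F' := F')
      (ρ.comp (AlgEquiv.restrictNormalHom L : (L' ≃ₐ[F] L') →* (L ≃ₐ[F] L)))) := by
    intro e c hc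
    refine hodd (e.comp (algebraMap L L')) (AlgEquiv.restrictNormalHom L
      (AlgEquiv.restrictScalarsHom F c)) fun x => ?_
    have h1 := AlgEquiv.restrictNormal_commutes (AlgEquiv.restrictScalarsHom F c) L x
    rw [RingHom.comp_apply, RingHom.comp_apply, ← hc]
    exact congrArg e h1
  obtain ⟨κ, hκ, h1⟩ := h L' hodd'
  exact ⟨κ * Module.finrank F F', hκ.trans (Nat.le_mul_of_pos_right κ Module.finrank_pos),
    modular_of_inflation (L' := L') ρ (descent_modular hP _ h1)⟩

/-- For odd `p` the weak Serre conjecture for `F'` implies it for `F`. -/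
theorem serre_descent {p : ℕ} [Fact p.Prime] (hp : p ≠ 2) {k : Type w} [Field k] [CharP k p]
    [IsAlgClosed k] {F F' : Type u} [Field F] [NumberField F] [Field F'] [NumberField F']
    [Algebra F F'] [NumberField.IsTotallyReal F'] [IsGalois F F']
    (hP : IsPGroup p (F' ≃ₐ[F] F')) (h : Serre F' k) : Serre F k := by
  intro L _ _ _ _ ρ hirr hodd
  refine serre_aux hP ρ hodd ?_
  intro L' _ _ _ _ _ _ _ _ _ hodd'
  have hL' : FiniteDimensional F L' := inferInstance
  refine h L' _ ?_ hodd'
  refine irr_restrict hp _ range_normal (quot_pgroup hP) ?_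
  intro v hv
  obtain ⟨g, hg⟩ := hirr v hv
  obtain ⟨g', rfl⟩ := AlgEquiv.restrictNormalHom_surjective (F := F) (K₁ := L) L' g
  exact ⟨g', hg⟩

/-- For every `p` the weak Serre conjecture for representations with non-solvable image over `F'`
implies it over `F`. -/
theorem serreNS_descent {p : ℕ} [Fact p.Prime] {k : Type w} [Field k] [CharP k p]
    [IsAlgClosed k] {F F' : Type u} [Field F] [NumberField F] [Field F'] [NumberField F']
    [Algebra F F'] [NumberField.IsTotallyReal F'] [IsGalois F F']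
    (hP : IsPGroup p (F' ≃ₐ[F] F')) (h : SerreNS F' k) : SerreNS F k := by
  intro L _ _ _ _ ρ hns hodd
  refine serre_aux hP ρ hodd ?_
  intro L' _ _ _ _ _ _ _ _ _ hodd'
  have hL' : FiniteDimensional F L' := inferInstance
  refine h L' _ (fun hs => hns ?_) hodd'
  have h1 := solvable_of_restrict _ range_normal (quot_pgroup hP) _ hs
  have h2 : (ρ.comp (AlgEquiv.restrictNormalHom L : (L' ≃ₐ[F] L') →* (L ≃ₐ[F] L))).range =
      ρ.range := by
    rw [MonoidHom.range_comp, MonoidHom.range_eq_top.mpr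
      (AlgEquiv.restrictNormalHom_surjective (F := F) (K₁ := L) L'), MonoidHom.range_eq_map]
  rw [h2] at h1
  exact h1

end Pool.Agent.Helper93.DR
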